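import Pool.Agent.H403R4.Sized
import Pool.Agent.H403R3.Defs

/-!
# General lemmas
-/

open MvPolynomial

namespace Pool.Agent.H403R4

open Pool.Agent.H403R3

lemma mem_pair {V : Type*} [AddCommGroup V] [Module ℂ V] {u v : V} (x y : ℂ) :
    x • u + y • v ∈ Submodule.span ℂ {u, v} :=
  Submodule.mem_span_pair.mpr ⟨x, y, rfl⟩

lemma left_mem {V : Type*} [AddCommGroup V] [Module ℂ V] (u v : V) :
    u ∈ Submodule.span ℂ {u, v} := Submodule.subset_span (Set.mem_insert _ _)

lemma right_mem {V : Type*} [AddCommGroup V] [Module ℂ V] (u v : V) :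
    v ∈ Submodule.span ℂ {u, v} := Submodule.subset_span (Set.mem_insert_of_mem _ rfl)

/-- if `w` is not in the span of `q ≠ 0` then `w, q` are linearly independent -/
lemma indep_of_notMem {V : Type*} [AddCommGroup V] [Module ℂ V] {w q : V}
    (hw : w ∉ Submodule.span ℂ {q}) (hq : q ≠ 0) {x y : ℂ} (h : x • w + y • q = 0) :
    x = 0 ∧ y = 0 := by
  have hx : x = 0 := by
    by_contra hx
    apply hw
    rw [Submodule.mem_span_singleton]
    refine ⟨-(x⁻¹ * y), ?_⟩
    have : w = x⁻¹ • (x • w) := by rw [smul_smul, inv_mul_cancel₀ hx, one_smul]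
    rw [this, eq_neg_of_add_eq_zero_left h]
    module
  rw [hx, zero_smul, zero_add] at h
  exact ⟨hx, (smul_eq_zero.mp h).resolve_right hq⟩

section

variable {n h : ℕ} {p : Fin h → Vec n}

lemma tangent_iff {x : Vec n} {w : Fin h → Vec n} (hp : ∀ i, p i ≠ 0)
    (hw : ∀ i, w i ∉ Submodule.span ℂ {p i}) (A B : Fin h → ℂ)
    (hx : ∀ i, x = A i • w i + B i • p i) (v : Vec n × (Fin h → Vec n)) :
    v ∈ tangentCone p x w ↔ ∀ i, v.1 - A i • v.2 i ∈ Submodule.span ℂ {w i, p i} := by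
  constructor
  · intro hv i
    exact hv i (A i) (B i) (hx i)
  · intro hv i a b hab
    have h1 : (A i - a) • w i + (B i - b) • p i = 0 := by
      have := hx i
      rw [this] at hab
      have h2 : (A i - a) • w i + (B i - b) • p i =
          (A i • w i + B i • p i) - (a • w i + b • p i) := by module
      rw [h2, hab, sub_self]
    have h2 := (indep_of_notMem (hw i) (hp i) h1).1
    have h3 : a = A i := by linear_combination -h2
    rw [h3]
    exact hv i

lemma vertical_le_tangent {x : Vec n} {w : Fin h → Vec n}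
    (hx : ∀ i, x ∈ Submodule.span ℂ {w i, p i}) : vertical p x w ≤ tangentCone p x w := by
  intro v hv i a b _
  refine Submodule.sub_mem _ ?_ (Submodule.smul_mem _ _ (hv.2 i))
  obtain ⟨c, hc⟩ := Submodule.mem_span_singleton.mp hv.1
  rw [← hc]
  exact Submodule.smul_mem _ _ (hx i)

lemma comb_pair {r : ℕ} (c : Fin r → ℂ) (ξ : Fin r → Vec n) (η : Fin r → Fin h → Vec n) :
    (comb c ξ, fun i => comb c (fun m => η m i)) =
      ∑ m, c m • ((ξ m, η m) : Vec n × (Fin h → Vec n)) := by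
  refine Prod.ext ?_ ?_
  · rw [Prod.fst_sum, RatCurve.comb_eq]
    rfl
  · rw [Prod.snd_sum]
    funext i
    change comb c (fun m => η m i) = _
    rw [RatCurve.comb_eq, Finset.sum_apply]
    rfl

/-- A criterion for `IsSplitting`. -/
lemma isSplitting_iff (γ : RatCurve p) (b : Fin 2 → ℂ) {a r : ℕ}
    (ξ : Fin a → Vec n) (η : Fin a → Fin h → Vec n) (ξ' : Fin r → Vec n)
    (η' : Fin r → Fin h → Vec n) : IsSplitting γ b ξ η ξ' η' ↔
      (∀ m, ((ξ m, η m) : Vec n × (Fin h → Vec n)) ∈ tangentCone p (γ.x b) (γ.dir b)) ∧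
      (∀ l, ((ξ' l, η' l) : Vec n × (Fin h → Vec n)) ∈ tangentCone p (γ.x b) (γ.dir b)) ∧
      (∀ (c : Fin a → ℂ) (d : Fin r → ℂ),
        ∑ m, c m • ((ξ m, η m) : Vec n × (Fin h → Vec n)) +
          ∑ l, d l • ((ξ' l, η' l) : Vec n × (Fin h → Vec n)) ∈ γ.tangentLine b → c = 0) ∧
      ∀ v ∈ tangentCone p (γ.x b) (γ.dir b), ∃ (c : Fin a → ℂ) (d : Fin r → ℂ),
        v - ∑ m, c m • ((ξ m, η m) : Vec n × (Fin h → Vec n)) -
          ∑ l, d l • ((ξ' l, η' l) : Vec n × (Fin h → Vec n)) ∈ γ.tangentLine b := by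
  refine and_congr Iff.rfl (and_congr Iff.rfl (and_congr ?_ ?_))
  · refine forall_congr' fun c => forall_congr' fun d => ?_
    rw [← comb_pair, ← comb_pair]
    refine imp_congr ?_ Iff.rfl
    exact γ.isAlong_iff b ((comb c ξ, fun i => comb c (fun m => η m i)) +
      (comb d ξ', fun i => comb d (fun m => η' m i)))
  · constructor
    · intro H v hv
      obtain ⟨c, d, hcd⟩ := H v.1 v.2 hv
      refine ⟨c, d, ?_⟩
      rw [← comb_pair, ← comb_pair]
      exact (γ.isAlong_iff b (v - (comb c ξ, fun i => comb c (fun m => η m i)) -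
        (comb d ξ', fun i => comb d (fun m => η' m i)))).mp hcd
    · intro H ζ θ hv
      obtain ⟨c, d, hcd⟩ := H (ζ, θ) hv
      refine ⟨c, d, ?_⟩
      rw [← comb_pair, ← comb_pair] at hcd
      exact (γ.isAlong_iff b ((ζ, θ) - (comb c ξ, fun i => comb c (fun m => η m i)) -
        (comb d ξ', fun i => comb d (fun m => η' m i)))).mpr hcd

lemma vertical_le_tangentLine (γ : RatCurve p) (b : Fin 2 → ℂ) :
    vertical p (γ.x b) (γ.dir b) ≤ γ.tangentLine b := le_sup_left

lemma deriv_mem_tangentLine (γ : RatCurve p) (b : Fin 2 → ℂ) (k : Fin 2) :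
    γ.deriv k b ∈ γ.tangentLine b :=
  (le_sup_right : _ ≤ γ.tangentLine b) (Submodule.subset_span ⟨k, rfl⟩)

/-- elements of the tangent line -/
lemma mem_tangentLine_iff (γ : RatCurve p) (b : Fin 2 → ℂ) (v : Vec n × (Fin h → Vec n)) :
    v ∈ γ.tangentLine b ↔ ∃ k₀ k₁ : ℂ, v - k₀ • γ.deriv 0 b - k₁ • γ.deriv 1 b ∈
      vertical p (γ.x b) (γ.dir b) := by
  unfold RatCurve.tangentLine
  rw [Submodule.mem_sup]
  constructor
  · rintro ⟨y, hy, z, hz, rfl⟩
    rw [Submodule.mem_span_range_iff_exists_fun] at hz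
    obtain ⟨c, rfl⟩ := hz
    refine ⟨c 0, c 1, ?_⟩
    rw [Fin.sum_univ_two]
    convert hy using 1
    abel
  · rintro ⟨k₀, k₁, hk⟩
    refine ⟨_, hk, k₀ • γ.deriv 0 b + k₁ • γ.deriv 1 b, ?_, by abel⟩
    exact Submodule.add_mem _ (Submodule.smul_mem _ _ (Submodule.subset_span ⟨0, rfl⟩))
      (Submodule.smul_mem _ _ (Submodule.subset_span ⟨1, rfl⟩))

end

/-- scalars -/
lemma scal_prop {a b x y : ℂ} (hab : ¬ (a = 0 ∧ b = 0)) (h : x * b = y * a) :
    ∃ κ : ℂ, x = κ * a ∧ y = κ * b := by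
  by_cases ha : a = 0
  · have hb : b ≠ 0 := fun hb => hab ⟨ha, hb⟩
    refine ⟨y / b, ?_, by rw [div_mul_cancel₀ _ hb]⟩
    rw [ha, mul_zero] at h ⊢
    rcases mul_eq_zero.mp h with h | h
    · exact h
    · exact absurd h hb
  · refine ⟨x / a, by rw [div_mul_cancel₀ _ ha], ?_⟩
    field_simp
    linear_combination -h

lemma scal_three {f s t z u₀ u₁ u₂ : ℂ} (hst : ¬ (s = 0 ∧ t = 0)) (hfs : ¬ (f = 0 ∧ s = 0))
    (hft : ¬ (f = 0 ∧ t = 0)) (h0 : z = f * u₀) (h1 : z = s * u₁) (h2 : z = t * u₂) :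
    ∃ c : ℂ, z = c * (f * s * t) ∧ u₀ = c * (s * t) ∧ u₁ = c * (f * t) ∧ u₂ = c * (f * s) := by
  by_cases hf : f = 0
  · have hs : s ≠ 0 := fun hs => hfs ⟨hf, hs⟩
    have ht : t ≠ 0 := fun ht => hft ⟨hf, ht⟩
    subst hf
    have hz : z = 0 := by rw [h0, zero_mul]
    have e1 : u₁ = 0 := by
      rw [hz] at h1
      exact (mul_eq_zero.mp h1.symm).resolve_left hs
    have e2 : u₂ = 0 := by
      rw [hz] at h2
      exact (mul_eq_zero.mp h2.symm).resolve_left ht
    exact ⟨u₀ / (s * t), by rw [hz]; ring, by field_simp, by rw [e1]; ring, by rw [e2]; ring⟩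
  · by_cases hs : s = 0
    · have ht : t ≠ 0 := fun ht => hst ⟨hs, ht⟩
      subst hs
      have hz : z = 0 := by rw [h1, zero_mul]
      have e0 : u₀ = 0 := by
        rw [hz] at h0
        exact (mul_eq_zero.mp h0.symm).resolve_left hf
      have e2 : u₂ = 0 := by
        rw [hz] at h2
        exact (mul_eq_zero.mp h2.symm).resolve_left ht
      exact ⟨u₁ / (f * t), by rw [hz]; ring, by rw [e0]; ring, by field_simp, by rw [e2]; ring⟩
    · by_cases ht : t = 0
      · subst ht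
        have hz : z = 0 := by rw [h2, zero_mul]
        have e0 : u₀ = 0 := by
          rw [hz] at h0
          exact (mul_eq_zero.mp h0.symm).resolve_left hf
        have e1 : u₁ = 0 := by
          rw [hz] at h1
          exact (mul_eq_zero.mp h1.symm).resolve_left hs
        exact ⟨u₂ / (f * s), by rw [hz]; ring, by rw [e0]; ring, by rw [e1]; ring, by field_simp⟩
      · refine ⟨z / (f * s * t), by field_simp, ?_, ?_, ?_⟩
        · rw [h0]; field_simp
        · rw [h1]; field_simp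
        · rw [h2]; field_simp

lemma pt_ne {b : Fin 2 → ℂ} (hb : b ≠ 0) : ¬ (b 0 = 0 ∧ b 1 = 0) := by
  rintro ⟨h0, h1⟩
  apply hb
  funext i
  fin_cases i <;> simp [h0, h1]

end Pool.Agent.H403R4
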