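import Pool.Agent.H403R4.Low

/-!
# At most two points: the classes
-/

open MvPolynomial Module

namespace Pool.Agent.H403R4

open Pool.Agent.H403R3

section

variable {n h : ℕ} {p : Fin h → Vec n}

/-- A vector field along the curve of too small degree has no component in the direction `w i`. -/
lemma mem_of_deg_lt {γ : RatCurve p} (i : Fin h) {d : ℕ}
    {g : Fin (n + 1) → MvPolynomial (Fin 2) ℂ} (hg : ∀ j, (g j).IsHomogeneous d)
    (hd : d < γ.e i)
    (hmem : ∀ b : Fin 2 → ℂ, b ≠ 0 →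
      (fun j => eval b (g j)) ∈ Submodule.span ℂ {γ.dir b i, p i})
    {b : Fin 2 → ℂ} (hb : b ≠ 0) : (fun j => eval b (g j)) ∈ Submodule.span ℂ {p i} := by
  choose! A B hAB using fun (b : Fin 2 → ℂ) (hb : b ≠ 0) => Submodule.mem_span_pair.mp (hmem b hb)
  have hnot : ∀ b : Fin 2 → ℂ, b ≠ 0 → γ.dir b i ∉ Submodule.span ℂ {p i} :=
    fun b hb => (γ.isPoint b hb).notMem i
  have hA : A b = 0 := by
    refine regular_zero A (γ.e i - d) (by omega) ?_ ?_ b hb
    · intro x b hx hb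
      have hxb : x • b ≠ 0 := smul_ne_zero hx hb
      obtain ⟨μ, hμ, hker⟩ := Submodule.exists_le_ker_of_notMem (hnot b hb)
      have hμp : μ (p i) = 0 := hker (Submodule.mem_span_singleton_self _)
      have h1 := congrArg μ (hAB b hb)
      have h2 := congrArg μ (hAB (x • b) hxb)
      rw [map_add, map_smul, map_smul, hμp, smul_zero, add_zero, smul_eq_mul] at h1 h2
      have h3 : (fun j => eval (x • b) (g j)) = x ^ d • fun j => eval b (g j) := by
        funext j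
        exact hom_smul (hg j) x b
      rw [h3, dir_smul, map_smul, map_smul, smul_eq_mul, smul_eq_mul, ← h1] at h2
      have h4 : x ^ γ.e i = x ^ d * x ^ (γ.e i - d) := by rw [← pow_add]; congr 1; omega
      rw [h4] at h2
      have h5 : x ^ d * μ (γ.dir b i) ≠ 0 := mul_ne_zero (pow_ne_zero _ hx) hμ
      apply mul_left_cancel₀ h5
      linear_combination h2
    · intro b₀ hb₀
      obtain ⟨μ, hμ, hker⟩ := Submodule.exists_le_ker_of_notMem (hnot b₀ hb₀)
      have hμp : μ (p i) = 0 := hker (Submodule.mem_span_singleton_self _)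
      refine ⟨fun b => eval b (Lp μ (γ.w i)), fun b => eval b (Lp μ g), differentiable_eval _,
        differentiable_eval _, ?_, fun b hb => ?_⟩
      · change eval b₀ (Lp μ (γ.w i)) ≠ 0
        rw [eval_Lp]
        exact hμ
      · change A b * eval b (Lp μ (γ.w i)) = eval b (Lp μ g)
        rw [eval_Lp, eval_Lp]
        have h1 := congrArg μ (hAB b hb)
        rw [map_add, map_smul, map_smul, hμp, smul_zero, add_zero, smul_eq_mul] at h1
        exact h1
  have h1 := hAB b hb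
  rw [hA, zero_smul, zero_add] at h1
  rw [← h1]
  exact Submodule.smul_mem _ _ (Submodule.mem_span_singleton_self _)

/-- the classes of the curves in the exceptional divisors -/
theorem exc_bounds (hp : ∀ i, p i ≠ 0) (hd : Distinct p) {γ : RatCurve p} {a : ℕ}
    (H : IsMinusOneOfSize γ a) (hE : InExceptional γ) : γ.δ ≤ 1 ∧ ∀ i, γ.e i ≤ 1 := by
  obtain ⟨i₀, hx⟩ := hE
  obtain ⟨ha, _, hemb, hN⟩ := H
  have hxc : ∀ b : Fin 2 → ℂ, b ≠ 0 → ∃ c : ℂ, c ≠ 0 ∧ γ.x b = c • p i₀ := by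
    intro b hb
    obtain ⟨c, hc⟩ := Submodule.mem_span_singleton.mp (hx b hb)
    refine ⟨c, ?_, hc.symm⟩
    rintro rfl
    rw [zero_smul] at hc
    exact (γ.isPoint b hb).ne_zero hc.symm
  -- the degree of `f`
  have hδ : γ.δ = 0 := by
    by_contra hδ
    have h0 : p i₀ ∉ (⊥ : Submodule ℂ (Vec n)) := by rw [Submodule.mem_bot]; exact hp i₀
    obtain ⟨ℓ, hℓ, _⟩ := Submodule.exists_le_ker_of_notMem h0
    obtain ⟨b, hb, hbz⟩ := exists_zero (Lp_hom (ℓ := ℓ) γ.f_hom) (by omega)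
    rw [eval_Lp] at hbz
    obtain ⟨c, hc, hxb⟩ := hxc b hb
    change ℓ (γ.x b) = 0 at hbz
    rw [hxb, map_smul, smul_eq_mul] at hbz
    exact mul_ne_zero hc hℓ hbz
  refine ⟨by omega, fun i => ?_⟩
  by_cases hi : i = i₀
  · subst hi
    by_contra hk
    push Not at hk
    obtain ⟨D⟩ := exists_sData hN
    have hT1 : ∀ b : Fin 2 → ℂ, b ≠ 0 → ∀ v ∈ tangentCone p (γ.x b) (γ.dir b),
        v.1 ∈ Submodule.span ℂ {γ.dir b i, p i} := by
      intro b hb v hv
      obtain ⟨c, _, hc⟩ := hxc b hb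
      have := hv i 0 c (by rw [zero_smul, zero_add]; exact hc)
      rwa [zero_smul, sub_zero] at this
    have hσ : ∀ b : Fin 2 → ℂ, b ≠ 0 → ∀ m, (D.σ b m).1 ∈ Submodule.span ℂ {p i} := by
      intro b hb m
      refine mem_of_deg_lt (γ := γ) i (D.h1 m) (by omega) (fun b hb => ?_) hb
      exact hT1 b hb _ ((D.split hb).1 m)
    have hτ : ∀ b : Fin 2 → ℂ, b ≠ 0 → ∀ l, (D.τ b l).1 ∈ Submodule.span ℂ {p i} := by
      intro b hb l
      refine mem_of_deg_lt (γ := γ) i (D.h3 l) (by omega) (fun b hb => ?_) hb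
      exact hT1 b hb _ ((D.split hb).2.1 l)
    have hb : (![1, 0] : Fin 2 → ℂ) ≠ 0 := e0_ne
    set b : Fin 2 → ℂ := ![1, 0] with hbdef
    -- the derivatives of `f` vanish
    have hdx : ∀ k : Fin 2, (γ.deriv k b).1 = 0 := by
      intro k
      funext j
      have h1 := γ.f_hom j
      rw [hδ] at h1
      have h2 := totalDegree_eq_zero_iff_eq_C.mp (Nat.le_zero.mp h1.totalDegree_le)
      change eval b (pderiv k (γ.f j)) = 0
      rw [h2, pderiv_C, map_zero]
    have hpt : IsPoint p (γ.x b) (γ.dir b) := γ.isPoint b hb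
    choose A hA using fun j => point_coeffs hpt j
    choose B hB using hA
    -- a tangent vector
    set v : Vec n × (Fin h → Vec n) := (γ.dir b i, fun j => (A j)⁻¹ • γ.dir b i) with hv
    have hvT : v ∈ tangentCone p (γ.x b) (γ.dir b) := by
      rw [tangent_iff hp hpt.notMem A B hB]
      intro j
      by_cases hAj : A j = 0
      · -- then `j = i`
        have hji : j = i := by
          by_contra hji
          obtain ⟨c, hc, hxb⟩ := hxc b hb
          have h1 := hB j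
          rw [hAj, zero_smul, zero_add] at h1
          apply hd j i hji
          rw [Submodule.mem_span_singleton]
          refine ⟨c⁻¹ * B j, ?_⟩
          rw [mul_smul, ← h1, hxb, smul_smul, inv_mul_cancel₀ hc, one_smul]
        subst hji
        rw [hAj, zero_smul, sub_zero]
        exact left_mem _ _
      · simp only [hv]
        rw [smul_smul, mul_inv_cancel₀ hAj, one_smul, sub_self]
        exact Submodule.zero_mem _
    obtain ⟨c, d, hcd⟩ := (D.split hb).2.2.2 v hvT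
    rw [mem_tangentLine_iff] at hcd
    obtain ⟨k₀, k₁, hk'⟩ := hcd
    have h1 := hk'.1
    obtain ⟨c', _, hc'⟩ := hxc b hb
    rw [hc'] at h1
    have h1' : (v - ∑ m, c m • D.σ b m - ∑ l, d l • D.τ b l - k₀ • γ.deriv 0 b -
        k₁ • γ.deriv 1 b).1 ∈ Submodule.span ℂ {p i} := by
      obtain ⟨y, hy⟩ := Submodule.mem_span_singleton.mp h1
      rw [← hy]
      exact Submodule.smul_mem _ _ (Submodule.smul_mem _ _ (Submodule.mem_span_singleton_self _))
    have e1 : (v - ∑ m, c m • D.σ b m - ∑ l, d l • D.τ b l - k₀ • γ.deriv 0 b -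
        k₁ • γ.deriv 1 b).1 = γ.dir b i - ∑ m, c m • (D.σ b m).1 - ∑ l, d l • (D.τ b l).1 := by
      rw [Prod.fst_sub, Prod.fst_sub, Prod.fst_sub, Prod.fst_sub, Prod.smul_fst, Prod.smul_fst,
        hdx, hdx, smul_zero, smul_zero, sub_zero, sub_zero, Prod.fst_sum, Prod.fst_sum]
      rfl
    rw [e1] at h1'
    apply hpt.notMem i
    have e2 : γ.dir b i = (γ.dir b i - ∑ m, c m • (D.σ b m).1 - ∑ l, d l • (D.τ b l).1) +
        ∑ m, c m • (D.σ b m).1 + ∑ l, d l • (D.τ b l).1 := by abel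
    rw [e2]
    exact Submodule.add_mem _ (Submodule.add_mem _ h1'
      (Submodule.sum_mem _ fun m _ => Submodule.smul_mem _ _ (hσ b hb m)))
      (Submodule.sum_mem _ fun l _ => Submodule.smul_mem _ _ (hτ b hb l))
  · -- the other points
    by_contra hk
    push Not at hk
    obtain ⟨μ, hμ, hker⟩ := Submodule.exists_le_ker_of_notMem (hd i i₀ hi)
    have hμp : μ (p i) = 0 := hker (Submodule.mem_span_singleton_self _)
    obtain ⟨b, hb, hbz⟩ := exists_zero (Lp_hom (ℓ := μ) (γ.w_hom i)) (by omega)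
    rw [eval_Lp] at hbz
    change μ (γ.dir b i) = 0 at hbz
    obtain ⟨A, B, hAB⟩ := point_coeffs (γ.isPoint b hb) i
    change γ.x b = A • γ.dir b i + B • p i at hAB
    obtain ⟨c, hc, hxb⟩ := hxc b hb
    have := congrArg μ hAB
    rw [hxb, map_add, map_smul, map_smul, map_smul, hμp, hbz, smul_zero, smul_zero, add_zero,
      smul_eq_mul] at this
    exact mul_ne_zero hc hμ this

end

section two

variable {n : ℕ} {p : Fin 2 → Vec n} (hp : ∀ i, p i ≠ 0) (hd : Distinct p)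
  {γ : RatCurve p}
  (hx : ∀ b : Fin 2 → ℂ, b ≠ 0 → γ.x b ∈ Submodule.span ℂ (Set.range p))
  (hE : ¬ InExceptional γ)

include hp hd hx hE in
lemma e_zero (i : Fin 2) : γ.e i = 0 := by
  by_contra hk
  obtain ⟨ℓ, hℓp, hℓ⟩ := exists_functional hp hd (Submodule.subset_span ⟨i, rfl⟩) (hp i)
  obtain ⟨b, hb, hbz⟩ := exists_zero (Lp_hom (ℓ := ℓ) (γ.w_hom i)) (by omega)
  rw [eval_Lp] at hbz
  exact (γ.isPoint b hb).notMem i (hℓ _ (dir_mem_span hx hE b i) hbz)

/-- derivatives of vectors of forms with values in a subspace -/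
lemma pderiv_mem {m : ℕ} (S : Submodule ℂ (Vec m)) {g : Fin (m + 1) → MvPolynomial (Fin 2) ℂ}
    (hg : ∀ b : Fin 2 → ℂ, b ≠ 0 → (fun j => eval b (g j)) ∈ S) (k : Fin 2) (b : Fin 2 → ℂ) :
    (fun j => eval b (pderiv k (g j))) ∈ S := by
  by_contra hcon
  obtain ⟨ℓ, hℓ, hker⟩ := Submodule.exists_le_ker_of_notMem hcon
  have h0 : Lp ℓ g = 0 := by
    refine poly_zero _ fun b hb => ?_
    rw [eval_Lp]
    exact hker (hg b hb)
  have h1 : pderiv k (Lp ℓ g) = Lp ℓ (fun j => pderiv k (g j)) := by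
    unfold Lp
    rw [map_sum]
    refine Finset.sum_congr rfl fun j _ => ?_
    rw [Derivation.leibniz, pderiv_C]
    simp [mul_comm]
  rw [h0, map_zero] at h1
  apply hℓ
  have := eval_Lp ℓ (fun j => pderiv k (g j)) b
  rw [← h1, map_zero] at this
  exact this.symm

include hp hd hx hE in
lemma δ_le_one (hemb : γ.IsEmbedding) : γ.δ ≤ 1 := by
  by_contra hδ
  push Not at hδ
  -- coordinates on the span
  obtain ⟨ℓ₀, h00, h01⟩ := exists_functional hp hd (Submodule.subset_span ⟨0, rfl⟩) (hp 0)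
  obtain ⟨ℓ₁, h10, h11⟩ := exists_functional hp hd (Submodule.subset_span ⟨1, rfl⟩) (hp 1)
  set S := Submodule.span ℂ (Set.range p) with hS
  -- a vector of the span is determined by the two values
  have hdet : ∀ v ∈ S, ℓ₀ v = 0 → ℓ₁ v = 0 → v = 0 := by
    intro v hv h0 h1
    obtain ⟨c, hc⟩ := Submodule.mem_span_singleton.mp (h01 v hv h0)
    obtain ⟨d, hd'⟩ := Submodule.mem_span_singleton.mp (h11 v hv h1)
    by_contra hv0
    have hc0 : c ≠ 0 := by rintro rfl; rw [zero_smul] at hc; exact hv0 hc.symm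
    apply hd 1 0 (by decide)
    rw [Submodule.mem_span_singleton]
    refine ⟨c⁻¹ * d, ?_⟩
    rw [mul_smul, hd', ← hc, smul_smul, inv_mul_cancel₀ hc0, one_smul]
  have hprop : ∀ v ∈ S, ∀ w ∈ S, w ≠ 0 → ℓ₀ v * ℓ₁ w = ℓ₁ v * ℓ₀ w → v ∈ Submodule.span ℂ {w} := by
    intro v hv w hw hw0 hvw
    obtain ⟨κ, k0, k1⟩ := scal_prop (a := ℓ₀ w) (b := ℓ₁ w)
      (fun h => hw0 (hdet w hw h.1 h.2)) hvw
    rw [Submodule.mem_span_singleton]
    refine ⟨κ, ?_⟩
    have h1 : v - κ • w = 0 := by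
      apply hdet
      · exact Submodule.sub_mem _ hv (Submodule.smul_mem _ _ hw)
      · rw [map_sub, map_smul, k0, smul_eq_mul, sub_self]
      · rw [map_sub, map_smul, k1, smul_eq_mul, sub_self]
    exact (sub_eq_zero.mp h1).symm
  -- the Jacobian determinant
  set J : MvPolynomial (Fin 2) ℂ :=
    Lp ℓ₀ (fun j => pderiv 0 (γ.f j)) * Lp ℓ₁ (fun j => pderiv 1 (γ.f j)) -
      Lp ℓ₁ (fun j => pderiv 0 (γ.f j)) * Lp ℓ₀ (fun j => pderiv 1 (γ.f j)) with hJ
  have hLh : ∀ (ℓ : Vec n →ₗ[ℂ] ℂ) (k : Fin 2),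
      (Lp ℓ (fun j => pderiv k (γ.f j))).IsHomogeneous (γ.δ - 1) :=
    fun ℓ k => Lp_hom fun j => (γ.f_hom j).pderiv
  have hJh : J.IsHomogeneous ((γ.δ - 1) + (γ.δ - 1)) :=
    ((hLh ℓ₀ 0).mul (hLh ℓ₁ 1)).sub ((hLh ℓ₁ 0).mul (hLh ℓ₀ 1))
  obtain ⟨b, hb, hbz⟩ := exists_zero hJh (by omega)
  rw [hJ, map_sub, map_mul, map_mul, eval_Lp, eval_Lp, eval_Lp, eval_Lp] at hbz
  change ℓ₀ (γ.dx b 0) * ℓ₁ (γ.dx b 1) - ℓ₁ (γ.dx b 0) * ℓ₀ (γ.dx b 1) = 0 at hbz
  have hdx : ∀ k, γ.dx b k ∈ S := fun k => pderiv_mem S hx k b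
  -- Euler's identity
  have heul : b 0 • γ.dx b 0 + b 1 • γ.dx b 1 = (γ.δ : ℂ) • γ.x b := by
    funext j
    have h1 := congrArg (eval b) (γ.f_hom j).sum_X_mul_pderiv
    rw [Fin.sum_univ_two, map_add, map_mul, map_mul, eval_X, eval_X, map_nsmul,
      nsmul_eq_mul] at h1
    exact h1
  have hδ0 : (γ.δ : ℂ) ≠ 0 := by
    have : γ.δ ≠ 0 := by omega
    exact_mod_cast this
  have hxb := hx b hb
  have hx0 := (γ.isPoint b hb).ne_zero
  change γ.x b ≠ 0 at hx0
  have q0 := congrArg ℓ₀ heul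
  have q1 := congrArg ℓ₁ heul
  simp only [map_add, map_smul, smul_eq_mul] at q0 q1
  have hv0 : γ.dx b 0 ∈ Submodule.span ℂ {γ.x b} := by
    refine hprop _ (hdx 0) _ hxb hx0 ?_
    apply mul_left_cancel₀ hδ0
    linear_combination ℓ₁ (γ.dx b 0) * q0 - ℓ₀ (γ.dx b 0) * q1 + b 1 * hbz
  have hv1 : γ.dx b 1 ∈ Submodule.span ℂ {γ.x b} := by
    refine hprop _ (hdx 1) _ hxb hx0 ?_
    apply mul_left_cancel₀ hδ0
    linear_combination ℓ₁ (γ.dx b 1) * q0 - ℓ₀ (γ.dx b 1) * q1 - b 0 * hbz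
  have hdd : ∀ k i, γ.ddir b k i ∈ Submodule.span ℂ {γ.dir b i, p i} := by
    intro k i
    rw [span_dir_eq hp hd hx hE hb i]
    exact pderiv_mem S (fun b _ => dir_mem_span hx hE b i) k b
  obtain ⟨k, hk⟩ := hemb.2 b hb
  apply hk
  fin_cases k
  · exact ⟨hv0, hdd 0⟩
  · exact ⟨hv1, hdd 1⟩

end two

theorem bounds {n h : ℕ} {p : Fin h → Vec n} (hh : h ≤ 2) (hp : ∀ i, p i ≠ 0) (hd : Distinct p)
    {γ : RatCurve p} {a : ℕ} (H : IsMinusOneOfSize γ a) : γ.δ ≤ 1 ∧ ∀ i, γ.e i ≤ 1 := by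
  by_cases hE : InExceptional γ
  · exact exc_bounds hp hd H hE
  · have hx := fun (b : Fin 2 → ℂ) (hb : b ≠ 0) => x_mem_span hp hd H hb
    have h3 : h = 0 ∨ h = 1 ∨ h = 2 := by omega
    rcases h3 with rfl | rfl | rfl
    · exfalso
      have h1 := hx ![1, 0] e0_ne
      rw [Set.range_eq_empty, Submodule.span_empty, Submodule.mem_bot] at h1
      exact (γ.isPoint _ e0_ne).ne_zero h1
    · exfalso
      apply hE
      refine ⟨0, fun b hb => ?_⟩
      have h1 : Set.range p = {p 0} := by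
        ext v
        constructor
        · rintro ⟨i, rfl⟩
          rw [Subsingleton.elim i 0]
          rfl
        · rintro rfl
          exact ⟨0, rfl⟩
      have h2 := hx b hb
      rwa [h1] at h2
    · exact ⟨δ_le_one hp hd hx hE H.2.2.1, fun i => by rw [e_zero hp hd hx hE i]; omega⟩

theorem finite_classes {n h : ℕ} {p : Fin h → Vec n} (hh : h ≤ 2) (hp : ∀ i, p i ≠ 0)
    (hd : Distinct p) : (minusOneClasses p).Finite := by
  refine (Set.finite_range (fun q : Fin 2 × (Fin h → Fin 2) =>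
    ((((q.1 : ℕ) : ℤ), fun i => ((q.1 : ℕ) : ℤ) - ((q.2 i : ℕ) : ℤ)) : ℤ × (Fin h → ℤ)))).subset ?_
  rintro c ⟨γ, a, H, rfl⟩
  obtain ⟨h1, h2⟩ := bounds hh hp hd H
  exact ⟨(⟨γ.δ, by omega⟩, fun i => ⟨γ.e i, by have := h2 i; omega⟩), rfl⟩

end Pool.Agent.H403R4
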