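import Pool.Agent.H403R4.Tangent

/-!
# Lines in the exceptional divisors
-/

open MvPolynomial

namespace Pool.Agent.H403R4

open Pool.Agent.H403R3

variable {n h : ℕ} {p : Fin h → Vec n}

/-- `u, v, q` are linearly independent -/
def Indep3 {V : Type*} [AddCommGroup V] [Module ℂ V] (u v q : V) : Prop :=
  ∀ x y z : ℂ, x • u + y • v + z • q = 0 → x = 0 ∧ y = 0 ∧ z = 0

/-- the lines through the points `p i` -/
noncomputable def wE (p : Fin h → Vec n) (i₀ : Fin h) (u v : Vec n) (i : Fin h) (j : Fin (n + 1)) :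
    MvPolynomial (Fin 2) ℂ :=
  if i = i₀ then X 0 * C (u j) + X 1 * C (v j) else C (p i₀ j)

lemma eval_wE (i₀ : Fin h) (u v : Vec n) (i : Fin h) (b : Fin 2 → ℂ) :
    (fun j => eval b (wE p i₀ u v i j)) = if i = i₀ then b 0 • u + b 1 • v else p i₀ := by
  funext j
  unfold wE
  split_ifs
  · simp
  · simp

lemma span3 {V : Type*} [AddCommGroup V] [Module ℂ V] {u v q : V} (hI : Indep3 u v q)
    {s t s' t' : ℂ} (h : s' • u + t' • v ∈ Submodule.span ℂ {s • u + t • v, q}) :
    ∃ c : ℂ, s' = c * s ∧ t' = c * t := by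
  obtain ⟨c, d, hcd⟩ := Submodule.mem_span_pair.mp h
  obtain ⟨e1, e2, _⟩ := hI (c * s - s') (c * t - t') d (by
    have : (c * s - s') • u + (c * t - t') • v + d • q =
      (c • (s • u + t • v) + d • q) - (s' • u + t' • v) := by module
    rw [this, hcd, sub_self])
  exact ⟨c, by linear_combination -e1, by linear_combination -e2⟩

lemma notMem_span3 {V : Type*} [AddCommGroup V] [Module ℂ V] {u v q : V} (hI : Indep3 u v q)
    {s t : ℂ} (hst : ¬ (s = 0 ∧ t = 0)) : s • u + t • v ∉ Submodule.span ℂ {q} := by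
  intro h
  obtain ⟨c, hc⟩ := Submodule.mem_span_singleton.mp h
  obtain ⟨e1, e2, _⟩ := hI s t (-c) (by rw [neg_smul, hc]; module)
  exact hst ⟨e1, e2⟩

section

variable (hp : ∀ i, p i ≠ 0) (hd : Distinct p) (i₀ : Fin h) {u v : Vec n}
  (hI : Indep3 u v (p i₀))

include hp hd hI in
lemma isPointE {b : Fin 2 → ℂ} (hb : b ≠ 0) :
    IsPoint p (p i₀) (fun i => if i = i₀ then b 0 • u + b 1 • v else p i₀) where
  ne_zero := hp i₀
  notMem := by
    intro i
    by_cases hi : i = i₀
    · subst hi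
      rw [if_pos rfl]
      exact notMem_span3 hI (pt_ne hb)
    · rw [if_neg hi]
      exact hd i i₀ hi
  mem := by
    intro i
    by_cases hi : i = i₀
    · subst hi
      exact right_mem _ _
    · rw [if_neg hi]
      exact left_mem _ _

/-- a line in the exceptional divisor -/
noncomputable def lineE (hp : ∀ i, p i ≠ 0) (hd : Distinct p) (i₀ : Fin h) {u v : Vec n}
    (hI : Indep3 u v (p i₀)) : RatCurve p where
  δ := 0
  e := fun i => if i = i₀ then 1 else 0
  f := fun j => C (p i₀ j)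
  w := wE p i₀ u v
  f_hom := fun j => isHomogeneous_C _ _
  w_hom := by
    intro i j
    unfold wE
    split_ifs
    · have h1 := (isHomogeneous_X ℂ (0 : Fin 2)).mul (isHomogeneous_C (Fin 2) (u j))
      have h2 := (isHomogeneous_X ℂ (1 : Fin 2)).mul (isHomogeneous_C (Fin 2) (v j))
      simp only [add_zero] at h1 h2
      exact h1.add h2
    · exact isHomogeneous_C _ _
  isPoint := by
    intro b hb
    have h1 : (fun (i : Fin h) j => eval b (wE p i₀ u v i j)) =
        fun i => if i = i₀ then b 0 • u + b 1 • v else p i₀ :=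
      funext fun i => eval_wE i₀ u v i b
    rw [h1]
    simp only [eval_C]
    exact isPointE hp hd i₀ hI hb

lemma lineE_x (b : Fin 2 → ℂ) : (lineE hp hd i₀ hI).x b = p i₀ := by
  funext j
  simp [RatCurve.x, lineE]

lemma lineE_dir (b : Fin 2 → ℂ) : (lineE hp hd i₀ hI).dir b =
    fun i => if i = i₀ then b 0 • u + b 1 • v else p i₀ :=
  funext fun i => eval_wE i₀ u v i b

lemma lineE_dx (b : Fin 2 → ℂ) (k : Fin 2) : (lineE hp hd i₀ hI).dx b k = 0 := by
  funext j
  simp [RatCurve.dx, lineE]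

lemma lineE_ddir (b : Fin 2 → ℂ) (k : Fin 2) :
    (lineE hp hd i₀ hI).ddir b k i₀ = if k = 0 then u else v := by
  funext j
  simp only [RatCurve.ddir, lineE, wE, if_true]
  fin_cases k
  · simp [pderiv_X_of_ne (show (1 : Fin 2) ≠ 0 by decide), Derivation.leibniz]
  · simp [pderiv_X_of_ne (show (0 : Fin 2) ≠ 1 by decide), Derivation.leibniz]

lemma lineE_isEmbedding : (lineE hp hd i₀ hI).IsEmbedding := by
  refine ⟨fun a b ha hb hs => ?_, fun a ha => ?_⟩
  · have h0 := hs.2 i₀
    rw [lineE_dir, lineE_dir] at h0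
    simp only [if_true] at h0
    obtain ⟨c, h1, h2⟩ := span3 hI h0
    refine ⟨c, ?_⟩
    funext i
    fin_cases i
    · exact h1
    · exact h2
  · by_contra hcon
    push Not at hcon
    have h0 := (hcon 0).2 i₀
    have h1 := (hcon 1).2 i₀
    rw [lineE_ddir, lineE_dir] at h0 h1
    simp only [if_true] at h0 h1
    rw [if_neg (by decide)] at h1
    have h0' : (1 : ℂ) • u + (0 : ℂ) • v ∈
        Submodule.span ℂ {a 0 • u + a 1 • v, p i₀} := by
      rw [zero_smul, one_smul, add_zero]; exact h0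
    have h1' : (0 : ℂ) • u + (1 : ℂ) • v ∈
        Submodule.span ℂ {a 0 • u + a 1 • v, p i₀} := by
      rw [zero_smul, one_smul, zero_add]; exact h1
    obtain ⟨c, e1, e2⟩ := span3 hI h0'
    obtain ⟨d, e3, e4⟩ := span3 hI h1'
    have hc : c ≠ 0 := by rintro rfl; rw [zero_mul] at e1; exact one_ne_zero e1
    have ha1 : a 1 = 0 := (mul_eq_zero.mp e2.symm).resolve_left hc
    rw [ha1, mul_zero] at e4
    exact one_ne_zero e4

end

/-- It suffices to give the sections of the second kind as a family over a finite type. -/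
lemma hasNormalSize_of (γ : RatCurve p) {a : ℕ} {ι : Type} [Fintype ι]
    (ξ : Fin a → Fin (n + 1) → MvPolynomial (Fin 2) ℂ)
    (η : Fin a → Fin h → Fin (n + 1) → MvPolynomial (Fin 2) ℂ)
    (ξ' : ι → Fin (n + 1) → MvPolynomial (Fin 2) ℂ)
    (η' : ι → Fin h → Fin (n + 1) → MvPolynomial (Fin 2) ℂ)
    (h1 : ∀ m j, (ξ m j).IsHomogeneous (γ.δ + 1))
    (h2 : ∀ m i j, (η m i j).IsHomogeneous (γ.e i + 1))
    (h3 : ∀ l j, (ξ' l j).IsHomogeneous γ.δ)
    (h4 : ∀ l i j, (η' l i j).IsHomogeneous (γ.e i))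
    (h5 : ∀ b : Fin 2 → ℂ, b ≠ 0 →
      (∀ m, (((fun j => eval b (ξ m j)), fun i j => eval b (η m i j)) :
        Vec n × (Fin h → Vec n)) ∈ tangentCone p (γ.x b) (γ.dir b)) ∧
      (∀ l, (((fun j => eval b (ξ' l j)), fun i j => eval b (η' l i j)) :
        Vec n × (Fin h → Vec n)) ∈ tangentCone p (γ.x b) (γ.dir b)) ∧
      (∀ (c : Fin a → ℂ) (d : ι → ℂ),
        ∑ m, c m • (((fun j => eval b (ξ m j)), fun i j => eval b (η m i j)) :
          Vec n × (Fin h → Vec n)) +
          ∑ l, d l • (((fun j => eval b (ξ' l j)), fun i j => eval b (η' l i j)) :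
          Vec n × (Fin h → Vec n)) ∈ γ.tangentLine b → c = 0) ∧
      ∀ v ∈ tangentCone p (γ.x b) (γ.dir b), ∃ (c : Fin a → ℂ) (d : ι → ℂ),
        v - ∑ m, c m • (((fun j => eval b (ξ m j)), fun i j => eval b (η m i j)) :
          Vec n × (Fin h → Vec n)) -
          ∑ l, d l • (((fun j => eval b (ξ' l j)), fun i j => eval b (η' l i j)) :
          Vec n × (Fin h → Vec n)) ∈ γ.tangentLine b) :
    HasNormalSize γ a := by
  let e : Fin (Fintype.card ι) ≃ ι := (Fintype.equivFin ι).symm
  refine ⟨Fintype.card ι, ξ, η, fun l => ξ' (e l), fun l => η' (e l), h1, h2,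
    fun l => h3 (e l), fun l => h4 (e l), fun b hb => ?_⟩
  rw [isSplitting_iff]
  obtain ⟨g1, g2, g3, g4⟩ := h5 b hb
  refine ⟨g1, fun l => g2 (e l), ?_, ?_⟩
  · intro c d hcd
    refine g3 c (fun i => d (e.symm i)) ?_
    convert hcd using 2
    rw [← Equiv.sum_comp e]
    simp only [Equiv.symm_apply_apply]
  · intro v hv
    obtain ⟨c, d, hcd⟩ := g4 v hv
    refine ⟨c, fun l => d (e l), ?_⟩
    convert hcd using 2
    exact Equiv.sum_comp e (fun l => d l • (((fun j => eval b (ξ' l j)),
      fun i j => eval b (η' l i j)) : Vec n × (Fin h → Vec n)))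

section

variable (hp : ∀ i, p i ≠ 0) (hd : Distinct p) (i₀ : Fin h) {u v : Vec n}
  (hI : Indep3 u v (p i₀))

lemma lineE_T {b : Fin 2 → ℂ} (hb : b ≠ 0) (z : Vec n × (Fin h → Vec n)) :
    z ∈ tangentCone p ((lineE hp hd i₀ hI).x b) ((lineE hp hd i₀ hI).dir b) ↔
      z.1 ∈ Submodule.span ℂ {b 0 • u + b 1 • v, p i₀} ∧
        ∀ i, i ≠ i₀ → z.1 - z.2 i ∈ Submodule.span ℂ {p i₀, p i} := by
  have hpt := isPointE hp hd i₀ hI hb
  rw [lineE_x, lineE_dir, tangent_iff hp hpt.notMem (fun i => if i = i₀ then 0 else 1)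
    (fun i => if i = i₀ then 1 else 0)]
  · constructor
    · intro H
      refine ⟨?_, fun i hi => ?_⟩
      · have := H i₀
        simpa using this
      · have := H i
        simpa [hi] using this
    · rintro ⟨H1, H2⟩ i
      by_cases hi : i = i₀
      · subst hi
        simpa using H1
      · have := H2 i hi
        simpa [hi] using this
  · intro i
    by_cases hi : i = i₀
    · subst hi
      simp
    · simp [hi]

lemma lineE_size : HasNormalSize (lineE hp hd i₀ hI) 1 := by
  refine hasNormalSize_of (ι := Fin (n + 1) × Fin 2) (lineE hp hd i₀ hI)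
    (fun _ j => X 0 * C (u j) + X 1 * C (v j))
    (fun _ i j => if i = i₀ then 0 else X 0 * C (u j) + X 1 * C (v j))
    (fun _ _ => 0)
    (fun l i j => if i = i₀ then (if j = l.1 then X l.2 else 0) else 0) ?_ ?_ ?_ ?_ ?_
  · intro m j
    have h1 := (isHomogeneous_X ℂ (0 : Fin 2)).mul (isHomogeneous_C (Fin 2) (u j))
    have h2 := (isHomogeneous_X ℂ (1 : Fin 2)).mul (isHomogeneous_C (Fin 2) (v j))
    simp only [add_zero] at h1 h2
    exact h1.add h2
  · intro m i j
    change (if i = i₀ then 0 else X 0 * C (u j) + X 1 * C (v j) :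
      MvPolynomial (Fin 2) ℂ).IsHomogeneous ((if i = i₀ then 1 else 0) + 1)
    split_ifs
    · exact isHomogeneous_zero _ _ _
    · have h1 := (isHomogeneous_X ℂ (0 : Fin 2)).mul (isHomogeneous_C (Fin 2) (u j))
      have h2 := (isHomogeneous_X ℂ (1 : Fin 2)).mul (isHomogeneous_C (Fin 2) (v j))
      simp only [add_zero] at h1 h2
      exact h1.add h2
  · intro l j
    exact isHomogeneous_zero _ _ _
  · intro l i j
    change (if i = i₀ then (if j = l.1 then X l.2 else 0) else 0 :
      MvPolynomial (Fin 2) ℂ).IsHomogeneous (if i = i₀ then 1 else 0)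
    split_ifs
    · exact isHomogeneous_X ℂ _
    · exact isHomogeneous_zero _ _ _
    · exact isHomogeneous_zero _ _ _
  · intro b hb
    set σ : Vec n × (Fin h → Vec n) :=
      (b 0 • u + b 1 • v, fun i => if i = i₀ then 0 else b 0 • u + b 1 • v) with hσ
    set τ : Fin (n + 1) × Fin 2 → Vec n × (Fin h → Vec n) :=
      fun l => (0, fun i => if i = i₀ then Pi.single l.1 (b l.2) else 0) with hτ
    have eσ : (((fun j => eval b (X 0 * C (u j) + X 1 * C (v j))),
        fun (i : Fin h) j => eval b (if i = i₀ then 0 else X 0 * C (u j) + X 1 * C (v j))) :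
          Vec n × (Fin h → Vec n)) = σ := by
      refine Prod.ext ?_ ?_
      · funext j
        simp [hσ]
      · funext i j
        simp only [hσ]
        split_ifs <;> simp
    have eτ : ∀ l : Fin (n + 1) × Fin 2, (((fun j => eval b (0 : MvPolynomial (Fin 2) ℂ)),
        fun (i : Fin h) (j : Fin (n + 1)) =>
          eval b (if i = i₀ then (if j = l.1 then X l.2 else 0) else 0)) :
          Vec n × (Fin h → Vec n)) = τ l := by
      intro l
      refine Prod.ext ?_ ?_
      · funext j
        simp [hτ]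
      · funext i j
        simp only [hτ]
        split_ifs with h1 h2
        · simp [h2]
        · simp [h2]
        · simp
    refine ⟨fun m => ?_, fun l => ?_, fun c d hcd => ?_, fun z hz => ?_⟩
    · rw [eσ, lineE_T hp hd i₀ hI hb]
      refine ⟨left_mem _ _, fun i hi => ?_⟩
      simp only [hσ]
      rw [if_neg hi, sub_self]
      exact Submodule.zero_mem _
    · rw [eτ l, lineE_T hp hd i₀ hI hb]
      refine ⟨Submodule.zero_mem _, fun i hi => ?_⟩
      simp only [hτ]
      rw [if_neg hi, sub_self]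
      exact Submodule.zero_mem _
    · simp only [eσ, eτ] at hcd
      rw [mem_tangentLine_iff] at hcd
      obtain ⟨k₀, k₁, hk⟩ := hcd
      have h1 := hk.1
      rw [lineE_x] at h1
      have h2 : (∑ m : Fin 1, c m • σ + ∑ l, d l • τ l - k₀ • (lineE hp hd i₀ hI).deriv 0 b -
          k₁ • (lineE hp hd i₀ hI).deriv 1 b).1 = c 0 • (b 0 • u + b 1 • v) := by
        have d0 : ((lineE hp hd i₀ hI).deriv 0 b).1 = 0 := lineE_dx hp hd i₀ hI b 0
        have d1 : ((lineE hp hd i₀ hI).deriv 1 b).1 = 0 := lineE_dx hp hd i₀ hI b 1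
        rw [Prod.fst_sub, Prod.fst_sub, Prod.fst_add, Prod.fst_sum, Prod.fst_sum,
          Prod.smul_fst, Prod.smul_fst, d0, d1, smul_zero, smul_zero, sub_zero, sub_zero]
        simp [hσ, hτ]
      rw [h2] at h1
      funext m
      rw [Subsingleton.elim m 0, Pi.zero_apply]
      by_contra hc
      exact notMem_span3 hI (pt_ne hb) ((Submodule.smul_mem_iff _ hc).mp h1)
    · rw [lineE_T hp hd i₀ hI hb] at hz
      obtain ⟨hz1, hz2⟩ := hz
      obtain ⟨α, β, hαβ⟩ := Submodule.mem_span_pair.mp hz1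
      obtain ⟨x, x', hx⟩ : ∃ x x' : ℂ, x * b 0 + x' * b 1 = 1 := by
        by_cases hs : b 0 = 0
        · have ht : b 1 ≠ 0 := fun ht => pt_ne hb ⟨hs, ht⟩
          exact ⟨0, 1 / b 1, by field_simp; ring⟩
        · exact ⟨1 / b 0, 0, by field_simp; ring⟩
      obtain ⟨d, hd⟩ : ∃ d : Fin (n + 1) × Fin 2 → ℂ, ∀ j, d (j, 0) = z.2 i₀ j * x ∧
          d (j, 1) = z.2 i₀ j * x' :=
        ⟨fun l => z.2 i₀ l.1 * (if l.2 = 0 then x else x'), fun j => ⟨by simp, by simp⟩⟩
      refine ⟨fun _ => α, d, ?_⟩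
      simp only [eσ, eτ]
      refine vertical_le_tangentLine _ b ?_
      have hfst : (z - ∑ m : Fin 1, α • σ - ∑ l : Fin (n + 1) × Fin 2,
          d l • τ l).1 = β • p i₀ := by
        rw [Prod.fst_sub, Prod.fst_sub, Prod.fst_sum, Prod.fst_sum]
        simp only [hσ, hτ, Prod.smul_mk, smul_zero, Finset.sum_const_zero, sub_zero,
          Finset.univ_unique, Finset.sum_singleton, ← hαβ]
        module
      have hsnd : ∀ i, i ≠ i₀ → (z - ∑ m : Fin 1, α • σ - ∑ l : Fin (n + 1) × Fin 2,
          d l • τ l).2 i =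
            z.2 i - α • (b 0 • u + b 1 • v) := by
        intro i hi
        rw [Prod.snd_sub, Prod.snd_sub, Prod.snd_sum, Prod.snd_sum, Pi.sub_apply, Pi.sub_apply,
          Finset.sum_apply, Finset.sum_apply]
        simp [hσ, hτ, hi]
      have hsnd0 : (z - ∑ m : Fin 1, α • σ - ∑ l : Fin (n + 1) × Fin 2,
          d l • τ l).2 i₀ = 0 := by
        rw [Prod.snd_sub, Prod.snd_sub, Prod.snd_sum, Prod.snd_sum, Pi.sub_apply, Pi.sub_apply,
          Finset.sum_apply, Finset.sum_apply]
        funext j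
        simp only [hσ, hτ, Prod.smul_mk, Pi.smul_apply, if_true, smul_zero,
          Finset.sum_const_zero, sub_zero, Pi.sub_apply, Finset.sum_apply, smul_eq_mul,
          Fintype.sum_prod_type, Fin.sum_univ_two, Pi.zero_apply]
        rw [Finset.sum_eq_single j]
        · simp only [Pi.add_apply, Pi.smul_apply, Pi.single_eq_same, (hd j).1, (hd j).2,
            smul_eq_mul]
          linear_combination -(z.2 i₀ j) * hx
        · intro j' _ hj'
          simp [Pi.single_eq_of_ne hj'.symm]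
        · intro hj; exact absurd (Finset.mem_univ j) hj
      refine ⟨?_, fun i => ?_⟩
      · rw [hfst, lineE_x]
        exact Submodule.smul_mem _ _ (Submodule.mem_span_singleton_self _)
      · by_cases hi : i = i₀
        · subst hi
          rw [hsnd0]
          exact Submodule.zero_mem _
        · rw [hsnd i hi, lineE_dir]
          simp only [if_neg hi]
          have h3 := hz2 i hi
          have h4 : z.2 i - α • (b 0 • u + b 1 • v) = β • p i₀ - (z.1 - z.2 i) := by
            rw [← hαβ]; module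
          rw [h4]
          exact Submodule.sub_mem _ (Submodule.smul_mem _ _ (left_mem _ _)) h3

end

/-- three further directions -/
lemma exists_dirs (hn : 3 ≤ n) {q : Vec n} (hq : q ≠ 0) : ∃ u e e' : Vec n,
    ∀ x y z w : ℂ, x • u + y • e + z • e' + w • q = 0 → x = 0 ∧ y = 0 ∧ z = 0 ∧ w = 0 := by
  have h1 : LinearIndependent ℂ ![q] := by
    rw [Fintype.linearIndependent_iff]
    intro g hg i
    rw [Subsingleton.elim i 0]
    simpa [hq] using hg
  have hf : Module.finrank ℂ (Vec n) = n + 1 := by simp [Vec]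
  obtain ⟨e', h2⟩ := exists_linearIndependent_cons_of_lt_finrank h1 (by omega)
  obtain ⟨e, h3⟩ := exists_linearIndependent_cons_of_lt_finrank h2 (by omega)
  obtain ⟨u, h4⟩ := exists_linearIndependent_cons_of_lt_finrank h3 (by omega)
  refine ⟨u, e, e', fun x y z w h => ?_⟩
  have := Fintype.linearIndependent_iff.mp h4 ![x, y, z, w] (by
    rw [Fin.sum_univ_four]
    exact h)
  exact ⟨this 0, this 1, this 2, this 3⟩

theorem infinite_all (hn : 3 ≤ n) (hp : ∀ i, p i ≠ 0) (hd : Distinct p) (i₀ : Fin h) :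
    (minusOneCurves p).Infinite := by
  obtain ⟨u, e, e', hI⟩ := exists_dirs hn (hp i₀)
  have hI' : ∀ c : ℕ, Indep3 u (e + (c : ℂ) • e') (p i₀) := by
    intro c x y z hxyz
    obtain ⟨h1, h2, _, h4⟩ := hI x y (y * c) z (by rw [← hxyz]; module)
    exact ⟨h1, h2, h4⟩
  refine Set.infinite_of_injective_forall_mem
    (f := fun c : ℕ => points (lineE hp hd i₀ (hI' c))) ?_ fun c => ?_
  · intro c c' hcc
    have hb0 : (![0, 1] : Fin 2 → ℂ) ≠ 0 := by
      intro h
      have := congrFun h 1
      simp at this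
    have h1 : ((((lineE hp hd i₀ (hI' c))).x ![0, 1], (lineE hp hd i₀ (hI' c)).dir ![0, 1]) :
        Vec n × (Fin h → Vec n)) ∈ points (lineE hp hd i₀ (hI' c)) :=
      ⟨(lineE hp hd i₀ (hI' c)).isPoint _ hb0, ![0, 1], hb0,
        Submodule.mem_span_singleton_self _, fun i => left_mem _ _⟩
    have hcc' : points (lineE hp hd i₀ (hI' c)) = points (lineE hp hd i₀ (hI' c')) := hcc
    rw [hcc'] at h1
    obtain ⟨_, b, _, _, h3⟩ := h1
    have h30 := h3 i₀
    simp only at h30
    rw [lineE_dir, lineE_dir] at h30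
    simp only [if_true, Matrix.cons_val_zero, Matrix.cons_val_one] at h30
    obtain ⟨α, β, hαβ⟩ := Submodule.mem_span_pair.mp h30
    obtain ⟨_, g2, g3, _⟩ := hI (α * b 0) (α * b 1 - 1) (α * b 1 * c' - c) β (by
      have : (α * b 0) • u + (α * b 1 - 1) • e + (α * b 1 * c' - c) • e' + β • p i₀ =
        (α • (b 0 • u + b 1 • (e + (c' : ℂ) • e')) + β • p i₀) -
          ((0 : ℂ) • u + (1 : ℂ) • (e + (c : ℂ) • e')) := by module
      rw [this, hαβ, sub_self])
    have : (c : ℂ) = c' := by linear_combination (c' : ℂ) * g2 - g3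
    exact_mod_cast this
  · exact ⟨lineE hp hd i₀ (hI' c), 1, ⟨le_refl 1, by omega, lineE_isEmbedding hp hd i₀ (hI' c),
      lineE_size hp hd i₀ (hI' c)⟩, rfl⟩

end Pool.Agent.H403R4
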