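import Pool.Agent.H403R4.Plane

/-!
# General position
-/

open MvPolynomial

namespace Pool.Agent.H403R4

open Pool.Agent.H403R3

variable {N h H : ℕ}

/-! ### Distinct points -/

/-- the condition that the points are distinct -/
noncomputable def F1 (N h : ℕ) : MvPolynomial (Fin h × Fin (N + 3 + 1)) ℂ :=
  (∏ i : Fin h, X (i, 0)) *
    ∏ q : Fin h × Fin h, if q.1 = q.2 then 1 else X (q.1, 0) * X (q.2, 1) - X (q.1, 1) * X (q.2, 0)

lemma F1_ne : F1 N h ≠ 0 := by
  unfold F1
  refine mul_ne_zero (Finset.prod_ne_zero_iff.mpr fun i _ => X_ne_zero _)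
    (Finset.prod_ne_zero_iff.mpr fun q _ => ?_)
  split_ifs with hq
  · exact one_ne_zero
  · intro h0
    have := congrArg (eval (fun s : Fin h × Fin (N + 3 + 1) =>
      if s = (q.1, 0) ∨ s = (q.2, 1) then (1 : ℂ) else 0)) h0
    simp [hq, Ne.symm hq, Prod.ext_iff] at this

lemma of_F1 {p : Fin h → Vec (N + 3)}
    (hF : eval (fun q : Fin h × Fin (N + 3 + 1) => p q.1 q.2) (F1 N h) ≠ 0) :
    (∀ i, p i ≠ 0) ∧ Distinct p := by
  unfold F1 at hF
  rw [map_mul, map_prod, map_prod] at hF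
  have h1 := left_ne_zero_of_mul hF
  have h2 := right_ne_zero_of_mul hF
  rw [Finset.prod_ne_zero_iff] at h1 h2
  refine ⟨fun i hi => ?_, fun i j hij hmem => ?_⟩
  · have := h1 i (Finset.mem_univ i)
    rw [eval_X] at this
    apply this
    rw [hi]
    rfl
  · have := h2 (i, j) (Finset.mem_univ _)
    rw [if_neg hij] at this
    simp only [map_sub, map_mul, eval_X] at this
    apply this
    obtain ⟨c, hc⟩ := Submodule.mem_span_singleton.mp hmem
    rw [← hc]
    simp only [Pi.smul_apply, smul_eq_mul]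
    ring

/-! ### The first three points -/

/-- the matrix with the columns `p 0, p 1, p 2` and further unit vectors -/
def MM {R : Type*} [CommRing R] (p : Fin (H + 3) → Fin (N + 3 + 1) → R) :
    Matrix (Fin (N + 3 + 1)) (Fin (N + 3 + 1)) R :=
  Matrix.of fun i j => if j = 0 then p 0 i else if j = 1 then p 1 i else if j = 2 then p 2 i
    else if i = j then 1 else 0

lemma map_MM {R S : Type*} [CommRing R] [CommRing S] (φ : R →+* S)
    (p : Fin (H + 3) → Fin (N + 3 + 1) → R) :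
    φ.mapMatrix (MM p) = MM (fun i j => φ (p i j)) := by
  ext i j
  simp only [MM, RingHom.mapMatrix_apply, Matrix.map_apply, Matrix.of_apply]
  split_ifs <;> simp

lemma MM_single (p : Fin (H + 3) → Vec (N + 3)) :
    (MM p).mulVec (Pi.single 0 1) = p 0 ∧ (MM p).mulVec (Pi.single 1 1) = p 1 ∧
      (MM p).mulVec (Pi.single 2 1) = p 2 := by
  refine ⟨?_, ?_, ?_⟩
  · funext i
    simp [MM]
  · funext i
    simp [MM, j01.symm]
  · funext i
    simp [MM, j02.symm, j12.symm]

/-- the coordinate of the other points -/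
def cc {R : Type*} [CommRing R] (p : Fin (H + 3) → Fin (N + 3 + 1) → R) (i : Fin (H + 3)) : R :=
  (MM p).adjugate.mulVec (p i) (jj 0)

lemma map_cc {R S : Type*} [CommRing R] [CommRing S] (φ : R →+* S)
    (p : Fin (H + 3) → Fin (N + 3 + 1) → R) (i : Fin (H + 3)) :
    φ (cc p i) = cc (fun i j => φ (p i j)) i := by
  unfold cc
  rw [← map_MM, ← RingHom.map_adjugate]
  simp only [Matrix.mulVec, dotProduct, map_sum, map_mul, RingHom.mapMatrix_apply,
    Matrix.map_apply]

noncomputable def F2 (N H : ℕ) : MvPolynomial (Fin (H + 3) × Fin (N + 3 + 1)) ℂ :=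
  (MM (fun i j => (X (i, j) : MvPolynomial (Fin (H + 3) × Fin (N + 3 + 1)) ℂ))).det *
    ∏ i : Fin (H + 3), if i = 0 ∨ i = 1 ∨ i = 2 then 1 else
      cc (fun i j => (X (i, j) : MvPolynomial (Fin (H + 3) × Fin (N + 3 + 1)) ℂ)) i

lemma eval_F2 (p : Fin (H + 3) → Vec (N + 3)) :
    eval (fun q : Fin (H + 3) × Fin (N + 3 + 1) => p q.1 q.2) (F2 N H) =
      (MM p).det * ∏ i : Fin (H + 3), if i = 0 ∨ i = 1 ∨ i = 2 then 1 else cc p i := by
  unfold F2
  rw [map_mul, RingHom.map_det, map_MM, map_prod]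
  simp only [eval_X]
  congr 1
  refine Finset.prod_congr rfl fun i _ => ?_
  split_ifs
  · exact map_one _
  · rw [map_cc]
    simp only [eval_X]

/-- the special points -/
def spec (i : Fin (H + 3)) : Vec (N + 3) :=
  if i = 0 then Pi.single 0 1 else if i = 1 then Pi.single 1 1 else if i = 2 then Pi.single 2 1
    else Pi.single (jj 0) 1

lemma MM_spec : MM (spec : Fin (H + 3) → Vec (N + 3)) = 1 := by
  have e0 : (spec (0 : Fin (H + 3)) : Vec (N + 3)) = Pi.single 0 1 := by
    unfold spec; rw [if_pos rfl]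
  have e1 : (spec (1 : Fin (H + 3)) : Vec (N + 3)) = Pi.single 1 1 := by
    unfold spec; rw [if_neg i01.symm, if_pos rfl]
  have e2 : (spec (2 : Fin (H + 3)) : Vec (N + 3)) = Pi.single 2 1 := by
    unfold spec; rw [if_neg i02.symm, if_neg i12.symm, if_pos rfl]
  ext i j
  simp only [MM, Matrix.of_apply, e0, e1, e2, Matrix.one_apply]
  split_ifs with h0 h1 h2 h3 h4 h5 <;> simp_all [Pi.single_apply]

lemma F2_ne : F2 N H ≠ 0 := by
  intro h0
  have h1 := eval_F2 (spec : Fin (H + 3) → Vec (N + 3))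
  rw [h0, map_zero, MM_spec, Matrix.det_one, one_mul] at h1
  have h2 : ∀ i : Fin (H + 3), (if i = 0 ∨ i = 1 ∨ i = 2 then (1 : ℂ) else
      cc (spec : Fin (H + 3) → Vec (N + 3)) i) = 1 := by
    intro i
    split_ifs with hi
    · rfl
    · unfold cc
      rw [MM_spec, Matrix.adjugate_one, Matrix.one_mulVec]
      push Not at hi
      unfold spec
      rw [if_neg hi.1, if_neg hi.2.1, if_neg hi.2.2, Pi.single_eq_same]
  simp only [h2, Finset.prod_const_one] at h1
  exact zero_ne_one h1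

lemma of_F2 {p : Fin (H + 3) → Vec (N + 3)}
    (hF : eval (fun q : Fin (H + 3) × Fin (N + 3 + 1) => p q.1 q.2) (F2 N H) ≠ 0) :
    ∃ ρ : Vec (N + 3) ≃ₗ[ℂ] Vec (N + 3), Good p ρ := by
  rw [eval_F2] at hF
  have hdet := left_ne_zero_of_mul hF
  have hcc := right_ne_zero_of_mul hF
  rw [Finset.prod_ne_zero_iff] at hcc
  have hu : IsUnit (MM p).det := isUnit_iff_ne_zero.mpr hdet
  have h1 : MM p * (MM p)⁻¹ = 1 := Matrix.mul_nonsing_inv _ hu
  have h2 : (MM p)⁻¹ * MM p = 1 := Matrix.nonsing_inv_mul _ hu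
  have e : ∀ v w, (MM p).mulVec v = w → (MM p)⁻¹.mulVec w = v := by
    intro v w hvw
    rw [← hvw, Matrix.mulVec_mulVec, h2, Matrix.one_mulVec]
  obtain ⟨s0, s1, s2⟩ := MM_single p
  refine ⟨Matrix.toLin'OfInv h1 h2, ?_, ?_, ?_, ?_⟩
  · exact e _ _ s0
  · exact e _ _ s1
  · exact e _ _ s2
  · intro i i0 i1 i2
    refine ⟨0, ?_⟩
    change (MM p)⁻¹.mulVec (p i) (jj 0) ≠ 0
    have := hcc i (Finset.mem_univ i)
    rw [if_neg (by tauto)] at this
    intro h0
    apply this
    unfold cc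
    have h3 : (MM p).adjugate = (MM p).det • (MM p)⁻¹ := by
      rw [Matrix.inv_def, smul_smul, Ring.mul_inverse_cancel _ hu, one_smul]
    rw [h3, Matrix.smul_mulVec, Pi.smul_apply, h0, smul_zero]

end Pool.Agent.H403R4
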