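import Pool.Agent.H403R4.Tangent

/-!
# Regular homogeneous functions of negative degree vanish
-/

open MvPolynomial Filter Topology

namespace Pool.Agent.H403R4

open Pool.Agent.H403R3

lemma differentiable_eval {ι : Type*} [Fintype ι] (P : MvPolynomial ι ℂ) :
    Differentiable ℂ (fun b : ι → ℂ => eval b P) := by
  induction P using MvPolynomial.induction_on with
  | C a => simp only [eval_C]; exact differentiable_const a
  | add P Q hP hQ => simp only [map_add]; exact hP.add hQ
  | mul_X P i hP =>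
    simp only [map_mul, eval_X]
    exact hP.mul (differentiable_apply i)

/-- A homogeneous function of negative degree on `ℂ² ∖ 0` which is locally the quotient of two
differentiable functions, the denominator of which does not vanish, is zero. -/
theorem regular_zero (A : (Fin 2 → ℂ) → ℂ) (c : ℕ) (hc : 1 ≤ c)
    (hom : ∀ (x : ℂ) (b : Fin 2 → ℂ), x ≠ 0 → b ≠ 0 → x ^ c * A (x • b) = A b)
    (reg : ∀ b₀ : Fin 2 → ℂ, b₀ ≠ 0 → ∃ P Q : (Fin 2 → ℂ) → ℂ, Differentiable ℂ P ∧
      Differentiable ℂ Q ∧ P b₀ ≠ 0 ∧ ∀ b, b ≠ 0 → A b * P b = Q b)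
    (u : Fin 2 → ℂ) (hu : u ≠ 0) : A u = 0 := by
  -- a second vector
  obtain ⟨v, hv1, hv2⟩ : ∃ v : Fin 2 → ℂ, (∀ z : ℂ, u + z • v ≠ 0) ∧ ∀ y : ℂ, y • u + v ≠ 0 := by
    by_cases h0 : u 0 = 0
    · have h1 : u 1 ≠ 0 := fun h1 => pt_ne hu ⟨h0, h1⟩
      refine ⟨![1, 0], fun z h => ?_, fun y h => ?_⟩
      · have := congrFun h 1
        simp at this
        exact h1 this
      · have := congrFun h 0
        simp [h0] at this
    · refine ⟨![0, 1], fun z h => ?_, fun y h => ?_⟩
      · have := congrFun h 0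
        simp at this
        exact h0 this
      · have e0 := congrFun h 0
        have e1 := congrFun h 1
        simp at e0 e1
        rcases e0 with e0 | e0
        · rw [e0] at e1
          simp at e1
        · exact h0 e0
  -- differentiability along a line
  have hdiff : ∀ (ℓ : ℂ → (Fin 2 → ℂ)), Differentiable ℂ ℓ → (∀ z, ℓ z ≠ 0) →
      Differentiable ℂ fun z => A (ℓ z) := by
    intro ℓ hℓ hne z₀
    obtain ⟨P, Q, hP, hQ, hP0, hPQ⟩ := reg (ℓ z₀) (hne z₀)
    have h1 : ∀ᶠ z in 𝓝 z₀, P (ℓ z) ≠ 0 :=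
      ((hP.comp hℓ).continuous.continuousAt).eventually_ne hP0
    have h2 : (fun z => A (ℓ z)) =ᶠ[𝓝 z₀] fun z => Q (ℓ z) / P (ℓ z) := by
      filter_upwards [h1] with z hz
      rw [← hPQ (ℓ z) (hne z), mul_div_cancel_right₀ _ hz]
    rw [h2.differentiableAt_iff]
    exact ((hQ.comp hℓ) z₀).div ((hP.comp hℓ) z₀) hP0
  have hg : Differentiable ℂ fun z : ℂ => A (u + z • v) :=
    hdiff _ ((differentiable_const u).add (differentiable_id.smul_const v)) hv1
  have hk : Differentiable ℂ fun y : ℂ => A (y • u + v) :=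
    hdiff _ ((differentiable_id.smul_const u).add (differentiable_const v)) hv2
  have hlim : Tendsto (fun z : ℂ => A (u + z • v)) (cocompact ℂ) (𝓝 0) := by
    have h1 : Tendsto (fun z : ℂ => z⁻¹) (cocompact ℂ) (𝓝 0) := tendsto_inv₀_cobounded.comp (by
      rw [Metric.cobounded_eq_cocompact]; exact tendsto_id)
    have h2 : Tendsto (fun z : ℂ => z⁻¹ ^ c * A (z⁻¹ • u + v)) (cocompact ℂ)
        (𝓝 (0 ^ c * A ((0 : ℂ) • u + v))) :=
      (h1.pow c).mul ((hk.continuous.tendsto 0).comp h1)
    rw [zero_pow (by omega), zero_mul] at h2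
    refine h2.congr' ?_
    have h3 : ∀ᶠ z : ℂ in cocompact ℂ, z ≠ 0 := by
      have := (isCompact_singleton (x := (0 : ℂ))).compl_mem_cocompact
      filter_upwards [this] with z hz
      exact hz
    filter_upwards [h3] with z hz
    have h4 := hom z⁻¹ (u + z • v) (inv_ne_zero hz) (hv1 z)
    rw [← h4]
    congr 2
    rw [smul_add, smul_smul, inv_mul_cancel₀ hz, one_smul]
  have := hg.apply_eq_of_tendsto_cocompact 0 hlim
  simpa using this

lemma hom_smul {ι : Type*} [Fintype ι] {G : MvPolynomial ι ℂ} {d : ℕ} (hG : G.IsHomogeneous d)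
    (x : ℂ) (b : ι → ℂ) : eval (x • b) G = x ^ d * eval b G := by
  rw [eval_eq', eval_eq', Finset.mul_sum]
  refine Finset.sum_congr rfl fun m hm => ?_
  have hm' : ∑ i, m i = d := by
    have := hG (mem_support_iff.mp hm)
    simpa [Finsupp.weight_apply, Finsupp.sum_fintype] using this
  simp only [Pi.smul_apply, smul_eq_mul, mul_pow, Finset.prod_mul_distrib]
  rw [Finset.prod_pow_eq_pow_sum, hm']
  ring

/-- A binary form of positive degree has a nontrivial zero. -/
theorem exists_zero {G : MvPolynomial (Fin 2) ℂ} {d : ℕ} (hG : G.IsHomogeneous d) (hd : 1 ≤ d) :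
    ∃ b : Fin 2 → ℂ, b ≠ 0 ∧ eval b G = 0 := by
  by_contra hcon
  push Not at hcon
  have hsm : ∀ (x : ℂ) (b : Fin 2 → ℂ), eval (x • b) G = x ^ d * eval b G := hom_smul hG
  have := regular_zero (fun b => (eval b G)⁻¹) d hd
    (by
      intro x b hx hb
      rw [hsm, mul_inv, ← mul_assoc, mul_inv_cancel₀ (pow_ne_zero d hx), one_mul])
    (by
      intro b₀ hb₀
      refine ⟨fun b => eval b G, fun _ => 1, differentiable_eval G, differentiable_const 1,
        hcon b₀ hb₀, fun b hb => inv_mul_cancel₀ (hcon b hb)⟩)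
    ![1, 0] (by
      intro h
      have := congrFun h 0
      simp at this)
  exact inv_ne_zero (hcon _ (by
      intro h
      have := congrFun h 0
      simp at this)) this

end Pool.Agent.H403R4
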