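import Pool.Agent.H403R4.Sections

/-!
# At most two points
-/

open MvPolynomial Module

namespace Pool.Agent.H403R4

open Pool.Agent.H403R3

variable {n h : ℕ} {p : Fin h → Vec n}

/-- a linear functional applied to a vector of forms -/
noncomputable def Lp (ℓ : Vec n →ₗ[ℂ] ℂ) (g : Fin (n + 1) → MvPolynomial (Fin 2) ℂ) :
    MvPolynomial (Fin 2) ℂ := ∑ k, g k * C (ℓ (Pi.single k 1))

lemma eval_Lp (ℓ : Vec n →ₗ[ℂ] ℂ) (g : Fin (n + 1) → MvPolynomial (Fin 2) ℂ) (b : Fin 2 → ℂ) :
    eval b (Lp ℓ g) = ℓ (fun k => eval b (g k)) := by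
  unfold Lp
  rw [map_sum]
  simp only [map_mul, eval_C]
  conv_rhs => rw [← Finset.univ_sum_single (fun k => eval b (g k)), map_sum]
  refine Finset.sum_congr rfl fun k _ => ?_
  have : (Pi.single k (eval b (g k)) : Vec n) = eval b (g k) • Pi.single k 1 := by
    rw [← Pi.single_smul', smul_eq_mul, mul_one]
  rw [this, map_smul, smul_eq_mul]

lemma Lp_hom {ℓ : Vec n →ₗ[ℂ] ℂ} {g : Fin (n + 1) → MvPolynomial (Fin 2) ℂ} {d : ℕ}
    (hg : ∀ j, (g j).IsHomogeneous d) : (Lp ℓ g).IsHomogeneous d := by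
  unfold Lp
  refine IsHomogeneous.sum _ _ _ fun k _ => ?_
  have := (hg k).mul (isHomogeneous_C (Fin 2) (ℓ (Pi.single k 1)))
  simpa using this

/-- The curve is contained in the span of the points. -/
theorem x_mem_span (hp : ∀ i, p i ≠ 0) (hd : Distinct p) {γ : RatCurve p} {a : ℕ}
    (H : IsMinusOneOfSize γ a) {b : Fin 2 → ℂ} (hb : b ≠ 0) :
    γ.x b ∈ Submodule.span ℂ (Set.range p) := by
  by_contra hx
  obtain ⟨ha, _, _, hN⟩ := H
  obtain ⟨D⟩ := exists_sData hN
  obtain ⟨ℓ, hℓ, hker⟩ := Submodule.exists_le_ker_of_notMem hx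
  have hℓp : ∀ i, ℓ (p i) = 0 := fun i => hker (Submodule.subset_span ⟨i, rfl⟩)
  have hT : tangentCone p (γ.x b) (γ.dir b) ≤ D.K b := by
    intro v hv
    -- the vector field
    set c := (ℓ (γ.x b))⁻¹ with hc
    have hmem := D.section_mem hp hd (ζ := fun j => Lp ℓ γ.f * C (c * v.1 j))
      (θ := fun i j => Lp ℓ (γ.w i) * C (c * v.1 j))
      (fun j => by
        have := (Lp_hom (ℓ := ℓ) γ.f_hom).mul (isHomogeneous_C (Fin 2) (c * v.1 j))
        simpa using this)
      (fun i j => by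
        have := (Lp_hom (ℓ := ℓ) (γ.w_hom i)).mul (isHomogeneous_C (Fin 2) (c * v.1 j))
        simpa using this)
      (by
        intro b' hb'
        have hpt : IsPoint p (γ.x b') (γ.dir b') := γ.isPoint b' hb'
        choose A hA using fun i => point_coeffs hpt i
        choose B hB using hA
        rw [tangent_iff hp hpt.notMem A B hB]
        intro i
        have e : (val (fun j => Lp ℓ γ.f * C (c * v.1 j))
            (fun i j => Lp ℓ (γ.w i) * C (c * v.1 j)) b').1 -
              A i • (val (fun j => Lp ℓ γ.f * C (c * v.1 j))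
            (fun i j => Lp ℓ (γ.w i) * C (c * v.1 j)) b').2 i = 0 := by
          funext j
          simp only [val, Pi.sub_apply, Pi.smul_apply, smul_eq_mul, map_mul, eval_C, eval_Lp,
            Pi.zero_apply]
          have e1 : ℓ (fun k => eval b' (γ.f k)) = A i * ℓ (fun k => eval b' (γ.w i k)) := by
            change ℓ (γ.x b') = A i * ℓ (γ.dir b' i)
            rw [hB i, map_add, map_smul, map_smul, hℓp i, smul_zero, add_zero, smul_eq_mul]
          rw [e1]
          ring
        rw [e]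
        exact Submodule.zero_mem _) hb
    -- its value at `b`
    have hpt : IsPoint p (γ.x b) (γ.dir b) := γ.isPoint b hb
    choose A hA using fun i => point_coeffs hpt i
    choose B hB using hA
    have hv' := (tangent_iff hp hpt.notMem A B hB v).mp hv
    set V := val (fun j => Lp ℓ γ.f * C (c * v.1 j))
        (fun i j => Lp ℓ (γ.w i) * C (c * v.1 j)) b with hV
    have hV1 : V.1 = v.1 := by
      funext j
      simp only [hV, val, map_mul, eval_C, eval_Lp]
      change ℓ (γ.x b) * (c * v.1 j) = v.1 j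
      rw [← mul_assoc, hc, mul_inv_cancel₀ hℓ, one_mul]
    have hV2 : ∀ i, A i • V.2 i = v.1 := by
      intro i
      funext j
      simp only [hV, val, map_mul, eval_C, eval_Lp, Pi.smul_apply, smul_eq_mul]
      have e1 : ℓ (γ.x b) = A i * ℓ (γ.dir b i) := by
        have := congrArg ℓ (hB i)
        rw [map_add, map_smul, map_smul, hℓp i, smul_zero, add_zero, smul_eq_mul] at this
        exact this
      change A i * (ℓ (γ.dir b i) * (c * v.1 j)) = v.1 j
      have e2 : A i * (ℓ (γ.dir b i) * (c * v.1 j)) = ℓ (γ.x b) * c * v.1 j := by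
        rw [e1]; ring
      rw [e2, hc, mul_inv_cancel₀ hℓ, one_mul]
    have hA0 : ∀ i, A i ≠ 0 := by
      intro i h0
      apply hℓ
      have := congrArg ℓ (hB i)
      rw [h0, zero_smul, zero_add, map_smul, hℓp i, smul_zero] at this
      exact this
    have hdiff : v - V ∈ D.K b := by
      refine (le_sup_left : _ ≤ D.K b) (vertical_le_tangentLine γ b ⟨?_, fun i => ?_⟩)
      · change v.1 - V.1 ∈ _
        rw [hV1, sub_self]
        exact Submodule.zero_mem _
      · change v.2 i - V.2 i ∈ _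
        have h1 := hv' i
        have h2 : v.1 - A i • v.2 i = (-A i) • (v.2 i - V.2 i) := by
          rw [smul_sub, neg_smul, neg_smul, hV2 i]
          abel
        rw [h2] at h1
        exact (Submodule.smul_mem_iff _ (neg_ne_zero.mpr (hA0 i))).mp h1
    have : v = (v - V) + V := by abel
    rw [this]
    exact Submodule.add_mem _ hdiff hmem
  have h1 := D.indep hb (c := Pi.single ⟨0, ha⟩ 1) (by
    refine Submodule.sum_mem _ fun m _ => Submodule.smul_mem _ _ (hT ((D.split hb).1 m)))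
  have h2 := congrFun h1 ⟨0, ha⟩
  simp at h2

/-- The strict transform of the span of the points. -/
def spanTilde (p : Fin h → Vec n) : Set (Vec n × (Fin h → Vec n)) :=
  {q | IsPoint p q.1 q.2 ∧ q.1 ∈ Submodule.span ℂ (Set.range p) ∧
    ∀ i, q.2 i ∈ Submodule.span ℂ (Set.range p)}

lemma dir_mem_span {γ : RatCurve p}
    (hx : ∀ b : Fin 2 → ℂ, b ≠ 0 → γ.x b ∈ Submodule.span ℂ (Set.range p))
    (hE : ¬ InExceptional γ) (b : Fin 2 → ℂ) (i : Fin h) :
    γ.dir b i ∈ Submodule.span ℂ (Set.range p) := by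
  by_contra hw
  obtain ⟨ℓ, hℓ, hker⟩ := Submodule.exists_le_ker_of_notMem hw
  obtain ⟨b₁, hb₁, hx₁⟩ : ∃ b₁ : Fin 2 → ℂ, b₁ ≠ 0 ∧ γ.x b₁ ∉ Submodule.span ℂ {p i} := by
    by_contra hcon
    push Not at hcon
    exact hE ⟨i, hcon⟩
  obtain ⟨μ, hμ, hkerμ⟩ := Submodule.exists_le_ker_of_notMem hx₁
  have hℓp : ℓ (p i) = 0 := hker (Submodule.subset_span ⟨i, rfl⟩)
  have hμp : μ (p i) = 0 := hkerμ (Submodule.mem_span_singleton_self _)
  have hz : Lp μ γ.f * Lp ℓ (γ.w i) = 0 := by
    refine poly_zero _ fun b' hb' => ?_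
    rw [map_mul, eval_Lp, eval_Lp]
    change μ (γ.x b') * ℓ (γ.dir b' i) = 0
    obtain ⟨A, B, hAB⟩ := point_coeffs (γ.isPoint b' hb') i
    change γ.x b' = A • γ.dir b' i + B • p i at hAB
    have h1 : μ (γ.x b') = A * μ (γ.dir b' i) := by
      rw [hAB, map_add, map_smul, map_smul, hμp, smul_zero, add_zero, smul_eq_mul]
    have h2 : A * ℓ (γ.dir b' i) = 0 := by
      have h3 : ℓ (γ.x b') = 0 := hker (hx b' hb')
      rw [hAB, map_add, map_smul, map_smul, hℓp, smul_zero, add_zero, smul_eq_mul] at h3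
      exact h3
    rw [h1]
    linear_combination μ (γ.dir b' i) * h2
  rcases mul_eq_zero.mp hz with h1 | h1
  · apply hμ
    have := eval_Lp μ γ.f b₁
    rw [h1, map_zero] at this
    exact this.symm
  · apply hℓ
    have := eval_Lp ℓ (γ.w i) b
    rw [h1, map_zero] at this
    exact this.symm

section two

variable {p : Fin 2 → Vec n} (hp : ∀ i, p i ≠ 0) (hd : Distinct p)

include hp hd in
lemma finrank_span_two : finrank ℂ (Submodule.span ℂ (Set.range p)) = 2 := by
  have h1 : Set.range p = {p 0, p 1} := by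
    ext v
    constructor
    · rintro ⟨i, rfl⟩
      fin_cases i
      · exact Set.mem_insert _ _
      · exact Set.mem_insert_of_mem _ rfl
    · rintro (rfl | rfl)
      · exact ⟨0, rfl⟩
      · exact ⟨1, rfl⟩
  rw [h1]
  exact finrank_pair (hd 1 0 (by decide)) (hp 1)

include hp hd in
lemma span_pair_eq {w q : Vec n} (hw : w ∈ Submodule.span ℂ (Set.range p))
    (hq : q ∈ Submodule.span ℂ (Set.range p)) (hwq : w ∉ Submodule.span ℂ {q}) (hq0 : q ≠ 0) :
    Submodule.span ℂ {w, q} = Submodule.span ℂ (Set.range p) := by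
  apply Submodule.eq_of_le_of_finrank_eq
  · rw [Submodule.span_le]
    rintro v (rfl | rfl)
    · exact hw
    · exact hq
  · rw [finrank_pair hwq hq0, finrank_span_two hp hd]

variable {γ : RatCurve p}
  (hx : ∀ b : Fin 2 → ℂ, b ≠ 0 → γ.x b ∈ Submodule.span ℂ (Set.range p))
  (hE : ¬ InExceptional γ)

include hp hd hx hE in
lemma span_dir_eq {b : Fin 2 → ℂ} (hb : b ≠ 0) (i : Fin 2) :
    Submodule.span ℂ {γ.dir b i, p i} = Submodule.span ℂ (Set.range p) :=
  span_pair_eq hp hd (dir_mem_span hx hE b i) (Submodule.subset_span ⟨i, rfl⟩)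
    ((γ.isPoint b hb).notMem i) (hp i)

include hp hd hx hE in
lemma same_of {b b' : Fin 2 → ℂ} (hb : b ≠ 0)
    (h : γ.x b' ∈ Submodule.span ℂ {γ.x b}) :
    SamePoint p (γ.x b) (γ.dir b) (γ.x b') (γ.dir b') := by
  refine ⟨h, fun i => ?_⟩
  rw [span_dir_eq hp hd hx hE hb i]
  exact dir_mem_span hx hE b' i

lemma e0_ne : (![1, 0] : Fin 2 → ℂ) ≠ 0 := by
  intro h
  have := congrFun h 0
  simp at this

lemma e1_ne : (![0, 1] : Fin 2 → ℂ) ≠ 0 := by
  intro h
  have := congrFun h 1
  simp at this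

include hp hd hx hE in
lemma δ_pos (hemb : γ.IsEmbedding) : 1 ≤ γ.δ := by
  by_contra hδ
  have hδ0 : γ.δ = 0 := by omega
  have hconst : γ.x ![0, 1] = γ.x ![1, 0] := by
    funext j
    have h1 := γ.f_hom j
    rw [hδ0] at h1
    have h2 := totalDegree_eq_zero_iff_eq_C.mp (Nat.le_zero.mp h1.totalDegree_le)
    simp only [RatCurve.x]
    rw [h2, eval_C, eval_C]
  obtain ⟨c, hc⟩ := hemb.1 _ _ e0_ne e1_ne (same_of hp hd hx hE e0_ne (by
    rw [hconst]; exact Submodule.mem_span_singleton_self _))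
  have := congrFun hc 1
  simp at this

include hp hd in
/-- a functional on the span which vanishes exactly on a given line -/
lemma exists_functional {y : Vec n} (hy : y ∈ Submodule.span ℂ (Set.range p)) (hy0 : y ≠ 0) :
    ∃ ℓ : Vec n →ₗ[ℂ] ℂ, ℓ y = 0 ∧ ∀ v ∈ Submodule.span ℂ (Set.range p), ℓ v = 0 →
      v ∈ Submodule.span ℂ {y} := by
  obtain ⟨z, hz, hzy⟩ : ∃ z ∈ Submodule.span ℂ (Set.range p), z ∉ Submodule.span ℂ {y} := by
    by_contra hcon
    push Not at hcon
    have h1 : Submodule.span ℂ (Set.range p) ≤ Submodule.span ℂ {y} := hcon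
    have h2 := Submodule.finrank_mono h1
    rw [finrank_span_two hp hd, finrank_span_singleton hy0] at h2
    omega
  obtain ⟨ℓ, hℓ, hker⟩ := Submodule.exists_le_ker_of_notMem hzy
  have hℓy : ℓ y = 0 := hker (Submodule.mem_span_singleton_self _)
  refine ⟨ℓ, hℓy, fun v hv hv0 => ?_⟩
  rw [← span_pair_eq hp hd hz hy hzy hy0] at hv
  obtain ⟨α, β, rfl⟩ := Submodule.mem_span_pair.mp hv
  rw [map_add, map_smul, map_smul, hℓy, smul_zero, add_zero, smul_eq_mul] at hv0
  have hα : α = 0 := (mul_eq_zero.mp hv0).resolve_right hℓ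
  rw [hα, zero_smul, zero_add]
  exact Submodule.smul_mem _ _ (Submodule.mem_span_singleton_self _)

include hp hd hx hE in
theorem points_eq (hemb : γ.IsEmbedding) : points γ = spanTilde p := by
  ext q
  constructor
  · rintro ⟨hq, b, hb, h1, h2⟩
    refine ⟨hq, ?_, fun i => ?_⟩
    · obtain ⟨c, hc⟩ := Submodule.mem_span_singleton.mp h1
      rw [← hc]
      exact Submodule.smul_mem _ _ (hx b hb)
    · have := h2 i
      rwa [span_dir_eq hp hd hx hE hb i] at this
  · rintro ⟨hq, h1, h2⟩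
    refine ⟨hq, ?_⟩
    obtain ⟨ℓ, hℓy, hℓ⟩ := exists_functional hp hd h1 hq.ne_zero
    obtain ⟨b, hb, hbz⟩ := exists_zero (Lp_hom (ℓ := ℓ) γ.f_hom) (δ_pos hp hd hx hE hemb)
    rw [eval_Lp] at hbz
    have h3 := hℓ (γ.x b) (hx b hb) hbz
    obtain ⟨c, hc⟩ := Submodule.mem_span_singleton.mp h3
    have hc0 : c ≠ 0 := by
      rintro rfl
      rw [zero_smul] at hc
      exact (γ.isPoint b hb).ne_zero hc.symm
    refine ⟨b, hb, ?_, fun i => ?_⟩
    · rw [Submodule.mem_span_singleton]
      exact ⟨c⁻¹, by rw [← hc, smul_smul, inv_mul_cancel₀ hc0, one_smul]⟩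
    · rw [span_dir_eq hp hd hx hE hb i]
      exact h2 i

include hp hd in
theorem finite_two : (minusOneCurvesOff p).Finite := by
  refine (Set.finite_singleton (spanTilde p)).subset ?_
  rintro C ⟨γ, a, H, hE, rfl⟩
  exact points_eq hp hd (fun b hb => x_mem_span hp hd H hb) hE H.2.2.1

end two

theorem finite_one {p : Fin 1 → Vec n} (hp : ∀ i, p i ≠ 0) (hd : Distinct p) :
    (minusOneCurvesOff p).Finite := by
  have : minusOneCurvesOff p = ∅ := by
    rw [Set.eq_empty_iff_forall_notMem]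
    rintro C ⟨γ, a, H, hE, rfl⟩
    apply hE
    refine ⟨0, fun b hb => ?_⟩
    have := x_mem_span hp hd H hb
    have h1 : Set.range p = {p 0} := by
      ext v
      constructor
      · rintro ⟨i, rfl⟩
        rw [Subsingleton.elim i 0]
        rfl
      · rintro rfl
        exact ⟨0, rfl⟩
    rwa [h1] at this
  rw [this]
  exact Set.finite_empty

end Pool.Agent.H403R4
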