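import Pool.Agent.H403R4.PlaneInf
import Pool.Agent.H403R4.ExcLine
import Pool.Agent.H403R4.Classes
import Pool.Agent.H403R4.GenPos

/-!
# The main theorem
-/

open MvPolynomial

namespace Pool.Agent.H403R4

open Pool.Agent.H403R3

theorem main₀ (n h : ℕ) (hn : 3 ≤ n) (hh : 1 ≤ h) :
    Generally n h fun p => (∀ i, p i ≠ 0) ∧ Distinct p ∧ (minusOneCurves p).Infinite ∧
      ((minusOneCurvesOff p).Finite ↔ h ≤ 2) ∧ ((minusOneClasses p).Finite ↔ h ≤ 2) := by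
  obtain ⟨N, rfl⟩ : ∃ N, n = N + 3 := ⟨n - 3, by omega⟩
  by_cases h2 : h ≤ 2
  · refine ⟨F1 N h, F1_ne, fun p hF => ?_⟩
    obtain ⟨hp, hd⟩ := of_F1 hF
    refine ⟨hp, hd, infinite_all (by omega) hp hd ⟨0, by omega⟩, iff_of_true ?_ h2,
      iff_of_true (finite_classes h2 hp hd) h2⟩
    have h3 : h = 1 ∨ h = 2 := by omega
    rcases h3 with rfl | rfl
    · exact finite_one hp hd
    · exact finite_two hp hd
  · obtain ⟨H, rfl⟩ : ∃ H, h = H + 3 := ⟨h - 3, by omega⟩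
    refine ⟨F1 N (H + 3) * F2 N H, mul_ne_zero F1_ne F2_ne, fun p hF => ?_⟩
    rw [map_mul] at hF
    obtain ⟨hp, hd⟩ := of_F1 (left_ne_zero_of_mul hF)
    obtain ⟨ρ, g⟩ := of_F2 (right_ne_zero_of_mul hF)
    exact ⟨hp, hd, infinite_all (by omega) hp hd ⟨0, by omega⟩,
      iff_of_false (fun hfin => g.infinite_off hfin) h2,
      iff_of_false (fun hfin => g.infinite_classes hfin) h2⟩

end Pool.Agent.H403R4
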