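import Pool.Agent.H403R4.Basic

/-!
# Plane curves through three of the points
-/

open MvPolynomial

namespace Pool.Agent.H403R4

open Pool.Agent.H403R3

variable {N H : ℕ}

/-- the coordinates of index at least three -/
def jj (m : Fin (N + 1)) : Fin (N + 3 + 1) := ⟨m + 3, by omega⟩

lemma cases_j (j : Fin (N + 3 + 1)) : j = 0 ∨ j = 1 ∨ j = 2 ∨ ∃ m : Fin (N + 1), j = jj m := by
  by_cases h : (j : ℕ) < 3
  · have h3 : (j : ℕ) = 0 ∨ (j : ℕ) = 1 ∨ (j : ℕ) = 2 := by omega
    rcases h3 with h | h | h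
    · left; apply Fin.ext; simpa using h
    · right; left; apply Fin.ext; simpa using h
    · right; right; left; apply Fin.ext; rw [h]; rfl
  · right; right; right
    refine ⟨⟨j - 3, by omega⟩, Fin.ext ?_⟩
    simp only [jj]
    omega

/-- general position of the first three points with respect to the others, in coordinates in which
the first three are the first three unit vectors -/
structure Good (p : Fin (H + 3) → Vec (N + 3)) (ρ : Vec (N + 3) ≃ₗ[ℂ] Vec (N + 3)) : Prop where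
  h0 : ρ (p 0) = Pi.single 0 1
  h1 : ρ (p 1) = Pi.single 1 1
  h2 : ρ (p 2) = Pi.single 2 1
  h3 : ∀ i, i ≠ 0 → i ≠ 1 → i ≠ 2 → ∃ m, ρ (p i) (jj m) ≠ 0

lemma v2 : ((2 : Fin (N + 3 + 1)) : ℕ) = 2 := rfl
lemma v2' : ((2 : Fin (H + 3)) : ℕ) = 2 := rfl
lemma j01 : (0 : Fin (N + 3 + 1)) ≠ 1 := by simp
lemma j02 : (0 : Fin (N + 3 + 1)) ≠ 2 := by
  intro h; have := congrArg Fin.val h; rw [v2] at this; simp at this
lemma j12 : (1 : Fin (N + 3 + 1)) ≠ 2 := by
  intro h; have := congrArg Fin.val h; rw [v2] at this; simp at this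
lemma j0m (m : Fin (N + 1)) : (0 : Fin (N + 3 + 1)) ≠ jj m := by
  intro h; have := congrArg Fin.val h; simp [jj] at this
lemma j1m (m : Fin (N + 1)) : (1 : Fin (N + 3 + 1)) ≠ jj m := by
  intro h; have := congrArg Fin.val h; simp [jj] at this
lemma j2m (m : Fin (N + 1)) : (2 : Fin (N + 3 + 1)) ≠ jj m := by
  intro h; have := congrArg Fin.val h; rw [v2] at this; simp [jj] at this
lemma i01 : (0 : Fin (H + 3)) ≠ 1 := by simp
lemma i02 : (0 : Fin (H + 3)) ≠ 2 := by
  intro h; have := congrArg Fin.val h; rw [v2'] at this; simp at this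
lemma i12 : (1 : Fin (H + 3)) ≠ 2 := by
  intro h; have := congrArg Fin.val h; rw [v2'] at this; simp at this

variable {p : Fin (H + 3) → Vec (N + 3)} {ρ : Vec (N + 3) ≃ₗ[ℂ] Vec (N + 3)}

namespace Good

variable (g : Good p ρ)

include g in
/-- the coordinates of a combination of the first three points -/
lemma coord (x y z : ℂ) (v : Vec (N + 3)) (hv : v = x • p 0 + y • p 1 + z • p 2) :
    ρ v 0 = x ∧ ρ v 1 = y ∧ ρ v 2 = z ∧ ∀ m, ρ v (jj m) = 0 := by
  subst hv
  simp only [map_add, map_smul, g.h0, g.h1, g.h2, Pi.add_apply, Pi.smul_apply, smul_eq_mul]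
  refine ⟨?_, ?_, ?_, fun m => ?_⟩
  · rw [Pi.single_eq_same, Pi.single_eq_of_ne j01, Pi.single_eq_of_ne j02]; ring
  · rw [Pi.single_eq_same, Pi.single_eq_of_ne j01.symm, Pi.single_eq_of_ne j12]; ring
  · rw [Pi.single_eq_same, Pi.single_eq_of_ne j02.symm, Pi.single_eq_of_ne j12.symm]; ring
  · rw [Pi.single_eq_of_ne (j0m m).symm, Pi.single_eq_of_ne (j1m m).symm,
      Pi.single_eq_of_ne (j2m m).symm]; ring

include g in
lemma indep {x y z : ℂ} (h : x • p 0 + y • p 1 + z • p 2 = 0) : x = 0 ∧ y = 0 ∧ z = 0 := by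
  obtain ⟨h0, h1, h2, _⟩ := g.coord x y z 0 h.symm
  rw [map_zero] at h0 h1 h2
  exact ⟨h0.symm, h1.symm, h2.symm⟩

include g in
lemma eq_of (v : Vec (N + 3)) (hv : ∀ m, ρ v (jj m) = 0) :
    v = ρ v 0 • p 0 + ρ v 1 • p 1 + ρ v 2 • p 2 := by
  apply ρ.injective
  obtain ⟨h0, h1, h2, h3⟩ := g.coord (ρ v 0) (ρ v 1) (ρ v 2) _ rfl
  funext j
  rcases cases_j j with rfl | rfl | rfl | ⟨m, rfl⟩
  · exact h0.symm
  · exact h1.symm
  · exact h2.symm
  · rw [h3 m, hv m]

include g in
lemma p_ne (i : Fin (H + 3)) : p i ≠ 0 := by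
  intro h
  by_cases h0 : i = 0
  · subst h0
    have := congrFun g.h0 0
    rw [h, map_zero] at this
    simp at this
  by_cases h1 : i = 1
  · subst h1
    have := congrFun g.h1 1
    rw [h, map_zero] at this
    simp at this
  by_cases h2 : i = 2
  · subst h2
    have := congrFun g.h2 2
    rw [h, map_zero] at this
    simp at this
  obtain ⟨m, hm⟩ := g.h3 i h0 h1 h2
  apply hm
  rw [h, map_zero]
  rfl

end Good

/-! ### The forms -/

/-- combinations of the first three points with polynomial coefficients -/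
noncomputable def lin (p : Fin (H + 3) → Vec (N + 3)) (P Q R : MvPolynomial (Fin 2) ℂ)
    (j : Fin (N + 3 + 1)) : MvPolynomial (Fin 2) ℂ := P * C (p 0 j) + Q * C (p 1 j) + R * C (p 2 j)

lemma lin_hom {d : ℕ} {P Q R : MvPolynomial (Fin 2) ℂ} (hP : P.IsHomogeneous d)
    (hQ : Q.IsHomogeneous d) (hR : R.IsHomogeneous d) (j : Fin (N + 3 + 1)) :
    (lin p P Q R j).IsHomogeneous d := by
  unfold lin
  have e : ∀ {P : MvPolynomial (Fin 2) ℂ} (_ : P.IsHomogeneous d) (c : ℂ),
      (P * C c).IsHomogeneous d := fun hP c => by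
    have := hP.mul (isHomogeneous_C (Fin 2) c)
    simpa using this
  exact ((e hP _).add (e hQ _)).add (e hR _)

lemma lin_eval (P Q R : MvPolynomial (Fin 2) ℂ) (b : Fin 2 → ℂ) :
    (fun j => eval b (lin p P Q R j)) = eval b P • p 0 + eval b Q • p 1 + eval b R • p 2 := by
  funext j
  simp [lin]

lemma lin_pderiv (P Q R : MvPolynomial (Fin 2) ℂ) (k : Fin 2) (j : Fin (N + 3 + 1)) :
    pderiv k (lin p P Q R j) = lin p (pderiv k P) (pderiv k Q) (pderiv k R) j := by
  simp only [lin, map_add, Derivation.leibniz, pderiv_C, smul_eq_mul]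
  ring

/-- the forms giving the lines through the points -/
noncomputable def wX (p : Fin (H + 3) → Vec (N + 3)) (ε : ℂ) (F G : MvPolynomial (Fin 2) ℂ)
    (i : Fin (H + 3)) : Fin (N + 3 + 1) → MvPolynomial (Fin 2) ℂ :=
  if i = 0 then lin p 0 (C ε * X 1) (C ε * X 0)
  else if i = 1 then lin p (G * X 1) 0 F
  else if i = 2 then lin p (G * X 0) F 0
  else lin p (G * X 0 * X 1) (F * X 1) (F * X 0)

/-- the point of the projective space -/
noncomputable def fX (p : Fin (H + 3) → Vec (N + 3)) (F G : MvPolynomial (Fin 2) ℂ) :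
    Fin (N + 3 + 1) → MvPolynomial (Fin 2) ℂ := lin p (G * X 0 * X 1) (F * X 1) (F * X 0)

/-- the degrees -/
def eX (k : ℕ) (i : Fin (H + 3)) : ℕ :=
  if i = 0 then 1 else if i = 1 then k + 1 else if i = 2 then k + 1 else k + 2

lemma X_hom (i : Fin 2) : (X i : MvPolynomial (Fin 2) ℂ).IsHomogeneous 1 := isHomogeneous_X ℂ i

lemma fX_hom {k : ℕ} {F G : MvPolynomial (Fin 2) ℂ} (hF : F.IsHomogeneous (k + 1))
    (hG : G.IsHomogeneous k) (j : Fin (N + 3 + 1)) : (fX p F G j).IsHomogeneous (k + 2) :=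
  lin_hom ((hG.mul (X_hom 0)).mul (X_hom 1)) (hF.mul (X_hom 1)) (hF.mul (X_hom 0)) j

lemma wX_hom {k : ℕ} {F G : MvPolynomial (Fin 2) ℂ} (ε : ℂ) (hF : F.IsHomogeneous (k + 1))
    (hG : G.IsHomogeneous k) (i : Fin (H + 3)) (j : Fin (N + 3 + 1)) :
    (wX p ε F G i j).IsHomogeneous (eX k i) := by
  unfold wX eX
  split_ifs
  · refine lin_hom (isHomogeneous_zero _ _ _) ?_ ?_ j
    · have := (isHomogeneous_C (Fin 2) ε).mul (X_hom 1)
      simpa using this
    · have := (isHomogeneous_C (Fin 2) ε).mul (X_hom 0)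
      simpa using this
  · exact lin_hom (hG.mul (X_hom 1)) (isHomogeneous_zero _ _ _) hF j
  · exact lin_hom (hG.mul (X_hom 0)) hF (isHomogeneous_zero _ _ _) j
  · exact fX_hom hF hG j

/-- values -/
noncomputable def xv (p : Fin (H + 3) → Vec (N + 3)) (f g s t : ℂ) : Vec (N + 3) :=
  (g * s * t) • p 0 + (f * t) • p 1 + (f * s) • p 2

noncomputable def wv (p : Fin (H + 3) → Vec (N + 3)) (ε f g s t : ℂ) (i : Fin (H + 3)) :
    Vec (N + 3) :=
  if i = 0 then (ε * t) • p 1 + (ε * s) • p 2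
  else if i = 1 then (g * t) • p 0 + f • p 2
  else if i = 2 then (g * s) • p 0 + f • p 1
  else xv p f g s t

lemma eval_fX (F G : MvPolynomial (Fin 2) ℂ) (b : Fin 2 → ℂ) :
    (fun j => eval b (fX p F G j)) = xv p (eval b F) (eval b G) (b 0) (b 1) := by
  unfold fX xv
  rw [lin_eval]
  simp

lemma eval_wX (ε : ℂ) (F G : MvPolynomial (Fin 2) ℂ) (b : Fin 2 → ℂ) (i : Fin (H + 3)) :
    (fun j => eval b (wX p ε F G i j)) = wv p ε (eval b F) (eval b G) (b 0) (b 1) i := by
  unfold wX wv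
  split_ifs
  · rw [lin_eval]; simp
  · rw [lin_eval]; simp
  · rw [lin_eval]; simp
  · exact eval_fX F G b

/-- the coefficients -/
def Av (f s t : ℂ) (i : Fin (H + 3)) : ℂ :=
  if i = 0 then f else if i = 1 then s else if i = 2 then t else 1

def Bv (f g s t : ℂ) (i : Fin (H + 3)) : ℂ :=
  if i = 0 then g * s * t else if i = 1 then f * t else if i = 2 then f * s else 0

lemma xv_eq (f g s t : ℂ) (i : Fin (H + 3)) :
    xv p f g s t = Av f s t i • wv p 1 f g s t i + Bv f g s t i • p i := by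
  unfold Av Bv wv
  split_ifs with h0 h1 h2
  · subst h0; unfold xv; module
  · subst h1; unfold xv; module
  · subst h2; unfold xv; module
  · module

end Pool.Agent.H403R4
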