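import Pool.Agent.H403R4.Plane

/-!
# Plane curves through three of the points: the embedding
-/

open MvPolynomial

namespace Pool.Agent.H403R4

open Pool.Agent.H403R3

variable {N H : ℕ} {p : Fin (H + 3) → Vec (N + 3)} {ρ : Vec (N + 3) ≃ₗ[ℂ] Vec (N + 3)}

/-- conditions on the values of the forms at a point -/
structure Vals (f g s t : ℂ) : Prop where
  st : ¬ (s = 0 ∧ t = 0)
  fs : ¬ (f = 0 ∧ s = 0)
  ft : ¬ (f = 0 ∧ t = 0)
  fg : ¬ (f = 0 ∧ g = 0)

/-- conditions on the forms -/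
structure Forms (k : ℕ) (F G : MvPolynomial (Fin 2) ℂ) : Prop where
  hF : F.IsHomogeneous (k + 1)
  hG : G.IsHomogeneous k
  vals : ∀ b : Fin 2 → ℂ, b ≠ 0 → Vals (eval b F) (eval b G) (b 0) (b 1)

namespace Good

variable (g : Good p ρ)

include g in
lemma xv_ne {f γ s t : ℂ} (V : Vals f γ s t) : xv p f γ s t ≠ 0 := by
  intro h
  obtain ⟨h0, h1, h2⟩ := g.indep (x := γ * s * t) (y := f * t) (z := f * s) h
  have hf : f = 0 := by
    by_contra hf
    exact V.st ⟨(mul_eq_zero.mp h2).resolve_left hf, (mul_eq_zero.mp h1).resolve_left hf⟩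
  have hγ : γ ≠ 0 := fun hγ => V.fg ⟨hf, hγ⟩
  rcases mul_eq_zero.mp h0 with h3 | h3
  · rcases mul_eq_zero.mp h3 with h4 | h4
    · exact hγ h4
    · exact V.fs ⟨hf, h4⟩
  · exact V.ft ⟨hf, h3⟩

include g in
lemma xv_coord (f γ s t : ℂ) : ρ (xv p f γ s t) 0 = γ * s * t ∧ ρ (xv p f γ s t) 1 = f * t ∧
    ρ (xv p f γ s t) 2 = f * s ∧ ∀ m, ρ (xv p f γ s t) (jj m) = 0 :=
  g.coord _ _ _ _ rfl

include g in
lemma wv_notMem {f γ s t : ℂ} (V : Vals f γ s t) (i : Fin (H + 3)) :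
    wv p 1 f γ s t i ∉ Submodule.span ℂ {p i} := by
  intro h
  obtain ⟨c, hc⟩ := Submodule.mem_span_singleton.mp h
  unfold wv at hc
  split_ifs at hc with h0 h1 h2
  · subst h0
    obtain ⟨_, e1, e2⟩ := g.indep (x := -c) (y := 1 * t) (z := 1 * s) (by
      rw [neg_smul, hc]; module)
    rw [one_mul] at e1 e2
    exact V.st ⟨e2, e1⟩
  · subst h1
    obtain ⟨e0, _, e2⟩ := g.indep (x := γ * t) (y := -c) (z := f) (by
      rw [neg_smul, hc]; module)
    rcases mul_eq_zero.mp e0 with e | e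
    · exact V.fg ⟨e2, e⟩
    · exact V.ft ⟨e2, e⟩
  · subst h2
    obtain ⟨e0, e1, _⟩ := g.indep (x := γ * s) (y := f) (z := -c) (by
      rw [neg_smul, hc]; module)
    rcases mul_eq_zero.mp e0 with e | e
    · exact V.fg ⟨e1, e⟩
    · exact V.fs ⟨e1, e⟩
  · obtain ⟨m, hm⟩ := g.h3 i h0 h1 h2
    have h3 := (g.xv_coord f γ s t).2.2.2 m
    rw [← hc, map_smul, Pi.smul_apply, smul_eq_mul] at h3
    have hc0 : c = 0 := (mul_eq_zero.mp h3).resolve_right hm
    rw [hc0, zero_smul] at hc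
    exact g.xv_ne V hc.symm

include g in
lemma isPoint {f γ s t : ℂ} (V : Vals f γ s t) :
    IsPoint p (xv p f γ s t) (fun i => wv p 1 f γ s t i) where
  ne_zero := g.xv_ne V
  notMem := g.wv_notMem V
  mem := fun i => by
    rw [xv_eq f γ s t i]
    exact mem_pair _ _

/-- the curve -/
noncomputable def curve {k : ℕ} {F G : MvPolynomial (Fin 2) ℂ} (FF : Forms k F G) :
    RatCurve p where
  δ := k + 2
  e := eX k
  f := fX p F G
  w := wX p 1 F G
  f_hom := fX_hom FF.hF FF.hG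
  w_hom := wX_hom 1 FF.hF FF.hG
  isPoint := by
    intro b hb
    have := g.isPoint (FF.vals b hb)
    have e : (fun (i : Fin (H + 3)) j => eval b (wX p 1 F G i j)) =
      fun i => wv p 1 (eval b F) (eval b G) (b 0) (b 1) i := funext fun i => eval_wX 1 F G b i
    rw [eval_fX, e]
    exact this

variable {k : ℕ} {F G : MvPolynomial (Fin 2) ℂ} (FF : Forms k F G)

lemma curve_x (b : Fin 2 → ℂ) :
    (g.curve FF).x b = xv p (eval b F) (eval b G) (b 0) (b 1) := eval_fX F G b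

lemma curve_dir (b : Fin 2 → ℂ) :
    (g.curve FF).dir b = wv p 1 (eval b F) (eval b G) (b 0) (b 1) := by
  funext i
  exact eval_wX 1 F G b i

lemma wv_zero (ε f γ s t : ℂ) : wv p ε f γ s t 0 = (ε * t) • p 1 + (ε * s) • p 2 := by
  unfold wv; rw [if_pos rfl]

lemma wv_one (ε f γ s t : ℂ) : wv p ε f γ s t 1 = (γ * t) • p 0 + f • p 2 := by
  unfold wv; rw [if_neg i01.symm, if_pos rfl]

lemma wv_two (ε f γ s t : ℂ) : wv p ε f γ s t 2 = (γ * s) • p 0 + f • p 1 := by
  unfold wv; rw [if_neg i02.symm, if_neg i12.symm, if_pos rfl]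

lemma wv_other (ε f γ s t : ℂ) {i : Fin (H + 3)} (h0 : i ≠ 0) (h1 : i ≠ 1) (h2 : i ≠ 2) :
    wv p ε f γ s t i = xv p f γ s t := by
  unfold wv; rw [if_neg h0, if_neg h1, if_neg h2]

/-- equality of the direction at the first point -/
lemma dir_zero_prop {s t s' t' : ℂ}
    (h : t' • p 1 + s' • p 2 ∈ Submodule.span ℂ {t • p 1 + s • p 2, p 0}) (g : Good p ρ) :
    ∃ c : ℂ, s' = c * s ∧ t' = c * t := by
  obtain ⟨c, d, hcd⟩ := Submodule.mem_span_pair.mp h
  obtain ⟨_, e1, e2⟩ := g.indep (x := d) (y := c * t - t') (z := c * s - s') (by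
    have : d • p 0 + (c * t - t') • p 1 + (c * s - s') • p 2 =
      (c • (t • p 1 + s • p 2) + d • p 0) - (t' • p 1 + s' • p 2) := by module
    rw [this, hcd, sub_self])
  exact ⟨c, by linear_combination -e2, by linear_combination -e1⟩

lemma ddir_zero (b : Fin 2 → ℂ) (k' : Fin 2) :
    (g.curve FF).ddir b k' 0 = (if k' = 0 then p 2 else p 1) := by
  have h2 : (g.curve FF).w 0 = lin p 0 (C 1 * X 1) (C 1 * X 0) := by
    change wX p 1 F G 0 = _
    unfold wX
    rw [if_pos rfl]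
  have h3 : (g.curve FF).ddir b k' 0 = fun j => eval b (pderiv k' ((g.curve FF).w 0 j)) := rfl
  rw [h3, h2]
  simp only [lin_pderiv]
  rw [lin_eval]
  fin_cases k'
  · simp [pderiv_X_self, pderiv_X_of_ne (show (1 : Fin 2) ≠ 0 by decide)]
  · simp [pderiv_X_self, pderiv_X_of_ne (show (0 : Fin 2) ≠ 1 by decide)]

lemma curve_isEmbedding : (g.curve FF).IsEmbedding := by
  refine ⟨fun a b ha hb h => ?_, fun a ha => ?_⟩
  · have h0 := h.2 0
    rw [g.curve_dir FF, g.curve_dir FF, wv_zero, wv_zero] at h0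
    simp only [one_mul] at h0
    obtain ⟨c, h1, h2⟩ := dir_zero_prop h0 g
    refine ⟨c, ?_⟩
    funext i
    fin_cases i
    · exact h1
    · exact h2
  · by_contra hcon
    push Not at hcon
    have h0 := (hcon 0).2 0
    have h1 := (hcon 1).2 0
    rw [g.ddir_zero FF, g.curve_dir FF, wv_zero, if_pos rfl] at h0
    rw [g.ddir_zero FF, g.curve_dir FF, wv_zero, if_neg (by decide)] at h1
    simp only [one_mul] at h0 h1
    have h0' : (0 : ℂ) • p 1 + (1 : ℂ) • p 2 ∈
        Submodule.span ℂ {a 1 • p 1 + a 0 • p 2, p 0} := by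
      rw [zero_smul, one_smul, zero_add]; exact h0
    have h1' : (1 : ℂ) • p 1 + (0 : ℂ) • p 2 ∈
        Submodule.span ℂ {a 1 • p 1 + a 0 • p 2, p 0} := by
      rw [zero_smul, one_smul, add_zero]; exact h1
    obtain ⟨c, e1, e2⟩ := dir_zero_prop h0' g
    obtain ⟨d, e3, e4⟩ := dir_zero_prop h1' g
    have hc : c ≠ 0 := by rintro rfl; rw [zero_mul] at e1; exact one_ne_zero e1
    have ha1 : a 1 = 0 := (mul_eq_zero.mp e2.symm).resolve_left hc
    rw [ha1, mul_zero] at e4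
    exact one_ne_zero e4

end Good

end Pool.Agent.H403R4
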