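import Pool.Agent.H403R4.PlaneNormal

/-!
# Plane curves through three of the points: size `n - 2`
-/

open MvPolynomial

namespace Pool.Agent.H403R4

open Pool.Agent.H403R3

variable {N H : ℕ} {p : Fin (H + 3) → Vec (N + 3)} {ρ : Vec (N + 3) ≃ₗ[ℂ] Vec (N + 3)}

lemma tau_add (s t φ ψ φ' ψ' : ℂ) : tau p s t φ ψ + tau p s t φ' ψ' =
    tau p s t (φ + φ') (ψ + ψ') := by
  refine Prod.ext ?_ ?_
  · simp only [tau, xv, Prod.fst_add]
    module
  · funext i
    simp only [tau, Prod.snd_add, Pi.add_apply, wv]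
    split_ifs
    · module
    · module
    · module
    · simp only [xv]; module

lemma tau_smul (s t φ ψ c : ℂ) : c • tau p s t φ ψ = tau p s t (c * φ) (c * ψ) := by
  refine Prod.ext ?_ ?_
  · simp only [tau, xv, Prod.smul_fst]
    module
  · funext i
    simp only [tau, Prod.smul_snd, Pi.smul_apply, wv]
    split_ifs
    · module
    · module
    · module
    · simp only [xv]; module

noncomputable def Phi (k : ℕ) : Fin 4 → MvPolynomial (Fin 2) ℂ :=
  ![X 0 ^ (k + 1), X 1 ^ (k + 1), 0, 0]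

noncomputable def Psi (k : ℕ) : Fin 4 → MvPolynomial (Fin 2) ℂ :=
  ![0, 0, X 0 ^ k, X 1 ^ k]

lemma Phi_hom (k : ℕ) (l : Fin 4) : (Phi k l).IsHomogeneous (k + 1) := by
  have h : ∀ i : Fin 2, (X i ^ (k + 1) : MvPolynomial (Fin 2) ℂ).IsHomogeneous (k + 1) :=
    fun i => by simpa using (X_hom i).pow (k + 1)
  fin_cases l
  · exact h 0
  · exact h 1
  · exact isHomogeneous_zero _ _ _
  · exact isHomogeneous_zero _ _ _

lemma Psi_hom (k : ℕ) (l : Fin 4) : (Psi k l).IsHomogeneous k := by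
  have h : ∀ i : Fin 2, (X i ^ k : MvPolynomial (Fin 2) ℂ).IsHomogeneous k :=
    fun i => by simpa using (X_hom i).pow k
  fin_cases l
  · exact isHomogeneous_zero _ _ _
  · exact isHomogeneous_zero _ _ _
  · exact h 0
  · exact h 1

/-- the values of a combination of powers can be prescribed -/
lemma exists_comb (k : ℕ) {s t : ℂ} (hst : ¬ (s = 0 ∧ t = 0)) (y : ℂ) :
    ∃ x x' : ℂ, x * s ^ k + x' * t ^ k = y := by
  by_cases hs : s = 0
  · have ht : t ≠ 0 := fun ht => hst ⟨hs, ht⟩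
    exact ⟨0, y / t ^ k, by rw [div_mul_cancel₀ _ (pow_ne_zero k ht)]; ring⟩
  · exact ⟨y / s ^ k, 0, by rw [div_mul_cancel₀ _ (pow_ne_zero k hs)]; ring⟩

namespace Good

variable (g : Good p ρ) {k : ℕ} {F G : MvPolynomial (Fin 2) ℂ} (FF : Forms k F G)

lemma eval_lin_isPl (P Q R : MvPolynomial (Fin 2) ℂ) (b : Fin 2 → ℂ) (g : Good p ρ) :
    IsPl ρ (fun j => eval b (lin p P Q R j)) := by
  rw [lin_eval]
  exact g.isPl_comb _ _ _

include g in
lemma pairPl_deriv (b : Fin 2 → ℂ) (κ : Fin 2) : PairPl ρ ((g.curve FF).deriv κ b) := by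
  have e : ∀ (P Q R : MvPolynomial (Fin 2) ℂ) (f : Fin (N + 3 + 1) → MvPolynomial (Fin 2) ℂ),
      f = lin p P Q R → IsPl ρ (fun j => eval b (pderiv κ (f j))) := by
    intro P Q R f hf
    rw [hf]
    simp only [lin_pderiv]
    exact eval_lin_isPl _ _ _ b g
  refine ⟨e _ _ _ ((g.curve FF).f) rfl, e 0 (C 1 * X 1) (C 1 * X 0) ((g.curve FF).w 0) ?_,
    e (G * X 1) 0 F ((g.curve FF).w 1) ?_, e (G * X 0) F 0 ((g.curve FF).w 2) ?_⟩
  · change wX p 1 F G 0 = _
    unfold wX; rw [if_pos rfl]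
  · change wX p 1 F G 1 = _
    unfold wX; rw [if_neg i01.symm, if_pos rfl]
  · change wX p 1 F G 2 = _
    unfold wX; rw [if_neg i02.symm, if_neg i12.symm, if_pos rfl]

lemma PairPl.sum {r : ℕ} {c : Fin r → ℂ} {v : Fin r → Vec (N + 3) × (Fin (H + 3) → Vec (N + 3))}
    (hv : ∀ l, PairPl ρ (v l)) : PairPl ρ (∑ l, c l • v l) := by
  have h0 : PairPl ρ (0 : Vec (N + 3) × (Fin (H + 3) → Vec (N + 3))) := by
    refine ⟨?_, ?_, ?_, ?_⟩ <;> · intro m; simp
  refine Finset.sum_induction _ (PairPl ρ) (fun a b ha hb => ha.add hb) h0 fun l _ => ?_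
  exact (hv l).smul _

include g in
lemma pairPl_vertical {f γ s t : ℂ} {v : Vec (N + 3) × (Fin (H + 3) → Vec (N + 3))}
    (hv : v ∈ vertical p (xv p f γ s t) (wv p 1 f γ s t)) : PairPl ρ v := by
  refine ⟨?_, isPl_of_mem (g.isPl_wv 1 f γ s t).1 g.isPl_p0 (hv.2 0),
    isPl_of_mem (g.isPl_wv 1 f γ s t).2.1 g.isPl_p1 (hv.2 1),
    isPl_of_mem (g.isPl_wv 1 f γ s t).2.2 g.isPl_p2 (hv.2 2)⟩
  obtain ⟨c, hc⟩ := Submodule.mem_span_singleton.mp hv.1
  rw [← hc]
  exact (g.isPl_xv f γ s t).smul c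

lemma coord_sum (c : Fin (N + 1) → ℂ) (κ : ℂ) (m : Fin (N + 1)) :
    ρ (∑ m, c m • (κ • qv ρ m)) (jj m) = c m * κ := by
  rw [map_sum, Finset.sum_apply, Finset.sum_eq_single m]
  · rw [map_smul, map_smul, Pi.smul_apply, Pi.smul_apply, qv_coord, if_pos rfl]
    simp
  · intro m' _ hm'
    rw [map_smul, map_smul, Pi.smul_apply, Pi.smul_apply, qv_coord, if_neg hm']
    simp
  · intro h; exact absurd (Finset.mem_univ m) h

lemma indep_sig {f γ s t : ℂ} (V : Vals f γ s t) {c : Fin (N + 1) → ℂ}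
    (h : PairPl ρ (∑ m, c m • (sig ρ f s t m : Vec (N + 3) × (Fin (H + 3) → Vec (N + 3))))) :
    c = 0 := by
  have h1 : IsPl ρ (∑ m, c m • ((f * s * t) • qv ρ m)) := by
    have := h.z
    rw [Prod.fst_sum] at this
    exact this
  have h2 : ∀ i : Fin (H + 3), (∑ m, c m • (sig ρ f s t m :
      Vec (N + 3) × (Fin (H + 3) → Vec (N + 3)))).2 i = ∑ m, c m • (Cv f s t i • qv ρ m) := by
    intro i
    rw [Prod.snd_sum, Finset.sum_apply]; rfl
  have e0 := h.z0
  have e1 := h.z1
  have e2 := h.z2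
  rw [h2, Cv_zero] at e0
  rw [h2, Cv_one] at e1
  rw [h2, Cv_two] at e2
  funext m
  have r0 := e0 m
  have r1 := e1 m
  have r2 := e2 m
  rw [coord_sum] at r0 r1 r2
  rw [Pi.zero_apply]
  by_contra hc
  have r0' := (mul_eq_zero.mp r0).resolve_left hc
  have r1' := (mul_eq_zero.mp r1).resolve_left hc
  have r2' := (mul_eq_zero.mp r2).resolve_left hc
  by_cases hf : f = 0
  · rcases mul_eq_zero.mp r0' with h | h
    · exact V.fs ⟨hf, h⟩
    · exact V.ft ⟨hf, h⟩
  · exact V.st ⟨(mul_eq_zero.mp r2').resolve_left hf, (mul_eq_zero.mp r1').resolve_left hf⟩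

lemma hasNormalSize : HasNormalSize (g.curve FF) (N + 1) := by
  refine ⟨4, fun m j => F * X 0 * X 1 * C (qv ρ m j), fun m i j => sX F i * C (qv ρ m j),
    fun l => fX p (Phi k l) (Psi k l), fun l i => wX p 0 (Phi k l) (Psi k l) i,
    ?_, ?_, ?_, ?_, ?_⟩
  · intro m j
    have := ((FF.hF.mul (X_hom 0)).mul (X_hom 1)).mul (isHomogeneous_C (Fin 2) (qv ρ m j))
    simp only [add_zero] at this
    exact this
  · intro m i j
    have h : (sX F i).IsHomogeneous (eX k i + 1) := by
      unfold sX eX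
      split_ifs
      · exact (X_hom 0).mul (X_hom 1)
      · exact FF.hF.mul (X_hom 1)
      · exact FF.hF.mul (X_hom 0)
      · exact (FF.hF.mul (X_hom 0)).mul (X_hom 1)
    have := h.mul (isHomogeneous_C (Fin 2) (qv ρ m j))
    simp only [add_zero] at this
    exact this
  · intro l j
    exact fX_hom (Phi_hom k l) (Psi_hom k l) j
  · intro l i j
    exact wX_hom 0 (Phi_hom k l) (Psi_hom k l) i j
  · intro b hb
    have V := FF.vals b hb
    set f := eval b F with hf
    set γ := eval b G with hγ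
    set s := b 0 with hs
    set t := b 1 with ht
    have ex : (g.curve FF).x b = xv p f γ s t := g.curve_x FF b
    have ed : (g.curve FF).dir b = wv p 1 f γ s t := g.curve_dir FF b
    have eσ : ∀ m, (((fun j => eval b (F * X 0 * X 1 * C (qv ρ m j))),
        fun i j => eval b (sX F i * C (qv ρ m j))) :
          Vec (N + 3) × (Fin (H + 3) → Vec (N + 3))) = sig ρ f s t m := by
      intro m
      refine Prod.ext ?_ ?_
      · funext j
        simp [sig, hf, hs, ht]
      · funext i j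
        change eval b (sX F i * C (qv ρ m j)) = Cv f s t i * qv ρ m j
        rw [map_mul, eval_sX, eval_C]
    have eτ : ∀ l, (((fun j => eval b (fX p (Phi k l) (Psi k l) j)),
        fun i j => eval b (wX p 0 (Phi k l) (Psi k l) i j)) :
          Vec (N + 3) × (Fin (H + 3) → Vec (N + 3))) =
            tau p s t (eval b (Phi k l)) (eval b (Psi k l)) := by
      intro l
      refine Prod.ext ?_ ?_
      · exact eval_fX _ _ b
      · funext i
        exact eval_wX 0 _ _ b i
    rw [isSplitting_iff]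
    simp only [eσ, eτ]
    rw [ex, ed]
    refine ⟨g.sig_mem V, fun l => g.tau_mem V _ _, ?_, ?_⟩
    · intro c d hcd
      rw [mem_tangentLine_iff, ex, ed] at hcd
      obtain ⟨k₀, k₁, hk⟩ := hcd
      have h1 := g.pairPl_vertical hk
      have h2 := ((h1.add ((g.pairPl_deriv FF b 1).smul k₁)).add
        ((g.pairPl_deriv FF b 0).smul k₀)).sub
          (PairPl.sum (c := d) fun l => g.pairPl_tau s t (eval b (Phi k l)) (eval b (Psi k l)))
      refine indep_sig (ρ := ρ) (H := H) V ?_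
      convert h2 using 1
      abel
    · intro v hv
      obtain ⟨c, hc⟩ := g.step1 V v hv
      set v1 := v - ∑ m, c m • (sig ρ f s t m : Vec (N + 3) × (Fin (H + 3) → Vec (N + 3)))
        with hv1
      have hv1T : v1 ∈ tangentCone p (xv p f γ s t) (wv p 1 f γ s t) :=
        Submodule.sub_mem _ hv (Submodule.sum_mem _ fun m _ =>
          Submodule.smul_mem _ _ (g.sig_mem V m))
      have e10 := g.eq_of (v1.2 0) hc.z0
      set x0 := ρ (v1.2 0) 0
      set y0 := ρ (v1.2 0) 1
      set z0 := ρ (v1.2 0) 2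
      have hT0 := deriv_mem_tangent g.p_ne (g.curve FF) hb 0
      have hT1 := deriv_mem_tangent g.p_ne (g.curve FF) hb 1
      rw [ex, ed] at hT0 hT1
      set v2 := v1 - z0 • (g.curve FF).deriv 0 b - y0 • (g.curve FF).deriv 1 b with hv2
      have hv2T : v2 ∈ tangentCone p (xv p f γ s t) (wv p 1 f γ s t) :=
        Submodule.sub_mem _ (Submodule.sub_mem _ hv1T (Submodule.smul_mem _ _ hT0))
          (Submodule.smul_mem _ _ hT1)
      have hv2P : PairPl ρ v2 :=
        (hc.sub ((g.pairPl_deriv FF b 0).smul _)).sub ((g.pairPl_deriv FF b 1).smul _)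
      have hv20 : v2.2 0 = x0 • p 0 := by
        have d0 : ((g.curve FF).deriv 0 b).2 0 = p 2 := by
          have := g.ddir_zero FF b 0
          rwa [if_pos rfl] at this
        have d1 : ((g.curve FF).deriv 1 b).2 0 = p 1 := by
          have := g.ddir_zero FF b 1
          rwa [if_neg (by decide)] at this
        have : v2.2 0 = v1.2 0 - z0 • ((g.curve FF).deriv 0 b).2 0 -
          y0 • ((g.curve FF).deriv 1 b).2 0 := rfl
        rw [this, d0, d1, e10]
        module
      obtain ⟨y, hy⟩ := g.step3 V v2 hv2T hv2P hv20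
      -- the values
      obtain ⟨φ, ψ, hφψ⟩ : ∃ φ ψ : ℂ, ψ * f - φ * γ = y := by
        by_cases hf0 : f = 0
        · have hγ0 : γ ≠ 0 := fun h => V.fg ⟨hf0, h⟩
          refine ⟨-(y / γ), 0, ?_⟩
          rw [neg_mul, div_mul_cancel₀ _ hγ0]
          ring
        · refine ⟨0, y / f, ?_⟩
          rw [div_mul_cancel₀ _ hf0]
          ring
      obtain ⟨d0, d1, hd⟩ := exists_comb (k + 1) V.st φ
      obtain ⟨d2, d3, hd'⟩ := exists_comb k V.st ψ
      refine ⟨c, ![d0, d1, d2, d3], ?_⟩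
      have hsum : ∑ l, (![d0, d1, d2, d3] : Fin 4 → ℂ) l •
          tau p s t (eval b (Phi k l)) (eval b (Psi k l)) = tau p s t φ ψ := by
        rw [Fin.sum_univ_four]
        simp only [tau_smul, tau_add]
        congr 1
        · rw [← hd]
          simp [Phi, hs, ht]
        · rw [← hd']
          simp [Psi, hs, ht]
      rw [hsum, mem_tangentLine_iff, ex, ed]
      refine ⟨z0, y0, ?_⟩
      have := hy φ ψ hφψ
      convert this using 1
      rw [hv2, hv1]
      abel

end Good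

end Pool.Agent.H403R4
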