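import Pool.Agent.H403R4.PlaneFinal

/-!
# Infinitely many plane curves through three of the points
-/

open MvPolynomial

namespace Pool.Agent.H403R4

open Pool.Agent.H403R3

variable {N H : ℕ} {p : Fin (H + 3) → Vec (N + 3)} {ρ : Vec (N + 3) ≃ₗ[ℂ] Vec (N + 3)}

/-- the forms -/
noncomputable def FF (k : ℕ) : MvPolynomial (Fin 2) ℂ := X 0 ^ (k + 1) + X 1 ^ (k + 1)

noncomputable def GG (k : ℕ) : MvPolynomial (Fin 2) ℂ := X 0 ^ k

lemma forms (k : ℕ) : Forms k (FF k) (GG k) where
  hF := by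
    unfold FF
    have h : ∀ i : Fin 2, (X i ^ (k + 1) : MvPolynomial (Fin 2) ℂ).IsHomogeneous (k + 1) :=
      fun i => by simpa using (X_hom i).pow (k + 1)
    exact (h 0).add (h 1)
  hG := by
    unfold GG
    simpa using (X_hom 0).pow k
  vals := by
    intro b hb
    have hst := pt_ne hb
    have e1 : eval b (FF k) = b 0 ^ (k + 1) + b 1 ^ (k + 1) := by simp [FF]
    have e2 : eval b (GG k) = b 0 ^ k := by simp [GG]
    have hfs : ¬ (eval b (FF k) = 0 ∧ b 0 = 0) := by
      rintro ⟨h1, h2⟩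
      rw [e1, h2, zero_pow (Nat.succ_ne_zero k), zero_add] at h1
      exact hst ⟨h2, pow_eq_zero_iff (Nat.succ_ne_zero k) |>.mp h1⟩
    refine ⟨hst, hfs, ?_, ?_⟩
    · rintro ⟨h1, h2⟩
      rw [e1, h2, zero_pow (Nat.succ_ne_zero k), add_zero] at h1
      exact hst ⟨pow_eq_zero_iff (Nat.succ_ne_zero k) |>.mp h1, h2⟩
    · rintro ⟨h1, h2⟩
      rw [e2] at h2
      have h3 : b 0 = 0 := by
        by_contra h
        exact pow_ne_zero k h h2
      exact hfs ⟨h1, h3⟩

namespace Good

variable (g : Good p ρ)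

lemma isMinusOne (k : ℕ) : IsMinusOneOfSize (g.curve (forms k)) (N + 1) :=
  ⟨by omega, by omega, g.curve_isEmbedding _, g.hasNormalSize _⟩

lemma curve_x' (k : ℕ) (b : Fin 2 → ℂ) : (g.curve (forms k)).x b =
    xv p (b 0 ^ (k + 1) + b 1 ^ (k + 1)) (b 0 ^ k) (b 0) (b 1) := by
  rw [g.curve_x]
  congr 1
  · simp [FF]
  · simp [GG]

lemma not_exc (k : ℕ) : ¬ InExceptional (g.curve (forms k)) := by
  rintro ⟨i, hi⟩
  have h := hi ![1, 1] (by
    intro h
    have := congrFun h 0
    simp at this)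
  rw [g.curve_x'] at h
  simp only [Matrix.cons_val_zero, Matrix.cons_val_one, one_pow] at h
  obtain ⟨c, hc⟩ := Submodule.mem_span_singleton.mp h
  have hx := g.xv_coord (1 + 1) 1 1 1
  by_cases h0 : i = 0
  · subst h0
    have := hx.2.1
    rw [← hc, map_smul, g.h0, Pi.smul_apply, Pi.single_eq_of_ne j01.symm] at this
    norm_num at this
  by_cases h1 : i = 1
  · subst h1
    have := hx.1
    rw [← hc, map_smul, g.h1, Pi.smul_apply, Pi.single_eq_of_ne j01] at this
    norm_num at this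
  by_cases h2 : i = 2
  · subst h2
    have := hx.1
    rw [← hc, map_smul, g.h2, Pi.smul_apply, Pi.single_eq_of_ne j02] at this
    norm_num at this
  obtain ⟨m, hm⟩ := g.h3 i h0 h1 h2
  have h3 := hx.2.2.2 m
  rw [← hc, map_smul, Pi.smul_apply, smul_eq_mul] at h3
  have hc0 := (mul_eq_zero.mp h3).resolve_right hm
  have := hx.1
  rw [← hc, hc0, zero_smul, map_zero] at this
  norm_num at this

lemma points_inj : Function.Injective fun k => points (g.curve (forms k)) := by
  intro k k' hkk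
  have hb0 : (![2, 1] : Fin 2 → ℂ) ≠ 0 := by
    intro h
    have := congrFun h 1
    simp at this
  have h1 : (((g.curve (forms k)).x ![2, 1], (g.curve (forms k)).dir ![2, 1]) :
      Vec (N + 3) × (Fin (H + 3) → Vec (N + 3))) ∈ points (g.curve (forms k)) := by
    refine ⟨(g.curve (forms k)).isPoint _ hb0, ![2, 1], hb0,
      Submodule.mem_span_singleton_self _, fun i => left_mem _ _⟩
  have hkk' : points (g.curve (forms k)) = points (g.curve (forms k')) := hkk
  rw [hkk'] at h1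
  obtain ⟨_, b, hb, h2, h3⟩ := h1
  have h30 := h3 0
  simp only at h2 h30
  rw [g.curve_dir, g.curve_dir, wv_zero, wv_zero] at h30
  simp only [one_mul] at h30
  obtain ⟨c, hc1, hc2⟩ := dir_zero_prop h30 g
  simp only [Matrix.cons_val_zero, Matrix.cons_val_one] at hc1 hc2
  have hc : c ≠ 0 := by rintro rfl; rw [zero_mul] at hc2; exact one_ne_zero hc2
  have hb1 : b 1 ≠ 0 := by intro h; rw [h, mul_zero] at hc2; exact one_ne_zero hc2
  have hb0' : b 0 = 2 * b 1 := by
    have : c * b 0 = c * (2 * b 1) := by linear_combination -hc1 + 2 * hc2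
    exact mul_left_cancel₀ hc this
  rw [g.curve_x', g.curve_x'] at h2
  obtain ⟨d, hd⟩ := Submodule.mem_span_singleton.mp h2
  have e1 := g.xv_coord (b 0 ^ (k' + 1) + b 1 ^ (k' + 1)) (b 0 ^ k') (b 0) (b 1)
  have e2 := g.xv_coord ((![2, 1] : Fin 2 → ℂ) 0 ^ (k + 1) + (![2, 1] : Fin 2 → ℂ) 1 ^ (k + 1))
    ((![2, 1] : Fin 2 → ℂ) 0 ^ k) ((![2, 1] : Fin 2 → ℂ) 0) ((![2, 1] : Fin 2 → ℂ) 1)
  rw [← hd, map_smul] at e2
  simp only [Pi.smul_apply, e1.1, e1.2.1, smul_eq_mul, Matrix.cons_val_zero,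
    Matrix.cons_val_one, one_pow, mul_one] at e2
  obtain ⟨f1, f2, _⟩ := e2
  rw [hb0'] at f1 f2
  set L := d * b 1 ^ (k' + 2) with hL
  have g1 : L * 2 ^ (k' + 1) = 2 ^ (k + 1) := by
    rw [hL]
    linear_combination f1
  have g2 : L * (2 ^ (k' + 1) + 1) = 2 ^ (k + 1) + 1 := by
    rw [hL]
    linear_combination f2
  have hL1 : L = 1 := by linear_combination g2 - g1
  rw [hL1, one_mul] at g1
  have g3 : (2 : ℕ) ^ (k' + 1) = 2 ^ (k + 1) := by exact_mod_cast g1
  have := Nat.pow_right_injective (le_refl 2) g3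
  omega

include g in
theorem infinite_off : (minusOneCurvesOff p).Infinite := by
  refine Set.infinite_of_injective_forall_mem g.points_inj fun k => ?_
  exact ⟨g.curve (forms k), N + 1, g.isMinusOne k, g.not_exc k, rfl⟩

include g in
theorem infinite_classes : (minusOneClasses p).Infinite := by
  refine Set.infinite_of_injective_forall_mem (f := fun k : ℕ => (g.curve (forms k)).cls)
    ?_ fun k => ?_
  · intro k k' h
    have h1 : (((k + 2 : ℕ) : ℤ)) = ((k' + 2 : ℕ) : ℤ) := congrArg Prod.fst h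
    omega
  · exact ⟨g.curve (forms k), N + 1, g.isMinusOne k, rfl⟩

end Good

end Pool.Agent.H403R4
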