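import Pool.Agent.H403R4.Basic

/-!
# The derivatives of a curve are tangent vectors
-/

open MvPolynomial

namespace Pool.Agent.H403R4

open Pool.Agent.H403R3

/-- a polynomial which vanishes at all nonzero points is zero -/
lemma poly_zero (P : MvPolynomial (Fin 2) ℂ) (hP : ∀ b : Fin 2 → ℂ, b ≠ 0 → eval b P = 0) :
    P = 0 := by
  have h : X 0 * P = 0 := by
    refine MvPolynomial.funext fun b => ?_
    rw [map_mul, eval_X, map_zero]
    by_cases hb : b = 0
    · rw [hb, Pi.zero_apply, zero_mul]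
    · rw [hP b hb, mul_zero]
  rcases mul_eq_zero.mp h with h | h
  · exact absurd h (X_ne_zero 0)
  · exact h

lemma minor_ne {n : ℕ} {w q : Vec n} (hw : w ∉ Submodule.span ℂ {q}) (hq : q ≠ 0) :
    ∃ j k, w j * q k - w k * q j ≠ 0 := by
  by_contra hcon
  push Not at hcon
  obtain ⟨k, hk⟩ : ∃ k, q k ≠ 0 := by
    by_contra h
    push Not at h
    exact hq (funext h)
  apply hw
  rw [Submodule.mem_span_singleton]
  refine ⟨w k / q k, ?_⟩
  funext j
  rw [Pi.smul_apply, smul_eq_mul]
  field_simp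
  linear_combination -(hcon j k)

variable {n h : ℕ} {p : Fin h → Vec n}

lemma point_coeffs {x : Vec n} {w : Fin h → Vec n} (hx : IsPoint p x w) (i : Fin h) :
    ∃ A B : ℂ, x = A • w i + B • p i := by
  obtain ⟨A, B, hAB⟩ := Submodule.mem_span_pair.mp (hx.mem i)
  exact ⟨A, B, hAB.symm⟩

theorem deriv_mem_tangent (hp : ∀ i, p i ≠ 0) (γ : RatCurve p) {b : Fin 2 → ℂ} (hb : b ≠ 0)
    (κ : Fin 2) : γ.deriv κ b ∈ tangentCone p (γ.x b) (γ.dir b) := by
  have hpt : ∀ a : Fin 2 → ℂ, a ≠ 0 → IsPoint p (γ.x a) (γ.dir a) := γ.isPoint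
  choose A hA using fun i => point_coeffs (hpt b hb) i
  choose B hB using hA
  rw [tangent_iff hp (hpt b hb).notMem A B hB]
  intro i
  obtain ⟨j, k, hjk⟩ := minor_ne ((hpt b hb).notMem i) (hp i)
  set D : MvPolynomial (Fin 2) ℂ := γ.w i j * C (p i k) - γ.w i k * C (p i j) with hD
  set A' : MvPolynomial (Fin 2) ℂ := γ.f j * C (p i k) - γ.f k * C (p i j) with hA'
  set B' : MvPolynomial (Fin 2) ℂ := γ.w i j * γ.f k - γ.w i k * γ.f j with hB'
  have hrel : ∀ l, D * γ.f l = A' * γ.w i l + B' * C (p i l) := by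
    intro l
    rw [← sub_eq_zero]
    refine poly_zero _ fun a ha => ?_
    obtain ⟨x, y, hxy⟩ := point_coeffs (hpt a ha) i
    have e : ∀ m, eval a (γ.f m) = x * eval a (γ.w i m) + y * p i m := fun m => congrFun hxy m
    simp only [hD, hA', hB', map_sub, map_mul, map_add, eval_C, e]
    ring
  have hder : ∀ l, eval b (pderiv κ D) * eval b (γ.f l) + eval b D * eval b (pderiv κ (γ.f l)) =
      eval b (pderiv κ A') * eval b (γ.w i l) + eval b A' * eval b (pderiv κ (γ.w i l)) +
        eval b (pderiv κ B') * p i l := by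
    intro l
    have := congrArg (fun P => eval b (pderiv κ P)) (hrel l)
    simp only [map_add, Derivation.leibniz, pderiv_C, smul_eq_mul, map_mul, eval_C,
      map_zero] at this
    linear_combination this
  have hA0 : eval b A' = A i * eval b D := by
    have e : ∀ m, eval b (γ.f m) = A i * eval b (γ.w i m) + B i * p i m :=
      fun m => congrFun (hB i) m
    simp only [hD, hA', map_sub, map_mul, eval_C, e]
    ring
  have hD0 : eval b D ≠ 0 := by
    simp only [hD, map_sub, map_mul, eval_C]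
    exact hjk
  have key : eval b D • ((γ.deriv κ b).1 - A i • (γ.deriv κ b).2 i) =
      eval b (pderiv κ A') • γ.dir b i + eval b (pderiv κ B') • p i -
        eval b (pderiv κ D) • γ.x b := by
    funext l
    have := hder l
    rw [hA0] at this
    simp only [RatCurve.deriv, RatCurve.dx, RatCurve.ddir, RatCurve.dir, RatCurve.x,
      Pi.sub_apply, Pi.add_apply, Pi.smul_apply, smul_eq_mul]
    linear_combination this
  have h2 : eval b D • ((γ.deriv κ b).1 - A i • (γ.deriv κ b).2 i) ∈
      Submodule.span ℂ {γ.dir b i, p i} := by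
    rw [key]
    exact Submodule.sub_mem _ (mem_pair _ _) (Submodule.smul_mem _ _ ((hpt b hb).mem i))
  exact (Submodule.smul_mem_iff _ hD0).mp h2

theorem tangentLine_le (hp : ∀ i, p i ≠ 0) (γ : RatCurve p) {b : Fin 2 → ℂ} (hb : b ≠ 0) :
    γ.tangentLine b ≤ tangentCone p (γ.x b) (γ.dir b) := by
  unfold RatCurve.tangentLine
  refine sup_le (vertical_le_tangent (γ.isPoint b hb).mem) ?_
  rw [Submodule.span_le]
  rintro _ ⟨k, rfl⟩
  exact deriv_mem_tangent hp γ hb k

end Pool.Agent.H403R4
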