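import Pool.Agent.H403R4.PlaneCurve
import Pool.Agent.H403R4.Tangent

/-!
# Plane curves through three of the points: the normal bundle
-/

open MvPolynomial

namespace Pool.Agent.H403R4

open Pool.Agent.H403R3

variable {N H : ℕ} {p : Fin (H + 3) → Vec (N + 3)} {ρ : Vec (N + 3) ≃ₗ[ℂ] Vec (N + 3)}

/-- the normal directions -/
noncomputable def qv (ρ : Vec (N + 3) ≃ₗ[ℂ] Vec (N + 3)) (m : Fin (N + 1)) : Vec (N + 3) :=
  ρ.symm (Pi.single (jj m) 1)

lemma jj_inj {m m' : Fin (N + 1)} (h : m ≠ m') : (jj m : Fin (N + 3 + 1)) ≠ jj m' := by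
  intro h1
  apply h
  have := congrArg Fin.val h1
  simp only [jj] at this
  exact Fin.ext (by omega)

lemma qv_coord (m m' : Fin (N + 1)) : ρ (qv ρ m) (jj m') = if m = m' then 1 else 0 := by
  unfold qv
  rw [LinearEquiv.apply_symm_apply]
  split_ifs with h
  · subst h; simp
  · rw [Pi.single_eq_of_ne (jj_inj h).symm]

lemma qv_coord0 (m : Fin (N + 1)) : ρ (qv ρ m) 0 = 0 ∧ ρ (qv ρ m) 1 = 0 ∧ ρ (qv ρ m) 2 = 0 := by
  unfold qv
  rw [LinearEquiv.apply_symm_apply]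
  exact ⟨Pi.single_eq_of_ne (j0m m) _, Pi.single_eq_of_ne (j1m m) _,
    Pi.single_eq_of_ne (j2m m) _⟩

/-- coefficients of the first sections -/
noncomputable def sX (F : MvPolynomial (Fin 2) ℂ) (i : Fin (H + 3)) : MvPolynomial (Fin 2) ℂ :=
  if i = 0 then X 0 * X 1 else if i = 1 then F * X 1 else if i = 2 then F * X 0
  else F * X 0 * X 1

def Cv (f s t : ℂ) (i : Fin (H + 3)) : ℂ :=
  if i = 0 then s * t else if i = 1 then f * t else if i = 2 then f * s else f * s * t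

lemma eval_sX (F : MvPolynomial (Fin 2) ℂ) (b : Fin 2 → ℂ) (i : Fin (H + 3)) :
    eval b (sX F i) = Cv (eval b F) (b 0) (b 1) i := by
  unfold sX Cv
  split_ifs <;> simp

lemma Av_mul_Cv (f s t : ℂ) (i : Fin (H + 3)) : Av f s t i * Cv f s t i = f * s * t := by
  unfold Av Cv
  split_ifs <;> ring

/-- the first kind of sections, at a point -/
noncomputable def sig (ρ : Vec (N + 3) ≃ₗ[ℂ] Vec (N + 3)) (f s t : ℂ) (m : Fin (N + 1)) :
    Vec (N + 3) × (Fin (H + 3) → Vec (N + 3)) :=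
  ((f * s * t) • qv ρ m, fun i => Cv f s t i • qv ρ m)

/-- the second kind of sections, at a point -/
noncomputable def tau (p : Fin (H + 3) → Vec (N + 3)) (s t φ ψ : ℂ) :
    Vec (N + 3) × (Fin (H + 3) → Vec (N + 3)) :=
  (xv p φ ψ s t, wv p 0 φ ψ s t)

namespace Good

variable (g : Good p ρ)

lemma xv_p_eq (f γ s t : ℂ) (i : Fin (H + 3)) (φ ψ : ℂ) :
    ∃ c d : ℂ, xv p φ ψ s t - Av f s t i • wv p 0 φ ψ s t i =
      c • wv p 1 f γ s t i + d • p i := by
  unfold Av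
  by_cases h0 : i = 0
  · subst h0
    refine ⟨φ, ψ * s * t, ?_⟩
    rw [wv_zero, wv_zero, if_pos rfl]
    unfold xv
    module
  by_cases h1 : i = 1
  · subst h1
    refine ⟨0, φ * t, ?_⟩
    rw [wv_one, wv_one, if_neg i01.symm, if_pos rfl]
    unfold xv
    module
  by_cases h2 : i = 2
  · subst h2
    refine ⟨0, φ * s, ?_⟩
    rw [wv_two, wv_two, if_neg i02.symm, if_neg i12.symm, if_pos rfl]
    unfold xv
    module
  refine ⟨0, 0, ?_⟩
  rw [wv_other _ _ _ _ _ h0 h1 h2, if_neg h0, if_neg h1, if_neg h2]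
  module

variable {f γ s t : ℂ} (V : Vals f γ s t)

include g V in
lemma mem_T (v : Vec (N + 3) × (Fin (H + 3) → Vec (N + 3))) :
    v ∈ tangentCone p (xv p f γ s t) (wv p 1 f γ s t) ↔
      ∀ i, v.1 - Av f s t i • v.2 i ∈ Submodule.span ℂ {wv p 1 f γ s t i, p i} :=
  tangent_iff g.p_ne (g.wv_notMem V) (Av f s t) (Bv f γ s t) (xv_eq f γ s t) v

include g V in
lemma tau_mem (φ ψ : ℂ) : tau p s t φ ψ ∈ tangentCone p (xv p f γ s t) (wv p 1 f γ s t) := by
  rw [g.mem_T V]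
  intro i
  obtain ⟨c, d, h⟩ := xv_p_eq f γ s t i φ ψ (p := p)
  simp only [tau]
  rw [h]
  exact mem_pair _ _

include g V in
lemma sig_mem (m : Fin (N + 1)) : (sig ρ f s t m : Vec (N + 3) × (Fin (H + 3) → Vec (N + 3))) ∈
    tangentCone p (xv p f γ s t) (wv p 1 f γ s t) := by
  rw [g.mem_T V]
  intro i
  simp only [sig]
  rw [smul_smul, Av_mul_Cv, sub_self]
  exact Submodule.zero_mem _

/-- the vectors of the plane spanned by the first three points -/
def IsPl (ρ : Vec (N + 3) ≃ₗ[ℂ] Vec (N + 3)) (v : Vec (N + 3)) : Prop := ∀ m, ρ v (jj m) = 0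

include g in
lemma isPl_comb (x y z : ℂ) : IsPl ρ (x • p 0 + y • p 1 + z • p 2) :=
  (g.coord x y z _ rfl).2.2.2

lemma IsPl.add {u v : Vec (N + 3)} (hu : IsPl ρ u) (hv : IsPl ρ v) : IsPl ρ (u + v) := by
  intro m; rw [map_add, Pi.add_apply, hu m, hv m, add_zero]

lemma IsPl.smul {u : Vec (N + 3)} (c : ℂ) (hu : IsPl ρ u) : IsPl ρ (c • u) := by
  intro m; rw [map_smul, Pi.smul_apply, hu m, smul_zero]

lemma IsPl.sub {u v : Vec (N + 3)} (hu : IsPl ρ u) (hv : IsPl ρ v) : IsPl ρ (u - v) := by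
  intro m; rw [map_sub, Pi.sub_apply, hu m, hv m, sub_zero]

include g in
lemma isPl_xv (f γ s t : ℂ) : IsPl ρ (xv p f γ s t) := g.isPl_comb _ _ _

include g in
lemma isPl_p0 : IsPl ρ (p 0) := by
  have := g.isPl_comb 1 0 0
  simpa using this

include g in
lemma isPl_p1 : IsPl ρ (p 1) := by
  have := g.isPl_comb 0 1 0
  simpa using this

include g in
lemma isPl_p2 : IsPl ρ (p 2) := by
  have := g.isPl_comb 0 0 1
  simpa using this

include g in
lemma isPl_wv (ε f γ s t : ℂ) : IsPl ρ (wv p ε f γ s t 0) ∧ IsPl ρ (wv p ε f γ s t 1) ∧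
    IsPl ρ (wv p ε f γ s t 2) := by
  rw [wv_zero, wv_one, wv_two]
  exact ⟨(g.isPl_p1.smul _).add (g.isPl_p2.smul _), (g.isPl_p0.smul _).add (g.isPl_p2.smul _),
    (g.isPl_p0.smul _).add (g.isPl_p1.smul _)⟩

/-- pairs which are in the plane at the first three points -/
structure PairPl (ρ : Vec (N + 3) ≃ₗ[ℂ] Vec (N + 3))
    (v : Vec (N + 3) × (Fin (H + 3) → Vec (N + 3))) : Prop where
  z : IsPl ρ v.1
  z0 : IsPl ρ (v.2 0)
  z1 : IsPl ρ (v.2 1)
  z2 : IsPl ρ (v.2 2)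

lemma PairPl.add {u v : Vec (N + 3) × (Fin (H + 3) → Vec (N + 3))} (hu : PairPl ρ u)
    (hv : PairPl ρ v) : PairPl ρ (u + v) :=
  ⟨hu.z.add hv.z, hu.z0.add hv.z0, hu.z1.add hv.z1, hu.z2.add hv.z2⟩

lemma PairPl.sub {u v : Vec (N + 3) × (Fin (H + 3) → Vec (N + 3))} (hu : PairPl ρ u)
    (hv : PairPl ρ v) : PairPl ρ (u - v) :=
  ⟨hu.z.sub hv.z, hu.z0.sub hv.z0, hu.z1.sub hv.z1, hu.z2.sub hv.z2⟩

lemma PairPl.smul {u : Vec (N + 3) × (Fin (H + 3) → Vec (N + 3))} (c : ℂ) (hu : PairPl ρ u) :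
    PairPl ρ (c • u) :=
  ⟨hu.z.smul c, hu.z0.smul c, hu.z1.smul c, hu.z2.smul c⟩

include g in
lemma pairPl_tau (s t φ ψ : ℂ) : PairPl ρ (tau p s t φ ψ) :=
  ⟨g.isPl_xv _ _ _ _, (g.isPl_wv 0 φ ψ s t).1, (g.isPl_wv 0 φ ψ s t).2.1,
    (g.isPl_wv 0 φ ψ s t).2.2⟩

lemma isPl_of_mem {i : Fin (H + 3)} {v w : Vec (N + 3)} (hw : IsPl ρ w) (hp : IsPl ρ (p i))
    (h : v ∈ Submodule.span ℂ {w, p i}) : IsPl ρ v := by
  obtain ⟨c, d, rfl⟩ := Submodule.mem_span_pair.mp h
  exact (hw.smul c).add (hp.smul d)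

lemma Av_zero : Av f s t (0 : Fin (H + 3)) = f := by unfold Av; rw [if_pos rfl]
lemma Av_one : Av f s t (1 : Fin (H + 3)) = s := by
  unfold Av; rw [if_neg i01.symm, if_pos rfl]
lemma Av_two : Av f s t (2 : Fin (H + 3)) = t := by
  unfold Av; rw [if_neg i02.symm, if_neg i12.symm, if_pos rfl]
lemma Cv_zero : Cv f s t (0 : Fin (H + 3)) = s * t := by unfold Cv; rw [if_pos rfl]
lemma Cv_one : Cv f s t (1 : Fin (H + 3)) = f * t := by
  unfold Cv; rw [if_neg i01.symm, if_pos rfl]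
lemma Cv_two : Cv f s t (2 : Fin (H + 3)) = f * s := by
  unfold Cv; rw [if_neg i02.symm, if_neg i12.symm, if_pos rfl]

include g V in
/-- the first step: removing the directions normal to the plane -/
lemma step1 (v : Vec (N + 3) × (Fin (H + 3) → Vec (N + 3)))
    (hv : v ∈ tangentCone p (xv p f γ s t) (wv p 1 f γ s t)) :
    ∃ c : Fin (N + 1) → ℂ, PairPl ρ (v - ∑ m, c m • sig ρ f s t m) := by
  rw [g.mem_T V] at hv
  have hW := g.isPl_wv 1 f γ s t
  have e0 := isPl_of_mem hW.1 g.isPl_p0 (hv 0)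
  have e1 := isPl_of_mem hW.2.1 g.isPl_p1 (hv 1)
  have e2 := isPl_of_mem hW.2.2 g.isPl_p2 (hv 2)
  rw [Av_zero] at e0
  rw [Av_one] at e1
  rw [Av_two] at e2
  have E0 : ∀ m, ρ v.1 (jj m) = f * ρ (v.2 0) (jj m) := by
    intro m
    have := e0 m
    rw [map_sub, map_smul, Pi.sub_apply, Pi.smul_apply, smul_eq_mul] at this
    linear_combination this
  have E1 : ∀ m, ρ v.1 (jj m) = s * ρ (v.2 1) (jj m) := by
    intro m
    have := e1 m
    rw [map_sub, map_smul, Pi.sub_apply, Pi.smul_apply, smul_eq_mul] at this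
    linear_combination this
  have E2 : ∀ m, ρ v.1 (jj m) = t * ρ (v.2 2) (jj m) := by
    intro m
    have := e2 m
    rw [map_sub, map_smul, Pi.sub_apply, Pi.smul_apply, smul_eq_mul] at this
    linear_combination this
  choose c hc using fun m => scal_three V.st V.fs V.ft (E0 m) (E1 m) (E2 m)
  refine ⟨c, ?_⟩
  have key : ∀ (κ : ℂ) (u : Vec (N + 3)), (∀ m, ρ u (jj m) = c m * κ) →
      IsPl ρ (u - ∑ m, c m • (κ • qv ρ m)) := by
    intro κ u hu m
    rw [map_sub, map_sum, Pi.sub_apply, Finset.sum_apply, Finset.sum_eq_single m]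
    · rw [map_smul, map_smul, Pi.smul_apply, Pi.smul_apply, qv_coord, if_pos rfl, hu m]
      simp
    · intro m' _ hm'
      rw [map_smul, map_smul, Pi.smul_apply, Pi.smul_apply, qv_coord, if_neg hm']
      simp
    · intro h; exact absurd (Finset.mem_univ m) h
  have hfst : (v - ∑ m, c m • (sig ρ f s t m : Vec (N + 3) × (Fin (H + 3) → Vec (N + 3)))).1 =
      v.1 - ∑ m, c m • ((f * s * t) • qv ρ m) := by
    rw [Prod.fst_sub, Prod.fst_sum]; rfl
  have hsnd : ∀ i, (v - ∑ m, c m • (sig ρ f s t m : Vec (N + 3) × (Fin (H + 3) → Vec (N + 3)))).2 i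
      = v.2 i - ∑ m, c m • (Cv f s t i • qv ρ m) := by
    intro i
    rw [Prod.snd_sub, Prod.snd_sum, Pi.sub_apply, Finset.sum_apply]; rfl
  refine ⟨?_, ?_, ?_, ?_⟩
  · rw [hfst]; exact key _ _ fun m => (hc m).1
  · rw [hsnd, Cv_zero]; exact key _ _ fun m => (hc m).2.1
  · rw [hsnd, Cv_one]; exact key _ _ fun m => (hc m).2.2.1
  · rw [hsnd, Cv_two]; exact key _ _ fun m => (hc m).2.2.2

/-- membership in a span of two vectors, through a determinant -/
lemma mem_span_of_det {V : Type*} [AddCommGroup V] [Module ℂ V] {e₁ e₂ e₃ : V} {a b x y z : ℂ}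
    (hab : ¬ (a = 0 ∧ b = 0)) (h : x * b = y * a) :
    x • e₁ + y • e₂ + z • e₃ ∈ Submodule.span ℂ {a • e₁ + b • e₂, e₃} := by
  obtain ⟨κ, rfl, rfl⟩ := scal_prop hab h
  rw [Submodule.mem_span_pair]
  exact ⟨κ, z, by module⟩

include g V in
/-- the last step: vectors which fix the direction at the first point -/
lemma step3 (v : Vec (N + 3) × (Fin (H + 3) → Vec (N + 3)))
    (hv : v ∈ tangentCone p (xv p f γ s t) (wv p 1 f γ s t)) (hP : PairPl ρ v) {a : ℂ}
    (h0 : v.2 0 = a • p 0) :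
    ∃ y : ℂ, ∀ φ ψ : ℂ, ψ * f - φ * γ = y →
      v - tau p s t φ ψ ∈ vertical p (xv p f γ s t) (wv p 1 f γ s t) := by
  have hv' := hv
  rw [g.mem_T V] at hv
  have t0 := hv 0
  have t1 := hv 1
  have t2 := hv 2
  rw [Av_zero, wv_zero] at t0
  rw [Av_one, wv_one] at t1
  rw [Av_two, wv_two] at t2
  obtain ⟨u, c0, hu⟩ := Submodule.mem_span_pair.mp t0
  obtain ⟨α, c1, h1⟩ := Submodule.mem_span_pair.mp t1
  obtain ⟨α', c2, h2⟩ := Submodule.mem_span_pair.mp t2
  set x1 := v.2 1 with hx1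
  set x2 := v.2 2 with hx2
  have ex1 := g.eq_of x1 hP.z1
  have ex2 := g.eq_of x2 hP.z2
  set a0 := ρ x1 0
  set a1 := ρ x1 1
  set a2 := ρ x1 2
  set b0 := ρ x2 0
  set b1 := ρ x2 1
  set b2 := ρ x2 2
  -- the vector `v.1`
  set w := c0 + f * a with hw
  have ez : v.1 = w • p 0 + (u * t) • p 1 + (u * s) • p 2 := by
    have : v.1 = u • ((1 * t) • p 1 + (1 * s) • p 2) + c0 • p 0 + f • v.2 0 := by
      rw [hu]; module
    rw [this, h0]
    module
  obtain ⟨r0, _, r2⟩ := g.indep (x := w - s * a0 - α * (γ * t)) (y := u * t - s * a1 - c1)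
    (z := u * s - s * a2 - α * f) (by
      have : (w - s * a0 - α * (γ * t)) • p 0 + (u * t - s * a1 - c1) • p 1 +
          (u * s - s * a2 - α * f) • p 2 =
        (v.1 - s • x1) - (α • ((γ * t) • p 0 + f • p 2) + c1 • p 1) := by
        have es : s • x1 = s • (a0 • p 0 + a1 • p 1 + a2 • p 2) := congrArg (s • ·) ex1
        rw [ez, es]
        module
      rw [this, h1, sub_self])
  obtain ⟨q0, q1, _⟩ := g.indep (x := w - t * b0 - α' * (γ * s)) (y := u * t - t * b1 - α' * f)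
    (z := u * s - t * b2 - c2) (by
      have : (w - t * b0 - α' * (γ * s)) • p 0 + (u * t - t * b1 - α' * f) • p 1 +
          (u * s - t * b2 - c2) • p 2 =
        (v.1 - t • x2) - (α' • ((γ * s) • p 0 + f • p 1) + c2 • p 2) := by
        have es : t • x2 = t • (b0 • p 0 + b1 • p 1 + b2 • p 2) := congrArg (t • ·) ex2
        rw [ez, es]
        module
      rw [this, h2, sub_self])
  -- the determinants
  have hD1 : w * f - u * γ * s * t = s * (a0 * f - a2 * γ * t) := by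
    linear_combination f * r0 - γ * t * r2
  have hD2 : w * f - u * γ * s * t = t * (b0 * f - b1 * γ * s) := by
    linear_combination f * q0 - γ * s * q1
  obtain ⟨y, hy1, hy2⟩ := scal_prop (a := t) (b := s) (fun h => V.st ⟨h.2, h.1⟩)
    (show (a0 * f - a2 * γ * t) * s = (b0 * f - b1 * γ * s) * t by
      linear_combination hD2 - hD1)
  refine ⟨y, fun φ ψ hφψ => ?_⟩
  have hDD : (w - ψ * s * t) * f = (u - φ) * (γ * s * t) := by
    linear_combination hD1 + s * hy1 - s * t * hφψ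
  have hfg : ¬ (γ * s * t = 0 ∧ f = 0) := by
    rintro ⟨h3, h4⟩
    have hγ : γ ≠ 0 := fun h => V.fg ⟨h4, h⟩
    rcases mul_eq_zero.mp h3 with h5 | h5
    · rcases mul_eq_zero.mp h5 with h6 | h6
      · exact hγ h6
      · exact V.fs ⟨h4, h6⟩
    · exact V.ft ⟨h4, h5⟩
  have hm : (v - tau p s t φ ψ).1 ∈ Submodule.span ℂ {xv p f γ s t} := by
    obtain ⟨κ, k1, k2⟩ := scal_prop hfg (show (w - ψ * s * t) * f = (u - φ) * (γ * s * t)
      from hDD)
    rw [Submodule.mem_span_singleton]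
    refine ⟨κ, ?_⟩
    have : (v - tau p s t φ ψ).1 = (w - ψ * s * t) • p 0 + ((u - φ) * t) • p 1 +
        ((u - φ) * s) • p 2 := by
      rw [Prod.fst_sub, ez]
      simp only [tau, xv]
      module
    rw [this, k1, k2]
    unfold xv
    module
  refine ⟨hm, fun i => ?_⟩
  have hi : (v - tau p s t φ ψ).2 i = v.2 i - wv p 0 φ ψ s t i := rfl
  by_cases i0 : i = 0
  · subst i0
    have : a • p 0 - ((0 * t) • p 1 + (0 * s) • p 2) = a • p 0 := by module
    rw [hi, h0, wv_zero 0 φ ψ s t, this]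
    exact Submodule.smul_mem _ _ (right_mem _ _)
  by_cases i1 : i = 1
  · subst i1
    rw [hi, wv_one, wv_one, ← hx1, ex1]
    have : a0 • p 0 + a1 • p 1 + a2 • p 2 - ((ψ * t) • p 0 + φ • p 2) =
        (a0 - ψ * t) • p 0 + (a2 - φ) • p 2 + a1 • p 1 := by module
    rw [this]
    refine mem_span_of_det (fun h => ?_) ?_
    · rcases mul_eq_zero.mp h.1 with h5 | h5
      · exact V.fg ⟨h.2, h5⟩
      · exact V.ft ⟨h.2, h5⟩
    · linear_combination hy1 - t * hφψ
  by_cases i2 : i = 2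
  · subst i2
    rw [hi, wv_two, wv_two, ← hx2, ex2]
    have : b0 • p 0 + b1 • p 1 + b2 • p 2 - ((ψ * s) • p 0 + φ • p 1) =
        (b0 - ψ * s) • p 0 + (b1 - φ) • p 1 + b2 • p 2 := by module
    rw [this]
    refine mem_span_of_det (fun h => ?_) ?_
    · rcases mul_eq_zero.mp h.1 with h5 | h5
      · exact V.fg ⟨h.2, h5⟩
      · exact V.fs ⟨h.2, h5⟩
    · linear_combination hy2 - s * hφψ
  · have hT := Submodule.sub_mem _ hv' (g.tau_mem V φ ψ)
    rw [g.mem_T V] at hT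
    have h3 := hT i
    have hA : Av f s t i = 1 := by unfold Av; rw [if_neg i0, if_neg i1, if_neg i2]
    rw [hA, one_smul] at h3
    have h4 : (v - tau p s t φ ψ).1 ∈ Submodule.span ℂ {wv p 1 f γ s t i, p i} := by
      rw [wv_other _ _ _ _ _ i0 i1 i2]
      obtain ⟨κ, hκ⟩ := Submodule.mem_span_singleton.mp hm
      rw [← hκ]
      exact Submodule.smul_mem _ _ (left_mem _ _)
    have h5 := Submodule.sub_mem _ h4 h3
    rwa [sub_sub_cancel] at h5

end Good

end Pool.Agent.H403R4
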