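import Pool.Agent.H403R4.Tangent

/-!
# The dimension of the tangent cones
-/

open Module

namespace Pool.Agent.H403R4

open Pool.Agent.H403R3

variable {n h : ℕ} {p : Fin h → Vec n}

lemma finrank_pair {w q : Vec n} (hw : w ∉ Submodule.span ℂ {q}) (hq : q ≠ 0) :
    finrank ℂ (Submodule.span ℂ ({w, q} : Set (Vec n))) = 2 := by
  have hli : LinearIndependent ℂ ![w, q] := by
    rw [LinearIndependent.pair_iff]
    intro s t hst
    exact indep_of_notMem hw hq hst
  have := finrank_span_eq_card hli
  rw [Matrix.range_cons_cons_empty] at this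
  simpa using this

/-- the dimension of the tangent cone does not depend on the point -/
theorem finrank_tangentCone (hp : ∀ i, p i ≠ 0) (hd : Distinct p) {x : Vec n}
    {w : Fin h → Vec n} (hx : IsPoint p x w) :
    finrank ℂ (tangentCone p x w) + h * (n + 1 - 2) = (n + 1) + h * (n + 1) := by
  choose A hA using fun i => point_coeffs hx i
  choose B hB using hA
  -- at most one coefficient vanishes
  have huniq : ∀ i j, A i = 0 → A j = 0 → i = j := by
    intro i j hi hj
    by_contra hij
    have h1 := hB i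
    have h2 := hB j
    rw [hi, zero_smul, zero_add] at h1
    rw [hj, zero_smul, zero_add] at h2
    have hBj : B j ≠ 0 := by
      intro h0
      rw [h0, zero_smul] at h2
      exact hx.ne_zero h2
    apply hd i j hij
    rw [Submodule.mem_span_singleton]
    refine ⟨(B j)⁻¹ * B i, ?_⟩
    rw [mul_smul, ← h1, h2, smul_smul, inv_mul_cancel₀ hBj, one_smul]
  let S : Fin h → Submodule ℂ (Vec n) := fun i => Submodule.span ℂ {w i, p i}
  let L : Vec n × (Fin h → Vec n) →ₗ[ℂ] (∀ i, Vec n ⧸ S i) :=
    LinearMap.pi fun i => (S i).mkQ ∘ₗ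
      (LinearMap.fst ℂ _ _ - A i • (LinearMap.proj i ∘ₗ LinearMap.snd ℂ _ _))
  have hL : ∀ v i, L v i = (S i).mkQ (v.1 - A i • v.2 i) := fun v i => rfl
  have hker : LinearMap.ker L = tangentCone p x w := by
    ext v
    rw [LinearMap.mem_ker, tangent_iff hp hx.notMem A B hB]
    constructor
    · intro hv i
      have := congrFun hv i
      rw [hL] at this
      exact (Submodule.Quotient.mk_eq_zero _).mp this
    · intro hv
      funext i
      rw [hL]
      exact (Submodule.Quotient.mk_eq_zero _).mpr (hv i)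
  have hsurj : Function.Surjective L := by
    intro y
    choose z hz using fun i => Submodule.mkQ_surjective (S i) (y i)
    obtain ⟨ξ, hξ⟩ : ∃ ξ : Vec n, ∀ i, A i = 0 → ξ = z i := by
      by_cases h0 : ∃ i, A i = 0
      · obtain ⟨i, hi⟩ := h0
        exact ⟨z i, fun j hj => by rw [huniq i j hi hj]⟩
      · exact ⟨0, fun i hi => absurd ⟨i, hi⟩ h0⟩
    refine ⟨(ξ, fun i => (A i)⁻¹ • (ξ - z i)), ?_⟩
    funext i
    rw [hL, ← hz i]
    congr 1
    by_cases hi : A i = 0
    · rw [hi, zero_smul, sub_zero]
      exact hξ i hi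
    · change ξ - A i • ((A i)⁻¹ • (ξ - z i)) = z i
      rw [smul_smul, mul_inv_cancel₀ hi, one_smul, sub_sub_cancel]
  have h1 := LinearMap.finrank_range_add_finrank_ker L
  rw [LinearMap.range_eq_top.mpr hsurj, finrank_top, hker] at h1
  have h2 : finrank ℂ (∀ i, Vec n ⧸ S i) = h * (n + 1 - 2) := by
    rw [finrank_pi_fintype]
    have : ∀ i, finrank ℂ (Vec n ⧸ S i) = n + 1 - 2 := by
      intro i
      have h3 := Submodule.finrank_quotient_add_finrank (S i)
      have h4 : finrank ℂ (S i) = 2 := finrank_pair (hx.notMem i) (hp i)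
      have h5 : finrank ℂ (Vec n) = n + 1 := by simp [Vec]
      omega
    simp [this]
  have h3 : finrank ℂ (Vec n × (Fin h → Vec n)) = (n + 1) + h * (n + 1) := by
    simp [Vec, finrank_prod, finrank_pi_fintype]
  omega

end Pool.Agent.H403R4
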