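import Pool.Agent.H403R4.Rank
import Pool.Agent.H403R4.Liouville

/-!
# Global sections have no components in the summands `𝒪(-1)`
-/

open MvPolynomial Module

namespace Pool.Agent.H403R4

open Pool.Agent.H403R3

variable {n h : ℕ} {p : Fin h → Vec n}

lemma differentiable_prod' {ι : Type*} (s : Finset ι) (f : ι → (Fin 2 → ℂ) → ℂ)
    (hf : ∀ i, Differentiable ℂ (f i)) : Differentiable ℂ fun b => ∏ i ∈ s, f i b := by
  classical
  induction s using Finset.induction_on with
  | empty => simp only [Finset.prod_empty]; exact differentiable_const _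
  | insert i s hi ih =>
    simp only [Finset.prod_insert hi]
    exact (hf i).fun_mul ih

lemma differentiable_det {ι : Type*} [Fintype ι] [DecidableEq ι]
    (M : (Fin 2 → ℂ) → Matrix ι ι ℂ) (hM : ∀ i j, Differentiable ℂ fun b => M b i j) :
    Differentiable ℂ fun b => (M b).det := by
  simp only [Matrix.det_apply]
  refine Differentiable.fun_sum fun σ _ => ?_
  refine Differentiable.fun_const_smul ?_ _
  exact differentiable_prod' _ (fun i b => M b (σ i) i) fun i => hM _ _

/-- the data in `HasNormalSize` -/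
structure SData (γ : RatCurve p) (a : ℕ) where
  r : ℕ
  ξ : Fin a → Fin (n + 1) → MvPolynomial (Fin 2) ℂ
  η : Fin a → Fin h → Fin (n + 1) → MvPolynomial (Fin 2) ℂ
  ξ' : Fin r → Fin (n + 1) → MvPolynomial (Fin 2) ℂ
  η' : Fin r → Fin h → Fin (n + 1) → MvPolynomial (Fin 2) ℂ
  h1 : ∀ m j, (ξ m j).IsHomogeneous (γ.δ + 1)
  h2 : ∀ m i j, (η m i j).IsHomogeneous (γ.e i + 1)
  h3 : ∀ l j, (ξ' l j).IsHomogeneous γ.δ
  h4 : ∀ l i j, (η' l i j).IsHomogeneous (γ.e i)
  hs : ∀ b : Fin 2 → ℂ, b ≠ 0 →
      IsSplitting γ b (fun m j => eval b (ξ m j)) (fun m i j => eval b (η m i j))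
        (fun l j => eval b (ξ' l j)) (fun l i j => eval b (η' l i j))

lemma exists_sData {γ : RatCurve p} {a : ℕ} (H : HasNormalSize γ a) : Nonempty (SData γ a) := by
  obtain ⟨r, ξ, η, ξ', η', h1, h2, h3, h4, hs⟩ := H
  exact ⟨⟨r, ξ, η, ξ', η', h1, h2, h3, h4, hs⟩⟩

/-- the values of a polynomial vector field -/
noncomputable def val (ξ : Fin (n + 1) → MvPolynomial (Fin 2) ℂ)
    (η : Fin h → Fin (n + 1) → MvPolynomial (Fin 2) ℂ) (b : Fin 2 → ℂ) :
    Vec n × (Fin h → Vec n) := (fun j => eval b (ξ j), fun i j => eval b (η i j))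

lemma differentiable_val (ξ : Fin (n + 1) → MvPolynomial (Fin 2) ℂ)
    (η : Fin h → Fin (n + 1) → MvPolynomial (Fin 2) ℂ) : Differentiable ℂ (val ξ η) := by
  refine Differentiable.prodMk ?_ ?_
  · exact differentiable_pi.mpr fun j => differentiable_eval (ξ j)
  · exact differentiable_pi.mpr fun i => differentiable_pi.mpr fun j => differentiable_eval (η i j)

/-- scaling -/
noncomputable def scale (γ : RatCurve p) (x : ℂ) :
    Vec n × (Fin h → Vec n) →ₗ[ℂ] Vec n × (Fin h → Vec n) where
  toFun v := (x ^ γ.δ • v.1, fun i => x ^ γ.e i • v.2 i)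
  map_add' u v := by
    refine Prod.ext ?_ ?_
    · simp
    · funext i; simp
  map_smul' c v := by
    refine Prod.ext ?_ ?_
    · simp only [Prod.smul_fst, RingHom.id_apply]; rw [smul_comm]
    · funext i
      simp only [Prod.smul_snd, Pi.smul_apply, RingHom.id_apply]
      rw [smul_comm]

lemma scale_val (γ : RatCurve p) (k : ℕ) {ξ : Fin (n + 1) → MvPolynomial (Fin 2) ℂ}
    {η : Fin h → Fin (n + 1) → MvPolynomial (Fin 2) ℂ} (hξ : ∀ j, (ξ j).IsHomogeneous (γ.δ + k))
    (hη : ∀ i j, (η i j).IsHomogeneous (γ.e i + k)) (x : ℂ) (b : Fin 2 → ℂ) :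
    val ξ η (x • b) = x ^ k • scale γ x (val ξ η b) := by
  refine Prod.ext ?_ ?_
  · funext j
    simp only [val, scale, LinearMap.coe_mk, AddHom.coe_mk, Prod.smul_mk, Pi.smul_apply,
      smul_eq_mul]
    rw [hom_smul (hξ j), pow_add]
    ring
  · funext i j
    simp only [val, scale, LinearMap.coe_mk, AddHom.coe_mk, Prod.smul_mk, Pi.smul_apply,
      smul_eq_mul]
    rw [hom_smul (hη i j), pow_add]
    ring

lemma x_smul (γ : RatCurve p) (x : ℂ) (b : Fin 2 → ℂ) : γ.x (x • b) = x ^ γ.δ • γ.x b := by
  funext j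
  exact hom_smul (γ.f_hom j) x b

lemma dir_smul (γ : RatCurve p) (x : ℂ) (b : Fin 2 → ℂ) (i : Fin h) :
    γ.dir (x • b) i = x ^ γ.e i • γ.dir b i := by
  funext j
  exact hom_smul (γ.w_hom i j) x b

lemma pderiv_smul {G : MvPolynomial (Fin 2) ℂ} {d : ℕ} (hG : G.IsHomogeneous d) (k : Fin 2)
    (x : ℂ) (b : Fin 2 → ℂ) : x ^ d * eval b (pderiv k G) = x * eval (x • b) (pderiv k G) := by
  rcases Nat.eq_zero_or_pos d with rfl | hd
  · have h0 : pderiv k G = 0 := by
      have h1 : G = C (coeff 0 G) := by
        have := totalDegree_eq_zero_iff_eq_C.mp (Nat.le_zero.mp hG.totalDegree_le)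
        exact this
      rw [h1, pderiv_C]
    rw [h0]; simp
  · rw [hom_smul (hG.pderiv (i := k))]
    obtain ⟨d, rfl⟩ : ∃ e, d = e + 1 := ⟨d - 1, by omega⟩
    rw [Nat.add_sub_cancel, pow_succ]
    ring

lemma scale_deriv (γ : RatCurve p) (k : Fin 2) (x : ℂ) (b : Fin 2 → ℂ) :
    scale γ x (γ.deriv k b) = x • γ.deriv k (x • b) := by
  refine Prod.ext ?_ ?_
  · funext j
    exact pderiv_smul (γ.f_hom j) k x b
  · funext i j
    exact pderiv_smul (γ.w_hom i j) k x b

namespace SData

variable {γ : RatCurve p} {a : ℕ} (D : SData γ a)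

noncomputable def σ (b : Fin 2 → ℂ) (m : Fin a) : Vec n × (Fin h → Vec n) :=
  val (D.ξ m) (D.η m) b

noncomputable def τ (b : Fin 2 → ℂ) (l : Fin D.r) : Vec n × (Fin h → Vec n) :=
  val (D.ξ' l) (D.η' l) b

noncomputable def K (b : Fin 2 → ℂ) : Submodule ℂ (Vec n × (Fin h → Vec n)) :=
  γ.tangentLine b ⊔ Submodule.span ℂ (Set.range (D.τ b))

lemma split {b : Fin 2 → ℂ} (hb : b ≠ 0) :
    (∀ m, D.σ b m ∈ tangentCone p (γ.x b) (γ.dir b)) ∧
    (∀ l, D.τ b l ∈ tangentCone p (γ.x b) (γ.dir b)) ∧
    (∀ (c : Fin a → ℂ) (d : Fin D.r → ℂ),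
      ∑ m, c m • D.σ b m + ∑ l, d l • D.τ b l ∈ γ.tangentLine b → c = 0) ∧
    ∀ v ∈ tangentCone p (γ.x b) (γ.dir b), ∃ (c : Fin a → ℂ) (d : Fin D.r → ℂ),
      v - ∑ m, c m • D.σ b m - ∑ l, d l • D.τ b l ∈ γ.tangentLine b :=
  (isSplitting_iff γ b _ _ _ _).mp (D.hs b hb)

lemma indep {b : Fin 2 → ℂ} (hb : b ≠ 0) {c : Fin a → ℂ} (hc : ∑ m, c m • D.σ b m ∈ D.K b) :
    c = 0 := by
  obtain ⟨y, hy, z, hz, hyz⟩ := Submodule.mem_sup.mp hc
  obtain ⟨d, rfl⟩ := (Submodule.mem_span_range_iff_exists_fun ℂ).mp hz
  refine (D.split hb).2.2.1 c (-d) ?_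
  have : ∑ m, c m • D.σ b m + ∑ l, (-d) l • D.τ b l = y := by
    rw [← hyz]
    simp only [Pi.neg_apply, neg_smul, Finset.sum_neg_distrib]
    abel
  rw [this]
  exact hy

lemma gen {b : Fin 2 → ℂ} (hb : b ≠ 0) {v : Vec n × (Fin h → Vec n)}
    (hv : v ∈ tangentCone p (γ.x b) (γ.dir b)) : ∃ c : Fin a → ℂ,
      v - ∑ m, c m • D.σ b m ∈ D.K b := by
  obtain ⟨c, d, hcd⟩ := (D.split hb).2.2.2 v hv
  refine ⟨c, ?_⟩
  have : v - ∑ m, c m • D.σ b m = (v - ∑ m, c m • D.σ b m - ∑ l, d l • D.τ b l) +
    ∑ l, d l • D.τ b l := by abel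
  rw [this]
  exact Submodule.add_mem _ ((le_sup_left : _ ≤ D.K b) hcd)
    (Submodule.sum_mem _ fun l _ => Submodule.smul_mem _ _
      ((le_sup_right : _ ≤ D.K b) (Submodule.subset_span ⟨l, rfl⟩)))

lemma K_le (hp : ∀ i, p i ≠ 0) {b : Fin 2 → ℂ} (hb : b ≠ 0) :
    D.K b ≤ tangentCone p (γ.x b) (γ.dir b) := by
  refine sup_le (tangentLine_le hp γ hb) ?_
  rw [Submodule.span_le]
  rintro _ ⟨l, rfl⟩
  exact (D.split hb).2.1 l

lemma finrank_K (hp : ∀ i, p i ≠ 0) (hd : Distinct p) {b : Fin 2 → ℂ} (hb : b ≠ 0) :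
    finrank ℂ (D.K b) + a + h * (n + 1 - 2) = (n + 1) + h * (n + 1) := by
  have h1 := finrank_tangentCone hp hd (γ.isPoint b hb)
  change finrank ℂ (tangentCone p (γ.x b) (γ.dir b)) + _ = _ at h1
  let E : (Fin a → ℂ) × D.K b →ₗ[ℂ] Vec n × (Fin h → Vec n) :=
    LinearMap.coprod (Fintype.linearCombination ℂ (D.σ b)) (D.K b).subtype
  have hE : ∀ c k, E (c, k) = ∑ m, c m • D.σ b m + k := fun c k => by
    simp [E, Fintype.linearCombination_apply]
  have hinj : Function.Injective E := by
    rw [← LinearMap.ker_eq_bot, LinearMap.ker_eq_bot']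
    rintro ⟨c, k⟩ hck
    rw [hE] at hck
    have h2 : ∑ m, c m • D.σ b m = -(k : Vec n × (Fin h → Vec n)) := by
      rw [← sub_eq_zero, sub_neg_eq_add]; exact hck
    have hc := D.indep hb (c := c) (by rw [h2]; exact Submodule.neg_mem _ k.2)
    subst hc
    simp only [Pi.zero_apply, zero_smul, Finset.sum_const_zero, zero_add] at hck
    exact Prod.ext rfl (Subtype.ext hck)
  have hrange : LinearMap.range E = tangentCone p (γ.x b) (γ.dir b) := by
    apply le_antisymm
    · rintro _ ⟨⟨c, k⟩, rfl⟩
      rw [hE]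
      exact Submodule.add_mem _ (Submodule.sum_mem _ fun m _ =>
        Submodule.smul_mem _ _ ((D.split hb).1 m)) (D.K_le hp hb k.2)
    · intro v hv
      obtain ⟨c, hc⟩ := D.gen hb hv
      exact ⟨(c, ⟨_, hc⟩), by rw [hE]; simp⟩
  have h3 := LinearMap.finrank_range_of_inj hinj
  rw [hrange, finrank_prod] at h3
  have h4 : finrank ℂ (Fin a → ℂ) = a := by simp
  omega

/-- every element of `K` at a point extends to a section of `K` -/
lemma exists_ext (b₀ : Fin 2 → ℂ) {k : Vec n × (Fin h → Vec n)} (hk : k ∈ D.K b₀) :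
    ∃ F : (Fin 2 → ℂ) → Vec n × (Fin h → Vec n), Differentiable ℂ F ∧ F b₀ = k ∧
      ∀ b, F b ∈ D.K b := by
  obtain ⟨y, hy, z, hz, rfl⟩ := Submodule.mem_sup.mp hk
  obtain ⟨d, rfl⟩ := (Submodule.mem_span_range_iff_exists_fun ℂ).mp hz
  obtain ⟨k₀, k₁, hkk⟩ := (mem_tangentLine_iff γ b₀ y).mp hy
  obtain ⟨c, hc⟩ := Submodule.mem_span_singleton.mp hkk.1
  choose α β hαβ using fun i => Submodule.mem_span_pair.mp (hkk.2 i)
  have hdx : Differentiable ℂ γ.x := differentiable_pi.mpr fun j => differentiable_eval (γ.f j)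
  have hdw : ∀ i, Differentiable ℂ fun b => γ.dir b i := fun i =>
    differentiable_pi.mpr fun j => differentiable_eval (γ.w i j)
  have hdd : ∀ k : Fin 2, Differentiable ℂ fun b => γ.deriv k b := fun k =>
    differentiable_val (fun j => pderiv k (γ.f j)) (fun i j => pderiv k (γ.w i j))
  have hvert : ∀ b, ((c • γ.x b, fun i => α i • γ.dir b i + β i • p i) :
      Vec n × (Fin h → Vec n)) ∈ vertical p (γ.x b) (γ.dir b) := fun b =>
    ⟨Submodule.smul_mem _ _ (Submodule.mem_span_singleton_self _), fun i => mem_pair _ _⟩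
  refine ⟨fun b => ((c • γ.x b, fun i => α i • γ.dir b i + β i • p i) :
      Vec n × (Fin h → Vec n)) + k₀ • γ.deriv 0 b + k₁ • γ.deriv 1 b +
        ∑ l, d l • D.τ b l, ?_, ?_, ?_⟩
  · refine ((Differentiable.fun_add (Differentiable.fun_add ?_ ?_) ?_)).fun_add ?_
    · refine Differentiable.prodMk (hdx.fun_const_smul c) ?_
      exact differentiable_pi.mpr fun i => ((hdw i).fun_const_smul (α i)).fun_add
        (differentiable_const _)
    · exact (hdd 0).fun_const_smul _
    · exact (hdd 1).fun_const_smul _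
    · exact Differentiable.fun_sum fun l _ => (differentiable_val _ _).fun_const_smul _
  · simp only
    congr 1
    have : ((c • γ.x b₀, fun i => α i • γ.dir b₀ i + β i • p i) : Vec n × (Fin h → Vec n)) =
        y - k₀ • γ.deriv 0 b₀ - k₁ • γ.deriv 1 b₀ :=
      Prod.ext hc (funext hαβ)
    rw [this]
    abel
  · intro b
    refine Submodule.add_mem _ (Submodule.add_mem _ (Submodule.add_mem _ ?_ ?_) ?_) ?_
    · exact (le_sup_left : _ ≤ D.K b) (vertical_le_tangentLine γ b (hvert b))
    · exact Submodule.smul_mem _ _ ((le_sup_left : _ ≤ D.K b) (deriv_mem_tangentLine γ b 0))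
    · exact Submodule.smul_mem _ _ ((le_sup_left : _ ≤ D.K b) (deriv_mem_tangentLine γ b 1))
    · exact Submodule.sum_mem _ fun l _ => Submodule.smul_mem _ _
        ((le_sup_right : _ ≤ D.K b) (Submodule.subset_span ⟨l, rfl⟩))

/-- scaling maps `K` to `K` -/
lemma scale_K (x : ℂ) (b : Fin 2 → ℂ) {k : Vec n × (Fin h → Vec n)}
    (hk : k ∈ D.K b) : scale γ x k ∈ D.K (x • b) := by
  obtain ⟨y, hy, z, hz, rfl⟩ := Submodule.mem_sup.mp hk
  obtain ⟨d, rfl⟩ := (Submodule.mem_span_range_iff_exists_fun ℂ).mp hz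
  rw [map_add, map_sum]
  refine Submodule.add_mem _ ((le_sup_left : _ ≤ D.K (x • b)) ?_)
    (Submodule.sum_mem _ fun l _ => ?_)
  · obtain ⟨k₀, k₁, hkk⟩ := (mem_tangentLine_iff γ b y).mp hy
    rw [mem_tangentLine_iff]
    refine ⟨k₀ * x, k₁ * x, ?_⟩
    have e : scale γ x y - (k₀ * x) • γ.deriv 0 (x • b) - (k₁ * x) • γ.deriv 1 (x • b) =
        scale γ x (y - k₀ • γ.deriv 0 b - k₁ • γ.deriv 1 b) := by
      rw [map_sub, map_sub, map_smul, map_smul, scale_deriv, scale_deriv, smul_smul, smul_smul]
    rw [e]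
    obtain ⟨c, hc⟩ := Submodule.mem_span_singleton.mp hkk.1
    refine ⟨?_, fun i => ?_⟩
    · change x ^ γ.δ • _ ∈ _
      rw [← hc, x_smul, Submodule.mem_span_singleton]
      exact ⟨c, by rw [smul_comm]⟩
    · change x ^ γ.e i • _ ∈ _
      obtain ⟨α, β, hαβ⟩ := Submodule.mem_span_pair.mp (hkk.2 i)
      rw [← hαβ, dir_smul, Submodule.mem_span_pair]
      exact ⟨α, x ^ γ.e i * β, by module⟩
  · rw [map_smul]
    refine Submodule.smul_mem _ _ ?_
    have : scale γ x (D.τ b l) = D.τ (x • b) l := by
      have := scale_val γ 0 (D.h3 l) (D.h4 l) x b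
      rw [pow_zero, one_smul] at this
      exact this.symm
    rw [this]
    exact (le_sup_right : _ ≤ D.K (x • b)) (Submodule.subset_span ⟨l, rfl⟩)

/-- **Key lemma.**  The values of a global section of the restriction to the curve of the tangent
bundle are in `K`. -/
theorem section_mem (hp : ∀ i, p i ≠ 0) (hd : Distinct p)
    {ζ : Fin (n + 1) → MvPolynomial (Fin 2) ℂ}
    {θ : Fin h → Fin (n + 1) → MvPolynomial (Fin 2) ℂ} (hζ : ∀ j, (ζ j).IsHomogeneous γ.δ)
    (hθ : ∀ i j, (θ i j).IsHomogeneous (γ.e i))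
    (ht : ∀ b : Fin 2 → ℂ, b ≠ 0 → val ζ θ b ∈ tangentCone p (γ.x b) (γ.dir b))
    {b : Fin 2 → ℂ} (hb : b ≠ 0) : val ζ θ b ∈ D.K b := by
  classical
  choose! c hc using fun (b : Fin 2 → ℂ) (hb : b ≠ 0) => D.gen hb (ht b hb)
  have hz : ∀ m₀ : Fin a, ∀ b : Fin 2 → ℂ, b ≠ 0 → c b m₀ = 0 := by
    intro m₀
    refine regular_zero (fun b => c b m₀) 1 le_rfl ?_ ?_
    · intro x b hx hb
      have hxb : x • b ≠ 0 := smul_ne_zero hx hb
      have h1 := D.scale_K x b (hc b hb)
      have e1 : scale γ x (val ζ θ b) = val ζ θ (x • b) := by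
        have := scale_val γ 0 hζ hθ x b
        rw [pow_zero, one_smul] at this
        exact this.symm
      have e2 : ∀ m, scale γ x (D.σ b m) = x⁻¹ • D.σ (x • b) m := by
        intro m
        have := scale_val γ 1 (D.h1 m) (D.h2 m) x b
        rw [pow_one] at this
        change _ = x⁻¹ • val (D.ξ m) (D.η m) (x • b)
        rw [this, smul_smul, inv_mul_cancel₀ hx, one_smul]
        rfl
      rw [map_sub, map_sum, e1] at h1
      simp only [map_smul, e2] at h1
      have h2 := hc (x • b) hxb
      have h3 := Submodule.sub_mem _ h1 h2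
      have h4 : ∑ m, (c (x • b) m - c b m * x⁻¹) • D.σ (x • b) m ∈ D.K (x • b) := by
        convert h3 using 1
        simp only [sub_smul, Finset.sum_sub_distrib, mul_smul]
        abel
      have h5 := congrFun (D.indep hxb h4) m₀
      simp only [Pi.zero_apply] at h5
      have h6 : c (x • b) m₀ = c b m₀ * x⁻¹ := by linear_combination h5
      change x ^ 1 * c (x • b) m₀ = c b m₀
      rw [h6, pow_one]
      field_simp
    · intro b₀ hb₀
      -- a basis of `K` at `b₀` and its extension to sections
      set d := finrank ℂ (D.K b₀) with hdd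
      let B := finBasis ℂ (D.K b₀)
      choose F hF1 hF2 hF3 using fun i => D.exists_ext b₀ (B i).2
      let ι := Fin d ⊕ Fin a
      let G : (Fin 2 → ℂ) → ι → Vec n × (Fin h → Vec n) :=
        fun b => Sum.elim (fun i => F i b) (D.σ b)
      have hli : LinearIndependent ℂ (G b₀) := by
        rw [Fintype.linearIndependent_iff]
        intro g hg
        rw [Fintype.sum_sum_type] at hg
        simp only [G, Sum.elim_inl, Sum.elim_inr, hF2] at hg
        have h1 : ∑ m, g (Sum.inr m) • D.σ b₀ m ∈ D.K b₀ := by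
          have : ∑ m, g (Sum.inr m) • D.σ b₀ m =
              -∑ i, g (Sum.inl i) • ((B i : D.K b₀) : Vec n × (Fin h → Vec n)) := by
            rw [← sub_eq_zero, sub_neg_eq_add, add_comm]; exact hg
          rw [this]
          exact Submodule.neg_mem _ (Submodule.sum_mem _ fun i _ =>
            Submodule.smul_mem _ _ (B i).2)
        have h2 := D.indep hb₀ h1
        have h2' : ∀ m, g (Sum.inr m) = 0 := fun m => congrFun h2 m
        simp only [h2', zero_smul, Finset.sum_const_zero, add_zero] at hg
        have h3 : ∑ i, g (Sum.inl i) • B i = 0 := by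
          apply Subtype.ext
          simpa using hg
        have h4 := Fintype.linearIndependent_iff.mp B.linearIndependent _ h3
        rintro (i | m)
        · exact h4 i
        · exact h2' m
      obtain ⟨Λ, hΛ⟩ : ∃ Λ : (Vec n × (Fin h → Vec n)) →ₗ[ℂ] (ι → ℂ),
          ∀ i, Λ (G b₀ i) = Pi.single i 1 := by
        have hinj : LinearMap.ker (Fintype.linearCombination ℂ (G b₀)) = ⊥ :=
          LinearMap.ker_eq_bot.mpr
            (linearIndependent_iff_injective_fintypeLinearCombination.mp hli)
        obtain ⟨Λ, hΛ⟩ := LinearMap.exists_leftInverse_of_injective _ hinj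
        refine ⟨Λ, fun i => ?_⟩
        have := LinearMap.congr_fun hΛ (Pi.single i 1)
        simpa [Fintype.linearCombination_apply_single] using this
      let M : (Fin 2 → ℂ) → Matrix ι ι ℂ := fun b => Matrix.of fun i j => Λ (G b j) i
      have hGd : ∀ j, Differentiable ℂ fun b => G b j := by
        rintro (i | m)
        · exact hF1 i
        · exact differentiable_val _ _
      have hΛd : Differentiable ℂ Λ := Λ.toContinuousLinearMap.differentiable
      have hcomp : ∀ (f : (Fin 2 → ℂ) → Vec n × (Fin h → Vec n)), Differentiable ℂ f →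
          ∀ i, Differentiable ℂ fun b => Λ (f b) i := by
        intro f hf i
        exact (differentiable_pi.mp (hΛd.comp hf)) i
      have hM : ∀ i j, Differentiable ℂ fun b => M b i j := fun i j => hcomp _ (hGd j) i
      refine ⟨fun b => (M b).det,
        fun b => ((M b).updateCol (Sum.inr m₀) (Λ (val ζ θ b))).det,
        differentiable_det _ hM, differentiable_det _ ?_, ?_, ?_⟩
      · intro i j
        by_cases hj : j = Sum.inr m₀
        · subst hj
          simp only [Matrix.updateCol_self]
          exact hcomp _ (differentiable_val ζ θ) i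
        · simp only [Matrix.updateCol_ne hj]
          exact hM i j
      · have : M b₀ = 1 := by
          ext i j
          change Λ (G b₀ j) i = _
          rw [hΛ j, Matrix.one_apply, Pi.single_apply]
        change (M b₀).det ≠ 0
        rw [this, Matrix.det_one]
        exact one_ne_zero
      · intro b hb
        set k := val ζ θ b - ∑ m, c b m • D.σ b m with hk
        have hkK : k ∈ D.K b := hc b hb
        -- a linear relation
        obtain ⟨g, hg, hg0⟩ : ∃ g : Option (Fin d) → ℂ,
            ∑ i, g (some i) • F i b + g none • k = 0 ∧ g ≠ 0 := by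
          have hfr : finrank ℂ (D.K b) = d := by
            have e1 := D.finrank_K hp hd hb
            have e2 := D.finrank_K hp hd hb₀
            omega
          let u : Option (Fin d) → D.K b := fun o => o.elim ⟨k, hkK⟩ fun i => ⟨F i b, hF3 i b⟩
          have hnl : ¬ LinearIndependent ℂ u := by
            intro hl
            have := hl.fintype_card_le_finrank
            rw [hfr, Fintype.card_option, Fintype.card_fin] at this
            omega
          rw [Fintype.not_linearIndependent_iff] at hnl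
          obtain ⟨g, hg, o, ho⟩ := hnl
          refine ⟨g, ?_, fun h0 => ho (by rw [h0]; rfl)⟩
          rw [Fintype.sum_option] at hg
          have := congrArg (Submodule.subtype (D.K b)) hg
          simp only [u, Option.elim, map_add, map_sum, map_smul, Submodule.subtype_apply,
            map_zero] at this
          rw [add_comm]
          exact this
        -- the determinant of the modified matrix vanishes
        have hdet0 : ((M b).updateCol (Sum.inr m₀)
            (Λ (val ζ θ b - c b m₀ • D.σ b m₀))).det = 0 := by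
          rw [← Matrix.exists_mulVec_eq_zero_iff]
          refine ⟨Sum.elim (fun i => g (some i))
            (fun m => if m = m₀ then g none else -(g none * c b m)), ?_, ?_⟩
          · intro h0
            apply hg0
            funext o
            rcases o with _ | i
            · have := congrFun h0 (Sum.inr m₀)
              simpa using this
            · exact congrFun h0 (Sum.inl i)
          · have e1 : (M b).updateCol (Sum.inr m₀) (Λ (val ζ θ b - c b m₀ • D.σ b m₀)) =
                Matrix.of fun i j => Λ (if j = Sum.inr m₀ then val ζ θ b - c b m₀ • D.σ b m₀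
                  else G b j) i := by
              ext i j
              by_cases hj : j = Sum.inr m₀
              · subst hj
                rw [Matrix.updateCol_self, Matrix.of_apply, if_pos rfl]
              · rw [Matrix.updateCol_ne hj, Matrix.of_apply, if_neg hj]
                rfl
            have e2 : ∀ (f : ι → Vec n × (Fin h → Vec n)) (y : ι → ℂ),
                (Matrix.of fun i j => Λ (f j) i).mulVec y = Λ (∑ j, y j • f j) := by
              intro f y
              funext i
              rw [map_sum, Finset.sum_apply]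
              simp only [Matrix.mulVec, dotProduct, Matrix.of_apply, map_smul, Pi.smul_apply,
                smul_eq_mul]
              exact Finset.sum_congr rfl fun j _ => mul_comm _ _
            rw [e1, e2]
            have e3 : (∑ j, (Sum.elim (fun i => g (some i))
                (fun m => if m = m₀ then g none else -(g none * c b m)) : ι → ℂ) j •
                (if j = Sum.inr m₀ then val ζ θ b - c b m₀ • D.σ b m₀ else G b j)) =
                ∑ i, g (some i) • F i b + g none • k := by
              rw [Fintype.sum_sum_type]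
              congr 1
              simp only [Sum.elim_inr, Sum.inr.injEq]
              rw [← Finset.add_sum_erase _ _ (Finset.mem_univ m₀), if_pos rfl, if_pos rfl]
              have e4 : ∑ m ∈ Finset.univ.erase m₀, (if m = m₀ then g none else
                  -(g none * c b m)) • (if m = m₀ then val ζ θ b - c b m₀ • D.σ b m₀
                    else G b (Sum.inr m)) =
                  ∑ m ∈ Finset.univ.erase m₀, -(g none • (c b m • D.σ b m)) := by
                refine Finset.sum_congr rfl fun m hm => ?_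
                rw [if_neg (Finset.ne_of_mem_erase hm), if_neg (Finset.ne_of_mem_erase hm),
                  neg_smul, mul_smul]
                rfl
              rw [e4, Finset.sum_neg_distrib, ← Finset.smul_sum, hk,
                ← Finset.add_sum_erase _ (fun m => c b m • D.σ b m) (Finset.mem_univ m₀)]
              module
            rw [e3, hg, map_zero]
        have e5 : Λ (val ζ θ b - c b m₀ • D.σ b m₀) =
            Λ (val ζ θ b) + (-c b m₀) • Λ (D.σ b m₀) := by
          rw [map_sub, map_smul, neg_smul, sub_eq_add_neg]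
        rw [e5, Matrix.det_updateCol_add, Matrix.det_updateCol_smul] at hdet0
        have e6 : (M b).updateCol (Sum.inr m₀) (Λ (D.σ b m₀)) = M b := by
          ext i j
          by_cases hj : j = Sum.inr m₀
          · subst hj
            rw [Matrix.updateCol_self]
            rfl
          · rw [Matrix.updateCol_ne hj]
        rw [e6] at hdet0
        linear_combination -hdet0
  have h1 := hc b hb
  have h2 : ∑ m, c b m • D.σ b m = 0 := Finset.sum_eq_zero fun m _ => by
    rw [hz m b hb, zero_smul]
  rwa [h2, sub_zero] at h1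

end SData

end Pool.Agent.H403R4
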