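import Pool.Agent.H403R3.BlowUp

/-!
# (-1)-curves of arbitrary size on blow-ups of projective spaces at points

The blow-up `X` of `ℙⁿ` at the points `p i`, its points and tangent vectors, and the morphisms
`ℙ¹ → X` (`RatCurve p`) are described in `Pool.Agent.H403R3.BlowUp`.
-/

open MvPolynomial

namespace Pool.Agent.H403R4

open Pool.Agent.H403R3

variable {n h : ℕ} {p : Fin h → Vec n}

/-- Let `N` be the normal bundle of the embedded curve `γ(ℙ¹) ⊆ X`.  The tangent vectors
`(ξ m, η m)`, `m = 1, …, a`, and `(ξ' l, η' l)`, `l = 1, …, r`, of `X` at `γ(b)` generate together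
the fibre of `N` at `γ(b)` (the tangent vectors of `X` modulo the tangent vectors of the curve), and
the images of the `(ξ m, η m)` in this fibre are linearly independent modulo the subspace generated
by the images of the `(ξ' l, η' l)`. -/
def IsSplitting (γ : RatCurve p) (b : Fin 2 → ℂ) {a r : ℕ} (ξ : Fin a → Vec n)
    (η : Fin a → Fin h → Vec n) (ξ' : Fin r → Vec n) (η' : Fin r → Fin h → Vec n) : Prop :=
  (∀ m, IsTangent p (γ.x b) (γ.dir b) (ξ m) (η m)) ∧
  (∀ l, IsTangent p (γ.x b) (γ.dir b) (ξ' l) (η' l)) ∧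
  (∀ (c : Fin a → ℂ) (d : Fin r → ℂ), γ.IsAlong b (comb c ξ + comb d ξ')
    (fun i => comb c (fun m => η m i) + comb d (fun l => η' l i)) → c = 0) ∧
  ∀ ζ θ, IsTangent p (γ.x b) (γ.dir b) ζ θ → ∃ (c : Fin a → ℂ) (d : Fin r → ℂ),
    γ.IsAlong b (ζ - comb c ξ - comb d ξ')
      (fun i => θ i - comb c (fun m => η m i) - comb d (fun l => η' l i))

/-- The normal bundle `N` of the embedded curve `γ(ℙ¹) ⊆ X` is isomorphic to `𝒪(-1)^a ⊕ N'`, where
`N'` is a direct sum of line bundles of nonnegative degree (i.e. generated by its global sections):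
there are `a` sections `(ξ m, η m)` of the twist by `𝒪(1)` of the restriction to the curve of the
tangent bundle of `X` (given by binary forms of degrees `δ + 1` and `e i + 1`), and finitely many
sections `(ξ' l, η' l)` of this restriction itself (given by binary forms of degrees `δ` and `e i`),
such that, in the fibre of the normal bundle at every point of the curve, the values of all these
sections generate the fibre, and those of the `(ξ m, η m)` are linearly independent modulo the
subspace generated by those of the `(ξ' l, η' l)`.  (Then the sections `(ξ' l, η' l)` generate a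
subbundle `N'` of `N`, and the map `𝒪(-1)^a ⊕ N' → N` given by the `(ξ m, η m)` and the inclusion
of `N'` is an isomorphism.) -/
def HasNormalSize (γ : RatCurve p) (a : ℕ) : Prop :=
  ∃ (r : ℕ) (ξ : Fin a → Fin (n + 1) → MvPolynomial (Fin 2) ℂ)
    (η : Fin a → Fin h → Fin (n + 1) → MvPolynomial (Fin 2) ℂ)
    (ξ' : Fin r → Fin (n + 1) → MvPolynomial (Fin 2) ℂ)
    (η' : Fin r → Fin h → Fin (n + 1) → MvPolynomial (Fin 2) ℂ),
    (∀ m j, (ξ m j).IsHomogeneous (γ.δ + 1)) ∧
    (∀ m i j, (η m i j).IsHomogeneous (γ.e i + 1)) ∧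
    (∀ l j, (ξ' l j).IsHomogeneous γ.δ) ∧
    (∀ l i j, (η' l i j).IsHomogeneous (γ.e i)) ∧
    ∀ b : Fin 2 → ℂ, b ≠ 0 →
      IsSplitting γ b (fun m j => eval b (ξ m j)) (fun m i j => eval b (η m i j))
        (fun l j => eval b (ξ' l j)) (fun l i j => eval b (η' l i j))

/-- `γ` is the inclusion of a (-1)-curve of size `a` in `X`: `1 ≤ a ≤ n - 1`, and `γ` is an
embedding of `ℙ¹` the normal bundle of which is isomorphic to the direct sum of `𝒪(-1)^a` and of
line bundles of nonnegative degree. -/
def IsMinusOneOfSize (γ : RatCurve p) (a : ℕ) : Prop :=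
  1 ≤ a ∧ a ≤ n - 1 ∧ γ.IsEmbedding ∧ HasNormalSize γ a

/-- The curve `γ(ℙ¹)` in `X`, as the set of all the coordinates `(x, w)` of its points. -/
def points (γ : RatCurve p) : Set (Vec n × (Fin h → Vec n)) :=
  {q | IsPoint p q.1 q.2 ∧ ∃ b : Fin 2 → ℂ, b ≠ 0 ∧ SamePoint p (γ.x b) (γ.dir b) q.1 q.2}

/-- The curve `γ(ℙ¹)` is contained in an exceptional divisor, i.e. in the fibre of `X → ℙⁿ` over
some `p i`. -/
def InExceptional (γ : RatCurve p) : Prop :=
  ∃ i, ∀ b : Fin 2 → ℂ, b ≠ 0 → γ.x b ∈ Submodule.span ℂ {p i}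

/-- The set of all (-1)-curves (of any size) in `X`. -/
def minusOneCurves (p : Fin h → Vec n) : Set (Set (Vec n × (Fin h → Vec n))) :=
  {C | ∃ (γ : RatCurve p) (a : ℕ), IsMinusOneOfSize γ a ∧ C = points γ}

/-- The set of all (-1)-curves (of any size) in `X` that are not contained in an exceptional
divisor. -/
def minusOneCurvesOff (p : Fin h → Vec n) : Set (Set (Vec n × (Fin h → Vec n))) :=
  {C | ∃ (γ : RatCurve p) (a : ℕ), IsMinusOneOfSize γ a ∧ ¬ InExceptional γ ∧ C = points γ}

/-- The set of the classes `(δ, μ)` of the (-1)-curves (of any size) in `X`. -/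
def minusOneClasses (p : Fin h → Vec n) : Set (ℤ × (Fin h → ℤ)) :=
  {c | ∃ (γ : RatCurve p) (a : ℕ), IsMinusOneOfSize γ a ∧ c = γ.cls}

end Pool.Agent.H403R4
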